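import Mathlib

/-!
# MP_0960bd_co : attaching a box along a convex facet does not change the homeomorphism type (helper94)
-/

set_option autoImplicit false

namespace Pool.Agent.BallTile

open Set Metric Bornology Topology
open scoped Pointwise

section glue

variable {X : Type*} [TopologicalSpace X]

/-- Gluing: if the homeomorphism `G` maps `A` onto `A'` and is the identity on `A ∩ U = A' ∩ U`, then
`U ∪ A` and `U ∪ A'` are homeomorphic. -/
theorem glue {U A A' : Set X} (hU : IsClosed U) (hA : IsClosed A) (hA' : IsClosed A')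
    (G : X ≃ₜ X) (hG : G '' A = A') (hfix : ∀ x ∈ A ∩ U, G x = x) (hUA : A' ∩ U ⊆ A) :
    Nonempty (↥(U ∪ A) ≃ₜ ↥(U ∪ A')) := by
  classical
  have hG1 : ∀ x ∈ A, G x ∈ A' := fun x hx => hG ▸ mem_image_of_mem G hx
  have hG2 : ∀ x ∈ A', G.symm x ∈ A := by
    intro x hx
    rw [← hG] at hx
    obtain ⟨y, hy, rfl⟩ := hx
    simpa using hy
  have hfix' : ∀ x ∈ A' ∩ U, G.symm x = x := by
    intro x hx
    have := hfix x ⟨hUA hx, hx.2⟩
    rw [Homeomorph.symm_apply_eq, this]
  set f : X → X := fun x => if x ∈ U then x else G x with hf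
  set g : X → X := fun x => if x ∈ U then x else G.symm x with hg
  have fU : ∀ x ∈ U, f x = x := fun x hx => by simp [hf, hx]
  have gU : ∀ x ∈ U, g x = x := fun x hx => by simp [hg, hx]
  have fA : ∀ x ∈ A, f x = G x := by
    intro x hx
    by_cases h : x ∈ U
    · rw [fU x h, hfix x ⟨hx, h⟩]
    · simp [hf, h]
  have gA : ∀ x ∈ A', g x = G.symm x := by
    intro x hx
    by_cases h : x ∈ U
    · rw [gU x h, hfix' x ⟨hx, h⟩]
    · simp [hg, h]
  have cf : ContinuousOn f (U ∪ A) := by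
    apply ContinuousOn.union_of_isClosed _ _ hU hA
    · exact continuousOn_id.congr (fun x hx => fU x hx)
    · exact G.continuous.continuousOn.congr (fun x hx => fA x hx)
  have cg : ContinuousOn g (U ∪ A') := by
    apply ContinuousOn.union_of_isClosed _ _ hU hA'
    · exact continuousOn_id.congr (fun x hx => gU x hx)
    · exact G.symm.continuous.continuousOn.congr (fun x hx => gA x hx)
  have mf : MapsTo f (U ∪ A) (U ∪ A') := by
    rintro x (hx | hx)
    · rw [fU x hx]; exact Or.inl hx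
    · rw [fA x hx]; exact Or.inr (hG1 x hx)
  have mg : MapsTo g (U ∪ A') (U ∪ A) := by
    rintro x (hx | hx)
    · rw [gU x hx]; exact Or.inl hx
    · rw [gA x hx]; exact Or.inr (hG2 x hx)
  refine ⟨{ toFun := fun x => ⟨f x, mf x.2⟩, invFun := fun x => ⟨g x, mg x.2⟩,
            left_inv := ?_, right_inv := ?_, continuous_toFun := ?_, continuous_invFun := ?_ }⟩
  · rintro ⟨x, hx | hx⟩
    · apply Subtype.ext
      change g (f x) = x
      rw [fU x hx, gU x hx]
    · apply Subtype.ext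
      change g (f x) = x
      rw [fA x hx, gA _ (hG1 x hx), Homeomorph.symm_apply_apply]
  · rintro ⟨x, hx | hx⟩
    · apply Subtype.ext
      change f (g x) = x
      rw [gU x hx, fU x hx]
    · apply Subtype.ext
      change f (g x) = x
      rw [gA x hx, fA _ (hG2 x hx), Homeomorph.apply_symm_apply]
  · exact Continuous.subtype_mk (continuousOn_iff_continuous_domRestrict.1 cf) _
  · exact Continuous.subtype_mk (continuousOn_iff_continuous_domRestrict.1 cg) _

/-- transport of the statement `U ∪ A ≃ₜ U` by an ambient homeomorphism -/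
theorem transport {Y : Type*} [TopologicalSpace Y] (H : X ≃ₜ Y) {S T : Set X}
    (h : Nonempty (↥(H '' S) ≃ₜ ↥(H '' T))) : Nonempty (↥S ≃ₜ ↥T) := by
  obtain ⟨h⟩ := h
  exact ⟨((H.image S).trans h).trans (H.image T).symm⟩

end glue

section convex

variable {E : Type*} [NormedAddCommGroup E] [NormedSpace ℝ E]

/-- Two convex bodies with a common interior point: there is a homeomorphism of the space mapping one
onto the other, fixing all common frontier points. -/
theorem exists_rescale {A A' : Set E} (hA : Convex ℝ A) (hAc : IsClosed A) (hAb : IsBounded A)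
    (hA' : Convex ℝ A') (hAc' : IsClosed A') (hAb' : IsBounded A') {p : E}
    (hp : p ∈ interior A) (hp' : p ∈ interior A') :
    ∃ G : E ≃ₜ E, G '' A = A' ∧ ∀ x ∈ frontier A ∩ frontier A', G x = x := by
  have n1 : (-p +ᵥ A) ∈ 𝓝 (0 : E) := by
    simp [← mem_interior_iff_mem_nhds, interior_vadd, mem_vadd_set_iff_neg_vadd_mem, hp]
  have n2 : (-p +ᵥ A') ∈ 𝓝 (0 : E) := by
    simp [← mem_interior_iff_mem_nhds, interior_vadd, mem_vadd_set_iff_neg_vadd_mem, hp']
  have c1 : Convex ℝ (-p +ᵥ A) := hA.vadd _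
  have c2 : Convex ℝ (-p +ᵥ A') := hA'.vadd _
  have b1 : IsVonNBounded ℝ (-p +ᵥ A) := NormedSpace.isVonNBounded_of_isBounded _ (hAb.vadd _)
  have b2 : IsVonNBounded ℝ (-p +ᵥ A') := NormedSpace.isVonNBounded_of_isBounded _ (hAb'.vadd _)
  set h : E ≃ₜ E := gaugeRescaleHomeomorph (-p +ᵥ A) (-p +ᵥ A') c1 n1 b1 c2 n2 b2 with hh
  refine ⟨(Homeomorph.addLeft (-p)).trans (h.trans (Homeomorph.addLeft p)), ?_, ?_⟩
  · have : h '' (-p +ᵥ A) = (-p +ᵥ A') := by
      have := image_gaugeRescaleHomeomorph_closure c1 n1 b1 c2 n2 b2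
      rwa [(hAc.vadd (-p)).closure_eq, (hAc'.vadd (-p)).closure_eq] at this
    calc
      (fun a ↦ p + h (-p + a)) '' A = p +ᵥ h '' (-p +ᵥ A) := by
        simp_rw [← image_vadd, image_image, vadd_eq_add]
      _ = _ := by rw [this, vadd_neg_vadd]
  · rintro x ⟨hx, hx'⟩
    change p + h (-p + x) = x
    have fr : ∀ S : Set E, frontier (-p +ᵥ S) = -p +ᵥ frontier S := fun S =>
      ((Homeomorph.vadd (-p)).image_frontier S).symm
    have g1 : gauge (-p +ᵥ A) (-p + x) = 1 := by
      rw [gauge_eq_one_iff_mem_frontier c1 n1, fr]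
      exact ⟨x, hx, rfl⟩
    have g2 : gauge (-p +ᵥ A') (-p + x) = 1 := by
      rw [gauge_eq_one_iff_mem_frontier c2 n2, fr]
      exact ⟨x, hx', rfl⟩
    have : h (-p + x) = -p + x := by
      change gaugeRescale _ _ _ = _
      rw [gaugeRescale_def, g1, g2]; simp
    rw [this]; simp

/-- The gauge of a convex body around an interior point. -/
theorem exists_gauge {K : Set E} (hK : Convex ℝ K) (hKc : IsClosed K) {x₀ : E}
    (hx : x₀ ∈ interior K) :
    ∃ g : E → ℝ, Continuous g ∧ ConvexOn ℝ univ g ∧ (∀ x, 0 ≤ g x) ∧ g x₀ = 0 ∧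
      ∀ x, g x ≤ 1 ↔ x ∈ K := by
  have n1 : (-x₀ +ᵥ K) ∈ 𝓝 (0 : E) := by
    simp [← mem_interior_iff_mem_nhds, interior_vadd, mem_vadd_set_iff_neg_vadd_mem, hx]
  have c1 : Convex ℝ (-x₀ +ᵥ K) := hK.vadd _
  refine ⟨fun x => gauge (-x₀ +ᵥ K) (-x₀ + x), ?_, ?_, ?_, ?_, ?_⟩
  · exact (continuous_gauge c1 n1).comp (continuous_const.add continuous_id)
  · refine ⟨convex_univ, ?_⟩
    intro x _ y _ a b ha hb hab
    have : -x₀ + (a • x + b • y) = a • (-x₀ + x) + b • (-x₀ + y) := by
      have : (-x₀ : E) = a • (-x₀) + b • (-x₀) := by rw [← add_smul, hab, one_smul]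
      rw [smul_add, smul_add]
      nth_rewrite 1 [this]
      abel
    change gauge _ (-x₀ + (a • x + b • y)) ≤ a • gauge _ (-x₀ + x) + b • gauge _ (-x₀ + y)
    rw [this]
    refine (gauge_add_le c1 (absorbent_nhds_zero n1) _ _).trans ?_
    rw [gauge_smul_of_nonneg ha, gauge_smul_of_nonneg hb]
  · intro x; exact gauge_nonneg _
  · simp
  · intro x
    rw [gauge_le_one_iff_mem_closure c1 n1, (hKc.vadd (-x₀)).closure_eq,
      mem_vadd_set_iff_neg_vadd_mem]
    simp

end convex

section attach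

variable {P : Type*} [NormedAddCommGroup P] [NormedSpace ℝ P]

/-- Attaching a box from below along a convex set `K`. -/
theorem attach_below₀ {U : Set (P × ℝ)} {B K : Set P} {c' c η : ℝ} (hU : IsClosed U) (hc : c' < c)
    (hη : 0 < η) (hB : Convex ℝ B) (hBc : IsClosed B) (hBb : IsBounded B) (hK : Convex ℝ K)
    (hKc : IsClosed K) (hKi : (interior K).Nonempty) (hKB : K ⊆ B)
    (h1 : U ∩ B ×ˢ Icc c' c ⊆ K ×ˢ {c}) (h2 : K ×ˢ Icc c (c + η) ⊆ U) :
    Nonempty (↥(U ∪ B ×ˢ Icc c' c) ≃ₜ ↥U) := by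
  obtain ⟨x₀, hx₀⟩ := hKi
  obtain ⟨g, gc, gconv, g0, gx, gK⟩ := exists_gauge hK hKc hx₀
  obtain ⟨κ, hκ, hκη, hκc⟩ : ∃ κ : ℝ, 0 < κ ∧ κ ≤ η ∧ κ ≤ c - c' :=
    ⟨min η (c - c'), lt_min hη (by linarith), min_le_left _ _, min_le_right _ _⟩
  -- the function whose sublevel set is the double cone
  set F : P × ℝ → ℝ := fun q => κ * g q.1 + |q.2 - c| with hF
  have Fc : Continuous F := by
    simp only [hF]
    exact (continuous_const.mul (gc.comp continuous_fst)).add
      ((continuous_snd.sub continuous_const).abs)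
  have Fconv : ConvexOn ℝ univ F := by
    refine ⟨convex_univ, ?_⟩
    rintro ⟨x, s⟩ _ ⟨y, r⟩ _ a b ha hb hab
    have h3 := gconv.2 (mem_univ x) (mem_univ y) ha hb hab
    have h4 : |a * s + b * r - c| ≤ a * |s - c| + b * |r - c| := by
      have : a * s + b * r - c = a * (s - c) + b * (r - c) := by
        have : c = a * c + b * c := by rw [← add_mul, hab, one_mul]
        nth_rewrite 1 [this]; ring
      rw [this]
      refine (abs_add_le _ _).trans ?_
      rw [abs_mul, abs_mul, abs_of_nonneg ha, abs_of_nonneg hb]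
    simp only [hF, smul_eq_mul, Prod.smul_mk, Prod.mk_add_mk] at *
    nlinarith
  set DC : Set (P × ℝ) := {q | F q ≤ κ} with hDC
  set LC : Set (P × ℝ) := DC ∩ {q | q.2 ≤ c} with hLC
  set UC : Set (P × ℝ) := DC ∩ {q | c ≤ q.2} with hUC
  set Bx : Set (P × ℝ) := B ×ˢ Icc c' c with hBx
  have DCc : IsClosed DC := isClosed_le Fc continuous_const
  have LCc : IsClosed LC := DCc.inter (isClosed_le continuous_snd continuous_const)
  have UCc : IsClosed UC := DCc.inter (isClosed_le continuous_const continuous_snd)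
  have DCv : Convex ℝ DC := by
    have := Fconv.convex_le κ
    simpa [hDC] using this
  have LCv : Convex ℝ LC := DCv.inter (convex_halfSpace_le ((LinearMap.snd ℝ P ℝ).isLinear) c)
  have UCv : Convex ℝ UC := DCv.inter (convex_halfSpace_ge ((LinearMap.snd ℝ P ℝ).isLinear) c)
  -- elementary facts on the double cone
  have mem_DC : ∀ q ∈ DC, q.1 ∈ K ∧ |q.2 - c| ≤ κ := by
    intro q hq
    have hq' : κ * g q.1 + |q.2 - c| ≤ κ := hq
    have h3 := abs_nonneg (q.2 - c)
    have h4 := mul_nonneg hκ.le (g0 q.1)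
    refine ⟨(gK _).1 ?_, by linarith⟩
    by_contra h5
    push Not at h5
    nlinarith
  have DCs : DC ⊆ K ×ˢ Icc (c - κ) (c + κ) := by
    intro q hq
    obtain ⟨h3, h4⟩ := mem_DC q hq
    rw [abs_le] at h4
    exact ⟨h3, by linarith, by linarith⟩
  have hKb : IsBounded K := hBb.subset hKB
  have DCb : IsBounded DC := (hKb.prod (isBounded_Icc _ _)).subset DCs
  have LCb : IsBounded LC := DCb.subset inter_subset_left
  have UCb : IsBounded UC := DCb.subset inter_subset_left
  have Bxc : IsClosed Bx := hBc.prod isClosed_Icc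
  have Bxv : Convex ℝ Bx := hB.prod (convex_Icc _ _)
  have Bxb : IsBounded Bx := hBb.prod (isBounded_Icc _ _)
  have LCB : LC ⊆ Bx := by
    intro q hq
    obtain ⟨h3, h4⟩ := DCs hq.1
    exact ⟨hKB h3, by have := h4.1; linarith, hq.2⟩
  have UCU : UC ⊆ U := by
    intro q hq
    obtain ⟨h3, h4⟩ := DCs hq.1
    exact h2 ⟨h3, hq.2, by have := h4.2; linarith⟩
  have hFint : ∀ q, F q < κ → q ∈ interior DC := by
    intro q hq
    rw [mem_interior_iff_mem_nhds]
    exact Filter.mem_of_superset ((isOpen_lt Fc continuous_const).mem_nhds hq)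
      (fun x (hx : F x < κ) => (hx.le : F x ≤ κ))
  -- points above are outside
  have frontier_of : ∀ (S : Set (P × ℝ)) (q : P × ℝ), q ∈ S → (∀ ε > 0, (q.1, q.2 + ε) ∉ S) →
      q ∈ frontier S := by
    intro S q hq hout
    rw [frontier, mem_sdiff]
    refine ⟨subset_closure hq, fun hint => ?_⟩
    rw [mem_interior_iff_mem_nhds] at hint
    have hcont : Continuous (fun ε : ℝ => (q.1, q.2 + ε)) := by fun_prop
    have h3 : (fun ε : ℝ => (q.1, q.2 + ε)) ⁻¹' S ∈ 𝓝 (0 : ℝ) := by
      apply hcont.continuousAt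
      simpa using hint
    rw [Metric.mem_nhds_iff] at h3
    obtain ⟨δ, hδ, h4⟩ := h3
    refine hout (δ / 2) (by positivity) (h4 ?_)
    rw [mem_ball, dist_zero_right, Real.norm_eq_abs, abs_of_pos (by positivity)]
    linarith
  -- step 1 : squash the box onto the lower half cone
  have step1 : Nonempty (↥(U ∪ Bx) ≃ₜ ↥(U ∪ LC)) := by
    have p1 : ((x₀, c - κ / 2) : P × ℝ) ∈ interior Bx := by
      rw [hBx, interior_prod_eq, interior_Icc]
      exact ⟨interior_mono hKB hx₀, by linarith, by linarith⟩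
    have p2 : ((x₀, c - κ / 2) : P × ℝ) ∈ interior LC := by
      rw [hLC, interior_inter]
      refine ⟨hFint _ ?_, ?_⟩
      · simp only [hF, gx]
        rw [abs_of_neg (by linarith)]
        linarith
      · rw [mem_interior_iff_mem_nhds]
        refine Filter.mem_of_superset ((isOpen_lt continuous_snd continuous_const).mem_nhds
          (show ((x₀, c - κ / 2) : P × ℝ).2 < c by simpa using hκ))
          (fun x (hx : x.2 < c) => (hx.le : x.2 ≤ c))
    obtain ⟨G, hG, hGf⟩ := exists_rescale Bxv Bxc Bxb LCv LCc LCb p1 p2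
    refine glue hU Bxc LCc G hG ?_ (fun q hq => LCB hq.1)
    intro q hq
    have hq' := h1 ⟨hq.2, hq.1⟩
    obtain ⟨h3, h4⟩ := hq'
    have h4' : q.2 = c := h4
    apply hGf
    have hqF : q ∈ LC := by
      refine ⟨?_, ?_⟩
      · change κ * g q.1 + |q.2 - c| ≤ κ
        rw [h4']; simp
        nlinarith [(gK q.1).2 h3]
      · exact h4'.le
    refine ⟨frontier_of _ _ hq.1 ?_, frontier_of _ _ hqF ?_⟩
    · intro ε hε hmem
      have : q.2 + ε ≤ c := hmem.2.2
      linarith
    · intro ε hε hmem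
      have : q.2 + ε ≤ c := hmem.2
      linarith
  -- step 2 : push the double cone onto the upper half cone
  set V : Set (P × ℝ) := U ∩ {q | κ ≤ F q} with hV
  have Vc : IsClosed V := hU.inter (isClosed_le continuous_const Fc)
  have below : ∀ q ∈ U, F q ≤ κ → c ≤ q.2 := by
    intro q hq hq'
    by_contra h3
    push Not at h3
    obtain ⟨h4, h5⟩ := DCs (show q ∈ DC from hq')
    have : q ∈ K ×ˢ {c} := h1 ⟨hq, hKB h4, by have := h5.1; linarith, h3.le⟩
    have : q.2 = c := this.2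
    linarith
  have e1 : U ∪ LC = V ∪ DC := by
    ext q
    constructor
    · rintro (hq | hq)
      · by_cases h3 : κ ≤ F q
        · exact Or.inl ⟨hq, h3⟩
        · exact Or.inr (le_of_lt (not_le.1 h3))
      · exact Or.inr hq.1
    · rintro (hq | hq)
      · exact Or.inl hq.1
      · by_cases h3 : q.2 ≤ c
        · exact Or.inr ⟨hq, h3⟩
        · exact Or.inl (UCU ⟨hq, (not_le.1 h3).le⟩)
  have e2 : V ∪ UC = U := by
    ext q
    constructor
    · rintro (hq | hq)
      · exact hq.1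
      · exact UCU hq
    · intro hq
      by_cases h3 : κ ≤ F q
      · exact Or.inl ⟨hq, h3⟩
      · exact Or.inr ⟨(not_le.1 h3).le, below q hq (not_le.1 h3).le⟩
  have step2 : Nonempty (↥(V ∪ DC) ≃ₜ ↥(V ∪ UC)) := by
    have p3 : F (x₀, c + κ / 2) < κ := by
      simp only [hF, gx]
      rw [abs_of_pos (by linarith)]
      linarith
    have p1 : ((x₀, c + κ / 2) : P × ℝ) ∈ interior DC := hFint _ p3
    have p2 : ((x₀, c + κ / 2) : P × ℝ) ∈ interior UC := by
      rw [hUC, interior_inter]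
      refine ⟨hFint _ p3, ?_⟩
      rw [mem_interior_iff_mem_nhds]
      refine Filter.mem_of_superset ((isOpen_lt continuous_const continuous_snd).mem_nhds
          (show c < ((x₀, c + κ / 2) : P × ℝ).2 by simpa using hκ))
          (fun x (hx : c < x.2) => (hx.le : c ≤ x.2))
    obtain ⟨G, hG, hGf⟩ := exists_rescale DCv DCc DCb UCv UCc UCb p1 p2
    refine glue Vc DCc UCc G hG ?_ (fun q hq => hq.1.1)
    intro q hq
    apply hGf
    have hq1 : F q ≤ κ := hq.1
    have hq2 : c ≤ q.2 := below q hq.2.1 hq1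
    have hq3 : κ ≤ F q := hq.2.2
    have hout : ∀ ε > 0, (q.1, q.2 + ε) ∉ DC := by
      intro ε hε hmem
      have h3 : κ * g q.1 + |q.2 + ε - c| ≤ κ := hmem
      have h4 : κ ≤ κ * g q.1 + |q.2 - c| := hq3
      rw [abs_of_nonneg (by linarith)] at h3 h4
      linarith
    exact ⟨frontier_of _ _ hq1 hout, frontier_of _ _ ⟨hq1, hq2⟩ (fun ε hε hm => hout ε hε hm.1)⟩
  obtain ⟨a1⟩ := step1
  obtain ⟨a2⟩ := step2
  rw [e2, ← e1] at a2
  exact ⟨a1.trans a2⟩

/-- Attaching a box from below along `K`, where a homeomorphism `Φ` of the base makes the base `B` of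
the box and the contact set `K` convex. -/
theorem attach_below {U : Set (P × ℝ)} {B K : Set P} {c' c η : ℝ} (hU : IsClosed U) (hc : c' < c)
    (hη : 0 < η) (Φ : P ≃ₜ P) (hB : Convex ℝ (Φ '' B)) (hBc : IsCompact B)
    (hK : Convex ℝ (Φ '' K)) (hKc : IsClosed K) (hKi : (interior K).Nonempty) (hKB : K ⊆ B)
    (h1 : U ∩ B ×ˢ Icc c' c ⊆ K ×ˢ {c}) (h2 : K ×ˢ Icc c (c + η) ⊆ U) :
    Nonempty (↥(U ∪ B ×ˢ Icc c' c) ≃ₜ ↥U) := by
  set H : P × ℝ ≃ₜ P × ℝ := Φ.prodCongr (Homeomorph.refl ℝ) with hH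
  have img : ∀ (S : Set P) (I : Set ℝ), H '' (S ×ˢ I) = (Φ '' S) ×ˢ I := by
    intro S I
    ext ⟨x, s⟩
    constructor
    · rintro ⟨⟨y, r⟩, ⟨hy, hr⟩, hyr⟩
      have h3 : Φ y = x ∧ r = s := by simpa [hH] using hyr
      exact ⟨⟨y, hy, h3.1⟩, h3.2 ▸ hr⟩
    · rintro ⟨⟨y, hy, hyx⟩, hs⟩
      exact ⟨(y, s), ⟨hy, hs⟩, by simpa [hH] using hyx⟩
  apply transport H
  rw [image_union, img]
  refine attach_below₀ (H.isClosedMap _ hU) hc hη hB (hBc.image Φ.continuous).isClosed
    (hBc.image Φ.continuous).isBounded hK (Φ.isClosedMap _ hKc) ?_ (image_mono hKB) ?_ ?_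
  · rw [← Φ.image_interior]; exact hKi.image _
  · rw [← img, ← image_inter H.injective, ← img]
    exact image_mono h1
  · rw [← img]; exact image_mono h2

/-- Attaching a box from above. -/
theorem attach_above {U : Set (P × ℝ)} {B K : Set P} {c' c η : ℝ} (hU : IsClosed U) (hc : c < c')
    (hη : 0 < η) (Φ : P ≃ₜ P) (hB : Convex ℝ (Φ '' B)) (hBc : IsCompact B)
    (hK : Convex ℝ (Φ '' K)) (hKc : IsClosed K) (hKi : (interior K).Nonempty) (hKB : K ⊆ B)
    (h1 : U ∩ B ×ˢ Icc c c' ⊆ K ×ˢ {c}) (h2 : K ×ˢ Icc (c - η) c ⊆ U) :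
    Nonempty (↥(U ∪ B ×ˢ Icc c c') ≃ₜ ↥U) := by
  set H : P × ℝ ≃ₜ P × ℝ := (Homeomorph.refl P).prodCongr (Homeomorph.neg ℝ) with hH
  have img : ∀ (S : Set P) (I : Set ℝ), H '' (S ×ˢ I) = S ×ˢ (-I) := by
    intro S I
    ext ⟨x, s⟩
    constructor
    · rintro ⟨⟨y, r⟩, ⟨hy, hr⟩, hyr⟩
      have h3 : y = x ∧ -r = s := by simpa [hH] using hyr
      exact ⟨h3.1 ▸ hy, by rw [← h3.2]; simpa using hr⟩
    · rintro ⟨hx, hs⟩
      exact ⟨(x, -s), ⟨hx, by simpa using hs⟩, by simp [hH]⟩
  apply transport H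
  rw [image_union, img, Set.neg_Icc]
  refine attach_below (H.isClosedMap _ hU) (neg_lt_neg hc) hη Φ hB hBc hK hKc hKi hKB ?_ ?_
  · rw [← Set.neg_Icc, ← img, ← image_inter H.injective,
      show ({-c} : Set ℝ) = -{c} by simp, ← img]
    exact image_mono h1
  · rw [show Icc (-c) (-c + η) = -Icc (c - η) c by rw [Set.neg_Icc]; congr 1; ring, ← img]
    exact image_mono h2

/-- A set which is convex, compact, with nonempty interior up to a homeomorphism of the space is a
ball. -/
theorem ball_of_convex {S : Set P} (Φ : P ≃ₜ P) (hS : Convex ℝ (Φ '' S)) (hSc : IsCompact S)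
    (hSi : (interior S).Nonempty) : Nonempty (↥S ≃ₜ ↥(closedBall (0 : P) 1)) := by
  have hc : IsClosed (Φ '' S) := (hSc.image Φ.continuous).isClosed
  obtain ⟨h, -, h2, -⟩ := exists_homeomorph_image_interior_closure_frontier_eq_unitBall hS
    (by rw [← Φ.image_interior]; exact hSi.image _) (hSc.image Φ.continuous).isBounded
  rw [hc.closure_eq, ← image_comp] at h2
  exact ⟨((Φ.trans h).image S).trans (Homeomorph.setCongr h2)⟩

end attach

end Pool.Agent.BallTile
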