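import Pool.Agent.Lib.MP_0960bd_co.Geo

/-!
# MP_0960bd_co : elementary facts on the axis of the tubes (helper94)
-/

set_option autoImplicit false

namespace Pool.Agent.BallTile

open Set

theorem clamp_nonneg (z : ℝ) : 0 ≤ clamp z := le_max_left _ _

theorem clamp_le_one (z : ℝ) : clamp z ≤ 1 := max_le zero_le_one (min_le_left _ _)

theorem clamp_mono : Monotone clamp := fun _ _ h => max_le_max le_rfl (min_le_min le_rfl h)

theorem clamp_of_nonpos {z : ℝ} (h : z ≤ 0) : clamp z = 0 := by
  unfold clamp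
  rw [min_eq_right (by linarith), max_eq_left h]

theorem clamp_of_one_le {z : ℝ} (h : 1 ≤ z) : clamp z = 1 := by
  unfold clamp
  rw [min_eq_left h, max_eq_right zero_le_one]

theorem clamp_of_mem {z : ℝ} (h : 0 ≤ z) (h' : z ≤ 1) : clamp z = z := by
  unfold clamp
  rw [min_eq_right h', max_eq_right h]

theorem cont_clamp : Continuous clamp := by
  unfold clamp; fun_prop

namespace GeoData

variable {ι : Type} [Fintype ι] [DecidableEq ι] (D : GeoData ι)

omit [Fintype ι] [DecidableEq ι] in
theorem gap {b i j : ℕ} (hij : i < j) (hj : j ≤ D.n) : D.x b i D.t + 2 ≤ D.x b j D.t := by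
  induction j with
  | zero => omega
  | succ j ih =>
    have h1 := D.ht b j (by omega)
    rcases Nat.lt_or_ge i j with h | h
    · have := ih h (by omega); omega
    · have : i = j := by omega
      subst this; exact h1

omit [Fintype ι] [DecidableEq ι] in
theorem le_of_le {b i j : ℕ} (hij : i ≤ j) (hj : j ≤ D.n) : D.x b i D.t ≤ D.x b j D.t := by
  rcases Nat.lt_or_ge i j with h | h
  · have := D.gap (b := b) h hj; omega
  · have : i = j := by omega
    subst this; exact le_rfl

omit [Fintype ι] [DecidableEq ι] in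
theorem gap' {b i j : ℕ} (hi : i ≤ D.n) (hj : j ≤ D.n) : D.x (b + 1) i D.t + 2 ≤ D.x b j D.t := by
  have h1 := D.ht' b
  have h2 := D.le_of_le (b := b + 1) hi le_rfl
  have h3 := D.le_of_le (b := b) (Nat.zero_le j) hj
  omega

omit [Fintype ι] [DecidableEq ι] in
theorem nodeU (b k : ℕ) : D.node b k D.u = 0 := by
  cases k <;> simp [node, cast, D.hu]

omit [Fintype ι] [DecidableEq ι] in
theorem node_gap {b k : ℕ} (hk : k ≤ D.n) : D.node b k D.t + 2 ≤ D.node b (k + 1) D.t := by
  cases k with
  | zero =>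
    have h := D.ht' b
    simp only [node, cast]
    exact_mod_cast h
  | succ k =>
    have h := D.ht b k (by omega)
    simp only [node, cast]
    exact_mod_cast h

/-- partial sums of the axis -/
noncomputable def axisP (b m : ℕ) (z : ℝ) : ι → ℝ :=
  D.node b 0 + ∑ k ∈ Finset.range m, clamp (z - (2 * k + 1)) • (D.node b (k + 1) - D.node b k)

omit [Fintype ι] [DecidableEq ι] in
theorem axisP_succ (b m : ℕ) (z : ℝ) : D.axisP b (m + 1) z =
    D.axisP b m z + clamp (z - (2 * m + 1)) • (D.node b (m + 1) - D.node b m) := by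
  rw [axisP, axisP, Finset.sum_range_succ, add_assoc]

omit [Fintype ι] [DecidableEq ι] in
theorem axisP_eq_node {b m : ℕ} {z : ℝ} (hz : 2 * (m : ℝ) ≤ z) : D.axisP b m z = D.node b m := by
  induction m with
  | zero => simp [axisP]
  | succ m ih =>
    push_cast at hz
    rw [axisP_succ, ih (by linarith), clamp_of_one_le (by linarith), one_smul]
    abel

omit [Fintype ι] [DecidableEq ι] in
theorem axisP_of_le {b m M : ℕ} (hm : m ≤ M) {z : ℝ} (hz : z ≤ 2 * (m : ℝ) + 1) :
    D.axisP b M z = D.axisP b m z := by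
  induction M, hm using Nat.le_induction with
  | base => rfl
  | succ M hM ih =>
    have : (m : ℝ) ≤ M := by exact_mod_cast hM
    rw [axisP_succ, ih, clamp_of_nonpos (by linarith), zero_smul, add_zero]

omit [Fintype ι] [DecidableEq ι] in
theorem axis_eq (b : ℕ) (z : ℝ) : D.axis b z = D.axisP b (D.n + 1) z := rfl

omit [Fintype ι] [DecidableEq ι] in
/-- the axis rests at `node b k` for `z ∈ [2k, 2k+1]` -/
theorem axis_rest {b k : ℕ} (hk : k ≤ D.n + 1) {z : ℝ} (h1 : 2 * (k : ℝ) ≤ z)
    (h2 : z ≤ 2 * (k : ℝ) + 1) : D.axis b z = D.node b k := by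
  rw [axis_eq, D.axisP_of_le hk h2, D.axisP_eq_node h1]

omit [Fintype ι] [DecidableEq ι] in
/-- the axis rests at `node b 0` for `z ≤ 1` -/
theorem axis_rest_zero {b : ℕ} {z : ℝ} (h2 : z ≤ 1) : D.axis b z = D.node b 0 := by
  rw [axis_eq, D.axisP_of_le (Nat.zero_le _) (by simpa using h2)]
  simp [axisP]

omit [Fintype ι] [DecidableEq ι] in
/-- the axis rests at `node b (n+1)` for `z ≥ 2n+2` -/
theorem axis_rest_last {b : ℕ} {z : ℝ} (h1 : 2 * (D.n : ℝ) + 2 ≤ z) :
    D.axis b z = D.node b (D.n + 1) := by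
  rw [axis_eq, D.axisP_eq_node (by push_cast; linarith)]

omit [Fintype ι] [DecidableEq ι] in
/-- the axis moves linearly from `node b k` to `node b (k+1)` for `z ∈ [2k+1, 2k+2]` -/
theorem axis_move {b k : ℕ} (hk : k ≤ D.n) {z : ℝ} (h1 : 2 * (k : ℝ) + 1 ≤ z)
    (h2 : z ≤ 2 * (k : ℝ) + 2) :
    D.axis b z = D.node b k + (z - (2 * k + 1)) • (D.node b (k + 1) - D.node b k) := by
  rw [axis_eq, D.axisP_of_le (show k + 1 ≤ D.n + 1 by omega) (by push_cast; linarith), axisP_succ,
    D.axisP_eq_node (by linarith), clamp_of_mem (by linarith) (by linarith)]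

omit [Fintype ι] [DecidableEq ι] in
theorem axisU (b : ℕ) (z : ℝ) : D.axis b z D.u = 0 := by
  simp [axis, D.nodeU]

omit [Fintype ι] [DecidableEq ι] in
theorem cont_axis (b : ℕ) : Continuous (D.axis b) := by
  unfold axis
  have := cont_clamp
  fun_prop

omit [Fintype ι] [DecidableEq ι] in
theorem axis_t_mono (b : ℕ) : Monotone (fun z => D.axis b z D.t) := by
  intro z z' h
  simp only [axis, Pi.add_apply, Finset.sum_apply, Pi.smul_apply, Pi.sub_apply, smul_eq_mul]
  gcongr with k hk
  · have := D.node_gap (b := b) (show k ≤ D.n by have := Finset.mem_range.1 hk; omega)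
    linarith
  · exact clamp_mono (by linarith)

omit [Fintype ι] [DecidableEq ι] in
theorem node_zero_le_axis (b : ℕ) (z : ℝ) : D.node b 0 D.t ≤ D.axis b z D.t := by
  rcases le_total z 0 with h | h
  · rw [D.axis_rest_zero (by linarith)]
  · have := D.axis_t_mono b h
    simp only at this
    rwa [D.axis_rest_zero (by norm_num)] at this

omit [Fintype ι] [DecidableEq ι] in
/-- before time `2k-1` the axis is at distance `≥ 2` of `node b k` -/
theorem axis_before {b k : ℕ} (hk : k ≤ D.n) {z : ℝ} (hz : z ≤ 2 * (k : ℝ) + 1) :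
    D.axis b z D.t + 2 ≤ D.node b (k + 1) D.t := by
  have h := D.axis_t_mono b hz
  simp only at h
  rw [D.axis_rest (k := k) (by omega) (by linarith) le_rfl] at h
  have := D.node_gap (b := b) hk
  linarith

omit [Fintype ι] [DecidableEq ι] in
/-- after time `2k+2` the axis is at distance `≥ 2` of `node b k` -/
theorem axis_after {b k : ℕ} (hk : k ≤ D.n) {z : ℝ} (hz : 2 * (k : ℝ) + 2 ≤ z) :
    D.node b k D.t + 2 ≤ D.axis b z D.t := by
  have h := D.axis_t_mono b hz
  simp only at h
  rw [D.axis_rest (k := k + 1) (by omega) (by push_cast; linarith) (by push_cast; linarith)] at h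
  have := D.node_gap (b := b) hk
  linarith

omit [Fintype ι] [DecidableEq ι] in
theorem rho_pos : 0 < D.rho := by unfold rho; positivity

omit [Fintype ι] [DecidableEq ι] in
theorem rho_lt : D.rho < 1 := by
  unfold rho
  rw [div_lt_one (by positivity)]
  have : (0 : ℝ) ≤ D.n := by positivity
  linarith

omit [Fintype ι] [DecidableEq ι] in
theorem mul_rho : (2 * (D.n : ℝ) + 3) * D.rho = 1 / 2 := by
  unfold rho
  field_simp
  ring

omit [Fintype ι] [DecidableEq ι] in
theorem zpar_one : D.zpar 1 = 2 * D.n + 5 / 2 := by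
  have := D.mul_rho
  unfold zpar
  linarith

omit [Fintype ι] [DecidableEq ι] in
theorem zpar_mono {r r' : ℝ} (h : r ≤ r') : D.zpar r ≤ D.zpar r' := by
  unfold zpar
  have : (0 : ℝ) ≤ D.n := by positivity
  nlinarith

omit [Fintype ι] [DecidableEq ι] in
theorem zpar_strictMono : StrictMono D.zpar := by
  intro r r' h
  unfold zpar
  have : (0 : ℝ) ≤ D.n := by positivity
  nlinarith

omit [Fintype ι] [DecidableEq ι] in
theorem zpar_rho : D.zpar D.rho = 0 := by simp [zpar]

omit [Fintype ι] [DecidableEq ι] in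
theorem zpar_add_one (r : ℝ) : D.zpar (r + 1) = D.zpar r + (2 * D.n + 3) := by
  unfold zpar; ring

omit [Fintype ι] [DecidableEq ι] in
theorem cont_zpar : Continuous D.zpar := by unfold zpar; fun_prop

end GeoData

end Pool.Agent.BallTile
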