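import Pool.Agent.Lib.MP_0960bd_co.Geo

/-!
# MP_0960bd_co : the key map is an equivariant bi-Lipschitz homeomorphism (G3)
-/

set_option autoImplicit false
set_option linter.unusedSectionVars false

noncomputable section

namespace Pool.Agent.BallTile

open Set MeasureTheory

/-- distance to the nearest point of `p ℤ` is 1-Lipschitz -/
theorem abs_norm_coe_sub_le (p a b : ℝ) :
    |‖(a : AddCircle p)‖ - ‖(b : AddCircle p)‖| ≤ |a - b| := by
  have h1 := abs_norm_sub_norm_le (a : AddCircle p) (b : AddCircle p)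
  have h2 : ‖((a - b : ℝ) : AddCircle p)‖ ≤ ‖a - b‖ := QuotientAddGroup.norm_mk_le_norm
  rw [AddCircle.coe_sub] at h2
  exact h1.trans (h2.trans (le_of_eq (Real.norm_eq_abs _)))

theorem nd_nonneg (r : ℝ) : 0 ≤ nd r := norm_nonneg _

theorem abs_nd_sub_le (a b : ℝ) : |nd a - nd b| ≤ |a - b| := abs_norm_coe_sub_le 1 a b

theorem nd_add_int (r : ℝ) (k : ℤ) : nd (r + k) = nd r := by
  unfold nd
  congr 1
  rw [AddCircle.coe_add]
  have : ((k : ℝ) : UnitAddCircle) = 0 := by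
    rw [AddCircle.coe_eq_zero_iff]
    exact ⟨k, by simp⟩
  rw [this, add_zero]

namespace GeoData

variable {ι : Type} [Fintype ι] [DecidableEq ι] (D : GeoData ι)

theorem nds_nonneg (s : ℝ) : 0 ≤ D.nds s := norm_nonneg _

theorem abs_nds_sub_le (a b : ℝ) : |D.nds a - D.nds b| ≤ |a - b| := by
  have := abs_norm_coe_sub_le (2 * D.J : ℝ) (a - 1 / 2) (b - 1 / 2)
  simpa [nds] using this

theorem nds_add_int (s : ℝ) (k : ℤ) : D.nds (s + 2 * D.J * k) = D.nds s := by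
  unfold nds
  congr 1
  have e : s + 2 * D.J * k - 1 / 2 = (s - 1 / 2) + 2 * D.J * k := by ring
  rw [e, AddCircle.coe_add]
  have : ((2 * D.J * k : ℝ) : AddCircle (2 * D.J : ℝ)) = 0 := by
    rw [AddCircle.coe_eq_zero_iff]
    exact ⟨k, by simp [mul_comm]⟩
  rw [this, add_zero]

theorem lat_nonneg (i : ι) (p : ι → ℝ) : 0 ≤ lat i p := norm_nonneg _

theorem abs_lat_sub_le (i : ι) (p q : ι → ℝ) : |lat i p - lat i q| ≤ ‖p - q‖ := by
  unfold lat
  refine (abs_norm_sub_norm_le _ _).trans ?_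
  rw [pi_norm_le_iff_of_nonneg (norm_nonneg _)]
  intro l
  by_cases h : l = i
  · simp [h]
  · simp only [Pi.sub_apply, h, if_false]
    rw [Real.norm_eq_abs]
    refine (abs_nd_sub_le _ _).trans ?_
    have : p l - 1 / 2 - (q l - 1 / 2) = (p - q) l := by simp
    rw [this, ← Real.norm_eq_abs]
    exact norm_le_pi_norm (p - q) l

/-- refined Lipschitz estimate for `lat`: only the coordinates `≠ i` matter -/
theorem abs_lat_sub_le' (i : ι) (p q : ι → ℝ) (r : ℝ) (hr : 0 ≤ r)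
    (h : ∀ l, l ≠ i → |p l - q l| ≤ r) : |lat i p - lat i q| ≤ r := by
  unfold lat
  refine (abs_norm_sub_norm_le _ _).trans ?_
  rw [pi_norm_le_iff_of_nonneg hr]
  intro l
  by_cases hl : l = i
  · simp [hl, hr]
  · simp only [Pi.sub_apply, hl, if_false]
    rw [Real.norm_eq_abs]
    refine (abs_nd_sub_le _ _).trans ?_
    have : p l - 1 / 2 - (q l - 1 / 2) = p l - q l := by ring
    rw [this]
    exact h l hl

theorem lat_add_int (i : ι) (p : ι → ℝ) (z : ι → ℤ) : lat i (p + cast z) = lat i p := by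
  unfold lat
  congr 1
  funext l
  by_cases h : l = i
  · simp [h]
  · simp only [h, if_false]
    have : (p + cast z) l - 1 / 2 = (p l - 1 / 2) + (z l : ℝ) := by
      simp [cast]; ring
    rw [this, nd_add_int]

theorem bump_nonneg (i : ι) (q : (ι → ℝ) × ℝ) : 0 ≤ D.bump i q := le_max_left _ _

theorem bump_le (i : ι) (q : (ι → ℝ) × ℝ) : D.bump i q ≤ 1 / 64 := by
  unfold bump
  refine max_le (by norm_num) ?_
  have h1 : 0 ≤ max (lat i q.1) (D.nds q.2) := le_max_of_le_left (lat_nonneg _ _)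
  have h2 := nd_nonneg (q.1 i)
  linarith

/-- Lipschitz estimate for the bump, with separate lateral and normal displacement -/
theorem abs_bump_sub_le (i : ι) (q q' : (ι → ℝ) × ℝ) (r : ℝ) (hr : 0 ≤ r)
    (h : ∀ l, l ≠ i → |q.1 l - q'.1 l| ≤ r) (hs : |q.2 - q'.2| ≤ r) :
    |D.bump i q - D.bump i q'| ≤ 1 / 4 * r + 1 / 2 * |q.1 i - q'.1 i| := by
  unfold bump
  have h1 := abs_lat_sub_le' i q.1 q'.1 r hr h
  have h2 := (D.abs_nds_sub_le q.2 q'.2).trans hs
  have h3 := abs_nd_sub_le (q.1 i) (q'.1 i)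
  have h4 : |max (lat i q.1) (D.nds q.2) - max (lat i q'.1) (D.nds q'.2)| ≤ r :=
    (abs_max_sub_max_le_max _ _ _ _).trans (max_le h1 h2)
  have h5 := abs_max_sub_max_le_abs (1 / 64 - 1 / 4 * max (lat i q.1) (D.nds q.2)
      - 1 / 2 * nd (q.1 i)) (1 / 64 - 1 / 4 * max (lat i q'.1) (D.nds q'.2)
      - 1 / 2 * nd (q'.1 i)) 0
  rw [max_comm, max_comm _ (0 : ℝ)] at h5
  refine h5.trans ?_
  rw [abs_le] at h4 h3 ⊢
  constructor <;> linarith [h4.1, h4.2, h3.1, h3.2]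

theorem abs_bump_sub_le_norm (i : ι) (q q' : (ι → ℝ) × ℝ) :
    |D.bump i q - D.bump i q'| ≤ 3 / 4 * ‖q - q'‖ := by
  have hl : ∀ l, |q.1 l - q'.1 l| ≤ ‖q - q'‖ := by
    intro l
    have h1 : |q.1 l - q'.1 l| ≤ ‖(q - q').1‖ := by
      have := norm_le_pi_norm (q - q').1 l
      simpa [Real.norm_eq_abs] using this
    exact h1.trans (norm_fst_le _)
  have hs : |q.2 - q'.2| ≤ ‖q - q'‖ := by
    have := norm_snd_le (q - q')
    simpa [Real.norm_eq_abs] using this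
  have := D.abs_bump_sub_le i q q' ‖q - q'‖ (norm_nonneg _) (fun l _ => hl l) hs
  linarith [hl i]

theorem key_sub_key (q q' : (ι → ℝ) × ℝ) :
    ‖D.key q - D.key q' - (q - q')‖ ≤ 3 / 4 * ‖q - q'‖ := by
  rw [Prod.norm_def]
  refine max_le ?_ ?_
  · rw [pi_norm_le_iff_of_nonneg (by positivity)]
    intro l
    have : (D.key q - D.key q' - (q - q')).1 l = -(D.bump l q - D.bump l q') := by
      simp [key]; ring
    rw [this, norm_neg, Real.norm_eq_abs]
    exact D.abs_bump_sub_le_norm l q q'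
  · have : (D.key q - D.key q' - (q - q')).2 = 0 := by simp [key]
    rw [this, norm_zero]
    positivity

/-- the key map is a homeomorphism -/
theorem exists_keyHomeo : ∃ h : ((ι → ℝ) × ℝ) ≃ₜ ((ι → ℝ) × ℝ), ∀ q, h q = D.key q := by
  have hf : ApproximatesLinearOn D.key
      ((ContinuousLinearEquiv.refl ℝ ((ι → ℝ) × ℝ) : ((ι → ℝ) × ℝ) ≃L[ℝ] ((ι → ℝ) × ℝ)) :
        ((ι → ℝ) × ℝ) →L[ℝ] ((ι → ℝ) × ℝ)) univ (3 / 4 : NNReal) := by
    intro x _ y _
    have := D.key_sub_key x y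
    simpa using this
  have hc : Subsingleton ((ι → ℝ) × ℝ) ∨ (3 / 4 : NNReal) <
      ‖(((ContinuousLinearEquiv.refl ℝ ((ι → ℝ) × ℝ)).symm : ((ι → ℝ) × ℝ) ≃L[ℝ] ((ι → ℝ) × ℝ)) :
        ((ι → ℝ) × ℝ) →L[ℝ] ((ι → ℝ) × ℝ))‖₊⁻¹ := by
    right
    have h1 : ‖(((ContinuousLinearEquiv.refl ℝ ((ι → ℝ) × ℝ)).symm :
        ((ι → ℝ) × ℝ) ≃L[ℝ] ((ι → ℝ) × ℝ)) : ((ι → ℝ) × ℝ) →L[ℝ] ((ι → ℝ) × ℝ))‖₊ = 1 := by
      have : (((ContinuousLinearEquiv.refl ℝ ((ι → ℝ) × ℝ)).symm :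
        ((ι → ℝ) × ℝ) ≃L[ℝ] ((ι → ℝ) × ℝ)) : ((ι → ℝ) × ℝ) →L[ℝ] ((ι → ℝ) × ℝ)) =
          ContinuousLinearMap.id ℝ ((ι → ℝ) × ℝ) := rfl
      rw [this]
      exact ContinuousLinearMap.nnnorm_id
    rw [h1, inv_one]
    rw [← NNReal.coe_lt_coe]
    norm_num
  exact ⟨hf.toHomeomorph D.key hc, fun q => rfl⟩

theorem key_add (q : (ι → ℝ) × ℝ) (z : ι → ℤ) (k : ℤ) :
    D.key (q + (cast z, (2 * D.J * k : ℝ))) = D.key q + (cast z, (2 * D.J * k : ℝ)) := by
  have hb : ∀ i, D.bump i (q + (cast z, (2 * D.J * k : ℝ))) = D.bump i q := by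
    intro i
    unfold bump
    simp only [Prod.fst_add, Prod.snd_add, lat_add_int, nds_add_int]
    have : nd ((q.1 + cast z) i) = nd (q.1 i) := by
      simp only [Pi.add_apply, cast]
      exact nd_add_int _ _
    rw [this]
  unfold key
  simp only [hb]
  ext i
  · simp; ring
  · simp

instance instHaarProd : (volume : Measure ((ι → ℝ) × ℝ)).IsAddHaarMeasure :=
  inferInstanceAs (((volume : Measure (ι → ℝ)).prod (volume : Measure ℝ)).IsAddHaarMeasure)

theorem key_null {A : Set ((ι → ℝ) × ℝ)} (hA : volume A = 0) : volume (D.key '' A) = 0 := by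
  set d : ℕ := Module.finrank ℝ ((ι → ℝ) × ℝ) with hd
  have hac : (volume : Measure ((ι → ℝ) × ℝ)) ≪ (Measure.hausdorffMeasure (d : ℝ)) :=
    Measure.absolutelyContinuous_isAddHaarMeasure _ _
  have hac' : (Measure.hausdorffMeasure (d : ℝ)) ≪ (volume : Measure ((ι → ℝ) × ℝ)) :=
    Measure.absolutelyContinuous_isAddHaarMeasure _ _
  have hlip : LipschitzWith (7 / 4) D.key := by
    refine LipschitzWith.of_dist_le_mul ?_
    intro x y
    rw [dist_eq_norm, dist_eq_norm]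
    have h := D.key_sub_key x y
    have e : D.key x - D.key y = (D.key x - D.key y - (x - y)) + (x - y) := by abel
    have : ‖D.key x - D.key y‖ ≤ 3 / 4 * ‖x - y‖ + ‖x - y‖ := by
      calc ‖D.key x - D.key y‖ = ‖(D.key x - D.key y - (x - y)) + (x - y)‖ := by rw [← e]
        _ ≤ _ := (norm_add_le _ _).trans (by linarith)
    have e2 : ((7 / 4 : NNReal) : ℝ) = 7 / 4 := by norm_num
    rw [e2]
    linarith
  apply hac
  have h0 : Measure.hausdorffMeasure (d : ℝ) A = 0 := hac' hA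
  have := hlip.hausdorffMeasure_image_le (d := (d : ℝ)) (by positivity) A
  rw [h0, mul_zero] at this
  exact le_antisymm this zero_le

end GeoData

end Pool.Agent.BallTile
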