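import Pool.Agent.Lib.MP_0960bd_co.Pieces
import Pool.Agent.Lib.MP_0960bd_co.Key

/-!
# MP_0960bd_co : the tile is a topological ball (helper94)
-/

set_option autoImplicit false
set_option linter.unusedSectionVars false
set_option linter.unusedSimpArgs false

namespace Pool.Agent.BallTile

open Set Metric

variable {ι : Type} [Fintype ι] [DecidableEq ι]

/-- index of a piece -/
inductive Piece
  | cell (b i : ℕ)
  | tube (b i : ℕ)

/-- block of a piece -/
def Piece.blk : Piece → ℕ
  | .cell b _ => b
  | .tube b _ => b

/-- index of a piece inside its block -/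
def Piece.idx : Piece → ℕ
  | .cell _ i => i
  | .tube _ i => i

namespace GeoData

variable (D : GeoData ι)

/-- the set of a piece -/
def pset : Piece → Set ((ι → ℝ) × ℝ)
  | .cell b i => D.cell b i
  | .tube b i => D.tube b i

/-- union of a family of pieces -/
def un (S : Set Piece) : Set ((ι → ℝ) × ℝ) := ⋃ p ∈ S, D.pset p

theorem isClosed_pset (p : Piece) : IsClosed (D.pset p) := by
  cases p with
  | cell b i => exact (D.isCompact_cellBase b i).isClosed.prod isClosed_Icc
  | tube b i => exact (D.isCompact_tubeBase b i).isClosed.prod isClosed_Icc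

/-- finite families of pieces whose union is a ball -/
def Good (S : Set Piece) : Prop :=
  S.Finite ∧ Nonempty (↥(D.un S) ≃ₜ ↥(closedBall (0 : (ι → ℝ) × ℝ) 1))

theorem un_insert (q : Piece) (S : Set Piece) : D.un (insert q S) = D.un S ∪ D.pset q := by
  unfold un
  rw [biUnion_insert, union_comm]

theorem Good.step {S : Set Piece} (hS : D.Good S) {p q : Piece} (hp : p ∈ S)
    (hpq : Att (D.pset p) (D.pset q))
    (hd : ∀ p' ∈ S, (D.pset p' ∩ D.pset q).Nonempty → p' = p) : D.Good (insert q S) := by
  obtain ⟨hf, ⟨h⟩⟩ := hS
  refine ⟨hf.insert q, ?_⟩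
  rw [un_insert]
  have hcl : IsClosed (D.un S) := hf.isClosed_biUnion (fun p _ => D.isClosed_pset p)
  obtain ⟨h'⟩ := hpq (D.un S) hcl (subset_biUnion_of_mem hp) (by
    rintro x ⟨hx, hxq⟩
    simp only [un, mem_iUnion] at hx
    obtain ⟨p', hp', hxp⟩ := hx
    have := hd p' hp' ⟨x, hxp, hxq⟩
    rwa [this] at hxp)
  exact ⟨h'.trans h⟩

/-- all pieces of the blocks `< b` -/
def Before (b : ℕ) : Set Piece := {p | p.blk < b ∧ p.idx ≤ D.n}

theorem good_base : D.Good {Piece.tube 0 D.n} := by
  refine ⟨finite_singleton _, ?_⟩
  have e : D.un {Piece.tube 0 D.n} = D.tubeBase 0 D.n ×ˢ Icc (1 : ℝ) 2 := by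
    simp [un, pset, tube]
  rw [e]
  set H := (D.shr 0 (D.du D.n)).prodCongr (Homeomorph.refl ℝ) with hH
  have img : H '' (D.tubeBase 0 D.n ×ˢ Icc (1 : ℝ) 2) =
      (D.shr 0 (D.du D.n) '' D.tubeBase 0 D.n) ×ˢ Icc (1 : ℝ) 2 := by
    ext ⟨x, s⟩
    constructor
    · rintro ⟨⟨y, r⟩, ⟨hy, hr⟩, hyr⟩
      have h3 : D.shr 0 (D.du D.n) y = x ∧ r = s := by simpa [hH] using hyr
      exact ⟨⟨y, hy, h3.1⟩, h3.2 ▸ hr⟩
    · rintro ⟨⟨y, hy, hyx⟩, hs⟩
      exact ⟨(y, s), ⟨hy, hs⟩, by simpa [hH] using hyx⟩
  refine ball_of_convex H ?_ ((D.isCompact_tubeBase 0 D.n).prod isCompact_Icc) ?_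
  · rw [img]
    exact (D.convex_shear_tubeBase 0 D.n).prod (convex_Icc _ _)
  · rw [interior_prod_eq, interior_Icc]
    have h1 := (D.interior_contact (b := 0) (k := 0) (by omega)).mono
      (interior_mono inter_subset_left)
    exact h1.prod ⟨3 / 2, by norm_num, by norm_num⟩

theorem pset_cell (b i : ℕ) : D.pset (Piece.cell b i) = D.cell b i := rfl

theorem pset_tube (b i : ℕ) : D.pset (Piece.tube b i) = D.tube b i := rfl

/-- filling a block once the special tube and the last cell are there -/
theorem good_fill {b : ℕ} {S : Set Piece} (hS : D.Good S)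
    (hB : ∀ p ∈ S, (p.blk < b ∧ p.idx ≤ D.n) ∨ p = Piece.cell b D.n ∨ p = Piece.tube b D.n)
    (h1 : Piece.cell b D.n ∈ S) (h2 : Piece.tube b D.n ∈ S) :
    D.Good (S ∪ {p | p.blk = b ∧ p.idx < D.n}) := by
  -- cells
  have stepA : ∀ m ≤ D.n, D.Good (S ∪ {p | ∃ i < m, p = Piece.cell b i}) := by
    intro m
    induction m with
    | zero => intro _; simpa using hS
    | succ m ih =>
      intro hm
      have h := ih (by omega)
      have e : S ∪ {p | ∃ i < m + 1, p = Piece.cell b i} =
          insert (Piece.cell b m) (S ∪ {p | ∃ i < m, p = Piece.cell b i}) := by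
        ext p
        simp only [mem_union, mem_ofPred_eq, mem_insert_iff]
        constructor
        · rintro (h3 | ⟨i, hi, rfl⟩)
          · exact Or.inr (Or.inl h3)
          · rcases Nat.lt_or_ge i m with h4 | h4
            · exact Or.inr (Or.inr ⟨i, h4, rfl⟩)
            · have : i = m := by omega
              subst this; exact Or.inl rfl
        · rintro (rfl | h3 | ⟨i, hi, rfl⟩)
          · exact Or.inr ⟨m, by omega, rfl⟩
          · exact Or.inl h3
          · exact Or.inr ⟨i, by omega, rfl⟩
      rw [e]
      refine Good.step D h (p := Piece.tube b D.n) (Or.inl h2)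
        (D.att_cell_below (b := b) (i := m) (by omega)) ?_
      intro p' hp' hne
      rcases hp' with hp' | ⟨i, hi, rfl⟩
      · rcases hB p' hp' with ⟨h3, h4⟩ | rfl | rfl
        · cases p' with
          | cell b' i =>
            have := D.cell_cell h4 (by omega) hne
            simp only [Piece.blk] at h3
            omega
          | tube b' i =>
            rw [inter_comm] at hne
            have := D.cell_tube (by omega) h4 hne
            simp only [Piece.blk] at h3
            omega
        · have := D.cell_cell le_rfl (by omega) hne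
          omega
        · rfl
      · have := D.cell_cell (by omega) (by omega) hne
        omega
  have stepB : ∀ m ≤ D.n, D.Good ((S ∪ {p | ∃ i < D.n, p = Piece.cell b i}) ∪
      {p | ∃ i < m, p = Piece.tube b i}) := by
    intro m
    induction m with
    | zero => intro _; simpa using stepA D.n le_rfl
    | succ m ih =>
      intro hm
      have h := ih (by omega)
      have e : (S ∪ {p | ∃ i < D.n, p = Piece.cell b i}) ∪ {p | ∃ i < m + 1, p = Piece.tube b i} =
          insert (Piece.tube b m) ((S ∪ {p | ∃ i < D.n, p = Piece.cell b i}) ∪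
            {p | ∃ i < m, p = Piece.tube b i}) := by
        ext p
        simp only [mem_union, mem_ofPred_eq, mem_insert_iff]
        constructor
        · rintro (h3 | ⟨i, hi, rfl⟩)
          · exact Or.inr (Or.inl h3)
          · rcases Nat.lt_or_ge i m with h4 | h4
            · exact Or.inr (Or.inr ⟨i, h4, rfl⟩)
            · have : i = m := by omega
              subst this; exact Or.inl rfl
        · rintro (rfl | h3 | ⟨i, hi, rfl⟩)
          · exact Or.inr ⟨m, by omega, rfl⟩
          · exact Or.inl h3
          · exact Or.inr ⟨i, by omega, rfl⟩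
      rw [e]
      refine Good.step D h (p := Piece.cell b m) (Or.inl (Or.inr ⟨m, by omega, rfl⟩))
        (D.att_tube (b := b) (i := m) (by omega)) ?_
      intro p' hp' hne
      rcases hp' with (hp' | ⟨i, hi, rfl⟩) | ⟨i, hi, rfl⟩
      · rcases hB p' hp' with ⟨h3, h4⟩ | rfl | rfl
        · cases p' with
          | cell b' i =>
            have := D.cell_tube h4 (by omega) hne
            simp only [Piece.blk] at h3
            omega
          | tube b' i =>
            have := D.tube_tube h4 (by omega) hne
            simp only [Piece.blk] at h3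
            omega
        · have := D.cell_tube le_rfl (by omega) hne
          omega
        · have := D.tube_tube le_rfl (by omega) hne
          omega
      · have := D.cell_tube (by omega) (by omega) hne
        have : i = m := by omega
        subst this
        rfl
      · have := D.tube_tube (by omega) (by omega) hne
        omega
  have h := stepB D.n le_rfl
  have e : (S ∪ {p | ∃ i < D.n, p = Piece.cell b i}) ∪ {p | ∃ i < D.n, p = Piece.tube b i} =
      S ∪ {p | p.blk = b ∧ p.idx < D.n} := by
    ext p
    simp only [mem_union, mem_ofPred_eq]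
    constructor
    · rintro ((h3 | ⟨i, hi, rfl⟩) | ⟨i, hi, rfl⟩)
      · exact Or.inl h3
      · exact Or.inr ⟨rfl, hi⟩
      · exact Or.inr ⟨rfl, hi⟩
    · rintro (h3 | ⟨h3, h4⟩)
      · exact Or.inl (Or.inl h3)
      · cases p with
        | cell b' i =>
          simp only [Piece.blk, Piece.idx] at h3 h4
          subst h3
          exact Or.inl (Or.inr ⟨i, h4, rfl⟩)
        | tube b' i =>
          simp only [Piece.blk, Piece.idx] at h3 h4
          subst h3
          exact Or.inr ⟨i, h4, rfl⟩
  rwa [e] at h

theorem good_before (b : ℕ) : D.Good (D.Before (b + 1)) := by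
  induction b with
  | zero =>
    have h1 : D.Good (insert (Piece.cell 0 D.n) {Piece.tube 0 D.n}) := by
      refine Good.step D D.good_base (p := Piece.tube 0 D.n) rfl
        (D.att_cell_below (b := 0) (i := D.n) le_rfl) ?_
      intro p' hp' _
      exact hp'
    have h2 := D.good_fill (b := 0) h1 (by
      rintro p (rfl | hp)
      · exact Or.inr (Or.inl rfl)
      · exact Or.inr (Or.inr hp)) (Or.inl rfl) (Or.inr rfl)
    convert h2 using 1
    ext p
    simp only [Before, mem_ofPred_eq, mem_union, mem_insert_iff, mem_singleton_iff]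
    cases p with
    | cell b i =>
      simp only [Piece.blk, Piece.idx, Piece.cell.injEq]
      simp only [reduceCtorEq, or_false, false_or]
      constructor <;> intro h <;> omega
    | tube b i =>
      simp only [Piece.blk, Piece.idx, Piece.tube.injEq]
      simp only [reduceCtorEq, or_false, false_or]
      constructor <;> intro h <;> omega
  | succ b ih =>
    have h1 : D.Good (insert (Piece.cell (b + 1) D.n) (D.Before (b + 1))) := by
      refine Good.step D ih (p := Piece.tube b D.n) ⟨by simp [Piece.blk], le_rfl⟩
        (D.att_cell_above b) ?_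
      rintro p' ⟨h3, h4⟩ hne
      cases p' with
      | cell b' i =>
        have := D.cell_cell h4 le_rfl hne
        simp only [Piece.blk] at h3
        omega
      | tube b' i =>
        rw [inter_comm] at hne
        have h5 : i ≤ D.n := h4
        have := D.cell_tube le_rfl h5 hne
        simp only [Piece.blk] at h3
        have e1 : b' = b := by omega
        have e2 : i = D.n := by omega
        rw [e1, e2]
    have h2 : D.Good (insert (Piece.tube (b + 1) D.n)
        (insert (Piece.cell (b + 1) D.n) (D.Before (b + 1)))) := by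
      refine Good.step D h1 (p := Piece.cell (b + 1) D.n) (Or.inl rfl)
        (D.att_tube (b := b + 1) (i := D.n) le_rfl) ?_
      rintro p' (rfl | ⟨h3, h4⟩) hne
      · rfl
      · cases p' with
        | cell b' i =>
          have := D.cell_tube h4 le_rfl hne
          simp only [Piece.blk] at h3
          omega
        | tube b' i =>
          have := D.tube_tube h4 le_rfl hne
          simp only [Piece.blk] at h3
          omega
    have h3 := D.good_fill (b := b + 1) h2 (by
      rintro p (rfl | rfl | hp)
      · exact Or.inr (Or.inr rfl)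
      · exact Or.inr (Or.inl rfl)
      · exact Or.inl hp) (Or.inr (Or.inl rfl)) (Or.inl rfl)
    convert h3 using 1
    ext p
    simp only [Before, mem_ofPred_eq, mem_union, mem_insert_iff]
    cases p with
    | cell b i =>
      simp only [Piece.blk, Piece.idx, Piece.cell.injEq]
      simp only [reduceCtorEq, or_false, false_or]
      constructor <;> intro h <;> omega
    | tube b i =>
      simp only [Piece.blk, Piece.idx, Piece.tube.injEq]
      simp only [reduceCtorEq, or_false, false_or]
      constructor <;> intro h <;> omega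

theorem body_un : D.body = D.un (D.Before D.J) := by
  ext q
  simp only [body, un, Before, mem_ofPred_eq, mem_iUnion, exists_prop]
  constructor
  · rintro ⟨b, i, hb, hi, h | h⟩
    · exact ⟨Piece.cell b i, ⟨hb, hi⟩, h⟩
    · exact ⟨Piece.tube b i, ⟨hb, hi⟩, h⟩
  · rintro ⟨p, ⟨hb, hi⟩, h⟩
    cases p with
    | cell b i => exact ⟨b, i, hb, hi, Or.inl h⟩
    | tube b i => exact ⟨b, i, hb, hi, Or.inr h⟩

theorem body_ball : Nonempty (↥D.body ≃ₜ ↥(closedBall (0 : (ι → ℝ) × ℝ) 1)) := by
  rw [body_un]
  obtain ⟨k, hk⟩ : ∃ k, D.J = k + 1 := ⟨D.J - 1, by have := D.hJ; omega⟩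
  rw [hk]
  exact (D.good_before k).2

/-- The tile is a topological ball. -/
theorem tile_ball : Nonempty (↥D.tile ≃ₜ ↥(closedBall (0 : (ι → ℝ) × ℝ) 1)) := by
  obtain ⟨h, hh⟩ := D.exists_keyHomeo
  obtain ⟨e⟩ := D.body_ball
  have : D.tile = h '' D.body := by
    unfold tile
    congr 1
    funext q
    exact (hh q).symm
  rw [this]
  exact ⟨(h.image D.body).symm.trans e⟩

end GeoData

end Pool.Agent.BallTile
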