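import Pool.Agent.Lib.MP_0960bd_co.Exist
import Pool.Agent.Lib.MP_0960bd_co.Ball

/-!
# MP_0960bd_co : from the discrete theorem to the geometric data, and back (helper94)
-/

set_option autoImplicit false
set_option linter.unusedSectionVars false

noncomputable section

namespace Pool.Agent.BallTile

open Set MeasureTheory

theorem digits_unique (m : ℕ) (M : ℤ) (d : Fin m → ℤ) (hd : ∀ j, |d j| < M)
    (h : ∑ j : Fin m, M ^ (j : ℕ) * d j = 0) : d = 0 := by
  induction m with
  | zero => exact Subsingleton.elim _ _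
  | succ m ih =>
    rw [Fin.sum_univ_succ] at h
    have e1 : ∑ j : Fin m, M ^ ((j.succ : Fin (m + 1)) : ℕ) * d j.succ =
        M * ∑ j : Fin m, M ^ (j : ℕ) * d j.succ := by
      rw [Finset.mul_sum]
      refine Finset.sum_congr rfl fun j _ => ?_
      rw [Fin.val_succ, pow_succ]; ring
    rw [e1] at h
    simp only [Fin.val_zero, pow_zero, one_mul] at h
    have h0 : d 0 = 0 := by
      apply Int.eq_zero_of_abs_lt_dvd (m := M) _ (hd 0)
      exact ⟨-∑ j : Fin m, M ^ (j : ℕ) * d j.succ, by linarith⟩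
    have hM : 0 < M := lt_of_le_of_lt (abs_nonneg _) (hd 0)
    have h1 : ∑ j : Fin m, M ^ (j : ℕ) * d j.succ = 0 := by
      rw [h0, zero_add] at h
      exact (mul_eq_zero.1 h).resolve_left hM.ne'
    have h2 := ih (fun j => d j.succ) (fun j => hd _) h1
    funext j
    refine Fin.cases h0 (fun j => ?_) j
    exact congrFun h2 j

/-- a linear form `ℤ^m → ℤ` -/
def Lf (m : ℕ) (M : ℤ) (x : Fin m → ℤ) : ℤ := 2 * ∑ j : Fin m, M ^ (j : ℕ) * x j

theorem Lf_add (m : ℕ) (M : ℤ) (x y : Fin m → ℤ) : Lf m M (x + y) = Lf m M x + Lf m M y := by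
  simp only [Lf, Pi.add_apply, mul_add, Finset.sum_add_distrib]

theorem Lf_sub (m : ℕ) (M : ℤ) (x y : Fin m → ℤ) : Lf m M (x - y) = Lf m M x - Lf m M y := by
  simp only [Lf, Pi.sub_apply, mul_sub, Finset.sum_sub_distrib]

theorem Lf_single (m : ℕ) (M : ℤ) (j : Fin m) (N : ℤ) :
    Lf m M (Pi.single j N) = Lf m M (Pi.single j 1) * N := by
  simp only [Lf, Pi.single_apply, mul_ite, mul_zero, Finset.sum_ite_eq', Finset.mem_univ, if_true]
  ring

theorem Lf_inj {m : ℕ} {R : ℤ} {x y : Fin m → ℤ} (hx : ∀ j, |x j| ≤ R) (hy : ∀ j, |y j| ≤ R)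
    (h : Lf m (2 * R + 1) x = Lf m (2 * R + 1) y) : x = y := by
  have h1 : Lf m (2 * R + 1) (x - y) = 0 := by rw [Lf_sub, h, sub_self]
  unfold Lf at h1
  have h2 : ∑ j : Fin m, (2 * R + 1) ^ (j : ℕ) * (x - y) j = 0 := by linarith
  have h3 := digits_unique m (2 * R + 1) (x - y) (fun j => by
    have := abs_sub (x j) (y j)
    have h4 := hx j
    have h5 := hy j
    simp only [Pi.sub_apply]
    linarith) h2
  exact sub_eq_zero.1 h3

variable {m J n : ℕ}

/-- lift of an integer vector to the index set `Fin m ⊕ Bool` -/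
def lift (z : Fin m → ℤ) (c : ℤ) : Fin m ⊕ Bool → ℤ :=
  Sum.elim z (fun b => if b then c else 0)

theorem exists_bound (X : Fin J → Fin (n + 1) → (Fin m → ℤ)) :
    ∃ R : ℤ, 0 ≤ R ∧ ∀ b i j, |X b i j| ≤ R := by
  refine ⟨∑ b, ∑ i, ∑ j, |X b i j|, by positivity, fun b i j => ?_⟩
  calc |X b i j| ≤ ∑ j, |X b i j| :=
        Finset.single_le_sum (f := fun j => |X b i j|) (fun _ _ => abs_nonneg _) (Finset.mem_univ j)
    _ ≤ ∑ i, ∑ j, |X b i j| :=
        Finset.single_le_sum (f := fun i => ∑ j, |X b i j|)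
          (fun _ _ => Finset.sum_nonneg fun _ _ => abs_nonneg _) (Finset.mem_univ i)
    _ ≤ _ := Finset.single_le_sum (f := fun b => ∑ i, ∑ j, |X b i j|)
          (fun _ _ => Finset.sum_nonneg fun _ _ => Finset.sum_nonneg fun _ _ => abs_nonneg _)
          (Finset.mem_univ b)

theorem exists_bound' (f : Fin J → Fin (n + 1) → ℤ) :
    ∃ R : ℤ, 0 ≤ R ∧ ∀ b i, |f b i| ≤ R := by
  obtain ⟨R, h0, h⟩ := exists_bound (m := 1) (fun b i _ => f b i)
  exact ⟨R, h0, fun b i => h b i 0⟩

/-- The geometric data built from a family of blocks. -/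
theorem exists_data (hJ : 0 < J) (X : Fin J → Fin (n + 1) → (Fin m → ℤ))
    (hX : ∀ b, Function.Injective (X b)) :
    ∃ (D : GeoData (Fin m ⊕ Bool)) (L : (Fin m → ℤ) → ℤ) (C : ℤ)
      (σ : Fin J → Equiv.Perm (Fin (n + 1))),
      D.J = J ∧ ∃ hn : D.n = n, D.u = Sum.inr false ∧
      (∀ x y, L (x - y) = L x - L y) ∧ (∀ j N, L (Pi.single j N) = L (Pi.single j 1) * N) ∧
      ∀ (b : Fin J) (i : Fin (n + 1)),
        D.x b i = lift (X b (σ b i)) (L (X b (σ b i)) - b * C) := by
  obtain ⟨R, hR0, hR⟩ := exists_bound X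
  set L : (Fin m → ℤ) → ℤ := Lf m (2 * R + 1) with hL
  obtain ⟨S, hS0, hS⟩ := exists_bound' (fun b i => L (X b i))
  set C : ℤ := 2 * S + 2 with hC
  set σ : Fin J → Equiv.Perm (Fin (n + 1)) := fun b => Tuple.sort (fun i => L (X b i)) with hσ
  have mono : ∀ b, Monotone (fun i => L (X b (σ b i))) := fun b => Tuple.monotone_sort (fun i => L (X b i))
  have gap : ∀ b (i j : Fin (n + 1)), i < j → L (X b (σ b i)) + 2 ≤ L (X b (σ b j)) := by
    intro b i j hij
    have h1 := mono b hij.le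
    simp only at h1
    have h2 : L (X b (σ b i)) ≠ L (X b (σ b j)) := by
      intro h
      have := (σ b).injective (hX b (Lf_inj (hR b _) (hR b _) h))
      exact hij.ne this
    have h3 : Even (L (X b (σ b i))) := by rw [hL]; unfold Lf; exact even_two_mul _
    have h4 : Even (L (X b (σ b j))) := by rw [hL]; unfold Lf; exact even_two_mul _
    obtain ⟨a, ha⟩ := h3
    obtain ⟨c, hc⟩ := h4
    omega
  let bb : ℕ → Fin J := fun b => ⟨b % J, Nat.mod_lt _ hJ⟩
  let ii : ℕ → Fin (n + 1) := fun i => ⟨i % (n + 1), Nat.mod_lt _ (Nat.succ_pos _)⟩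
  have iiv : ∀ i, i ≤ n → ((ii i : Fin (n + 1)) : ℕ) = i := fun i hi =>
    Nat.mod_eq_of_lt (by omega)
  let D : GeoData (Fin m ⊕ Bool) :=
    { u := Sum.inr false
      t := Sum.inr true
      hut := by simp
      n := n
      J := J
      hJ := hJ
      x := fun b i => lift (X (bb b) (σ (bb b) (ii i)))
        (L (X (bb b) (σ (bb b) (ii i))) - b * C)
      hu := by intro b i; simp [lift]
      ht := by
        intro b i hi
        simp only [lift, Sum.elim_inr, if_true]
        have := gap (bb b) (ii i) (ii (i + 1)) (by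
          rw [Fin.lt_def, iiv i (by omega), iiv (i + 1) (by omega)]; omega)
        linarith
      ht' := by
        intro b
        simp only [lift, Sum.elim_inr, if_true]
        have h1 := hS (bb (b + 1)) (σ (bb (b + 1)) (ii n))
        have h2 := hS (bb b) (σ (bb b) (ii 0))
        rw [abs_le] at h1 h2
        push_cast
        rw [add_mul, one_mul]
        linarith [h1.2, h2.1] }
  refine ⟨D, L, C, σ, rfl, rfl, rfl, fun x y => Lf_sub _ _ _ _, fun j N => Lf_single _ _ _ _, ?_⟩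
  intro b i
  have e1 : bb b = b := Fin.ext (Nat.mod_eq_of_lt b.2)
  have e2 : ii i = i := Fin.ext (iiv i (by omega))
  change lift (X (bb b) (σ (bb b) (ii i))) (L (X (bb b) (σ (bb b) (ii i))) - (b : ℕ) * C) = _
  rw [e1, e2]

theorem injective_of_tiles {T : Set (Fin m → ℤ)} {Y : Fin n → (Fin m → ℤ)} (h : Tiles T Y) :
    Function.Injective Y := by
  intro i j hij
  obtain ⟨⟨t, k⟩, ⟨ht, -⟩, -⟩ := h 0
  obtain ⟨q, -, hq⟩ := h (t + Y i)
  have h1 := hq (t, i) ⟨ht, rfl⟩
  have h2 := hq (t, j) ⟨ht, by rw [hij]⟩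
  rw [← h2] at h1
  exact (Prod.mk.inj h1).2

/-- lifting a common complement -/
theorem lift_tiles {D : GeoData (Fin m ⊕ Bool)} {X : Fin J → Fin (n + 1) → (Fin m → ℤ)}
    {c : Fin J → Fin (n + 1) → ℤ} {σ : Fin J → Equiv.Perm (Fin (n + 1))} (hJ : D.J = J)
    (hn : D.n = n)
    (hx : ∀ (b : Fin J) (i : Fin (n + 1)), D.x b i = lift (X b (σ b i)) (c b i))
    {T : Set (Fin m → ℤ)} (hT : ∀ b, Tiles T (X b)) :
    ∀ b < D.J, ∀ z : Fin m ⊕ Bool → ℤ, ∃! q : (Fin m ⊕ Bool → ℤ) × Fin (D.n + 1),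
      q.1 ∈ {z : Fin m ⊕ Bool → ℤ | (fun j => z (Sum.inl j)) ∈ T} ∧ q.1 + D.x b q.2 = z := by
  subst hn
  intro b hb z
  rw [hJ] at hb
  obtain ⟨⟨t, i⟩, ⟨h1, h2⟩, h3⟩ := hT ⟨b, hb⟩ (fun j => z (Sum.inl j))
  simp only at h1 h2 h3
  set i' := (σ ⟨b, hb⟩).symm i with hi'
  have hxb : ∀ i : Fin (D.n + 1), D.x b i = lift (X ⟨b, hb⟩ (σ ⟨b, hb⟩ i)) (c ⟨b, hb⟩ i) :=
    fun i => hx ⟨b, hb⟩ i
  refine ⟨(z - D.x b i', i'), ⟨?_, sub_add_cancel _ _⟩, ?_⟩
  · simp only [mem_ofPred_eq]
    have : (fun j => (z - D.x b i') (Sum.inl j)) = t := by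
      funext j
      have := congrFun h2 j
      simp only [Pi.sub_apply, hxb, lift, Sum.elim_inl, hi', Equiv.apply_symm_apply,
        Pi.add_apply] at this ⊢
      linarith
    rw [this]; exact h1
  · rintro ⟨w, k⟩ ⟨hw, hwz⟩
    simp only [mem_ofPred_eq] at hw hwz
    have := h3 (fun j => w (Sum.inl j), σ ⟨b, hb⟩ k) ⟨hw, by
      funext j
      have := congrFun hwz (Sum.inl j)
      simp only [Pi.add_apply, hxb, lift, Sum.elim_inl] at this ⊢
      exact this⟩
    have hk : k = i' := by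
      rw [hi', Equiv.eq_symm_apply]
      exact (Prod.mk.inj this).2
    subst hk
    rw [← hwz]
    simp

/-- descending a common periodic complement -/
theorem unlift_tiles {D : GeoData (Fin m ⊕ Bool)} {X : Fin J → Fin (n + 1) → (Fin m → ℤ)}
    {L : (Fin m → ℤ) → ℤ} {C : ℤ} {σ : Fin J → Equiv.Perm (Fin (n + 1))} (hJ : D.J = J)
    (hn : D.n = n) (hL : ∀ x y, L (x - y) = L x - L y)
    (hL1 : ∀ j N, L (Pi.single j N) = L (Pi.single j 1) * N)
    (hx : ∀ (b : Fin J) (i : Fin (n + 1)),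
        D.x b i = lift (X b (σ b i)) (L (X b (σ b i)) - b * C))
    {T : Set (Fin m ⊕ Bool → ℤ)}
    (hT : ∀ b < D.J, ∀ z : Fin m ⊕ Bool → ℤ, ∃! q : (Fin m ⊕ Bool → ℤ) × Fin (D.n + 1),
      q.1 ∈ T ∧ q.1 + D.x b q.2 = z) {N : ℤ}
    (hN : ∀ i, ∀ t ∈ T, t + Pi.single i N ∈ T ∧ t - Pi.single i N ∈ T) :
    (∀ b, Tiles {z : Fin m → ℤ | lift z (L z) ∈ T} (X b)) ∧
      ∀ i, ∀ t ∈ {z : Fin m → ℤ | lift z (L z) ∈ T},
        t + Pi.single i N ∈ {z : Fin m → ℤ | lift z (L z) ∈ T} ∧
        t - Pi.single i N ∈ {z : Fin m → ℤ | lift z (L z) ∈ T} := by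
  subst hn
  constructor
  · intro b w
    obtain ⟨⟨τ, i⟩, ⟨h1, h2⟩, h3⟩ := hT b (by rw [hJ]; exact b.2) (lift w (L w - b * C))
    simp only at h1 h2 h3
    have key : ∀ i : Fin (D.n + 1), lift w (L w - b * C) - D.x b i =
        lift (w - X b (σ b i)) (L (w - X b (σ b i))) := by
      intro i
      rw [hx, hL]
      funext l
      rcases l with j | c
      · simp [lift]
      · cases c <;> simp [lift]
    refine ⟨(w - X b (σ b i), σ b i), ⟨?_, sub_add_cancel _ _⟩, ?_⟩
    · simp only [mem_ofPred_eq]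
      rw [← key, ← h2]
      simpa using h1
    · rintro ⟨z, k⟩ ⟨hz, hzw⟩
      simp only [mem_ofPred_eq] at hz hzw
      have hzw' : z = w - X b (σ b ((σ b).symm k)) := by
        rw [Equiv.apply_symm_apply, ← hzw, add_sub_cancel_right]
      have := h3 (lift z (L z), (σ b).symm k) ⟨hz, by
        rw [hzw', ← key, sub_add_cancel]⟩
      have hk : (σ b).symm k = i := (Prod.mk.inj this).2
      rw [Equiv.symm_apply_eq] at hk
      subst hk
      rw [← hzw]
      simp
  · have hadd : ∀ x y, L (x + y) = L x + L y := by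
      intro x y
      have h0 : L 0 = 0 := by simpa using hL 0 0
      have h1 := hL x (-y)
      have h2 := hL 0 y
      rw [sub_neg_eq_add] at h1
      rw [zero_sub, h0] at h2
      rw [h1, h2]; ring
    have hk : ∀ (k : ℤ) (t), t ∈ T → t + Pi.single (Sum.inr true) (k * N) ∈ T := by
      intro k
      induction k using Int.induction_on with
      | zero => intro t ht; simpa using ht
      | succ k ih =>
        intro t ht
        have := (hN (Sum.inr true) _ (ih t ht)).1
        rw [add_assoc, ← Pi.single_add] at this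
        rwa [add_mul, one_mul]
      | pred k ih =>
        intro t ht
        have := (hN (Sum.inr true) _ (ih t ht)).2
        rw [add_sub_assoc, ← Pi.single_sub] at this
        rwa [sub_mul, one_mul]
    intro i t ht
    simp only [mem_ofPred_eq] at ht ⊢
    constructor
    · have h1 := hk (L (Pi.single i 1)) _ (hN (Sum.inl i) _ ht).1
      convert h1 using 1
      rw [hadd, hL1 i N]
      funext l
      rcases l with j | c
      · by_cases h : i = j
        · subst h; simp [lift]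
        · simp [lift, Ne.symm h]
      · cases c <;> simp [lift]
    · have h1 := hk (-L (Pi.single i 1)) _ (hN (Sum.inl i) _ ht).2
      convert h1 using 1
      rw [hL, hL1 i N]
      funext l
      rcases l with j | c
      · by_cases h : i = j
        · subst h; simp [lift]
        · simp [lift, Ne.symm h]
      · cases c <;> simp [lift]; ring

end Pool.Agent.BallTile
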