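import Pool.Agent.Lib.MP_0960bd_co.Axis

/-!
# MP_0960bd_co : contact sets between cells and tubes (helper94)
-/

set_option autoImplicit false
set_option linter.unusedSectionVars false

namespace Pool.Agent.BallTile

open Set

variable {ι : Type} [Fintype ι] [DecidableEq ι]

/-- unit cube with lower corner `m` -/
def box (m : ι → ℝ) : Set (ι → ℝ) := {p | ∀ l, p l - m l ∈ Icc (0 : ℝ) 1}

omit [Fintype ι] [DecidableEq ι] in
theorem box_eq (m : ι → ℝ) : box m = Icc m (m + 1) := by
  ext p
  simp only [box, mem_ofPred_eq, mem_Icc, Pi.le_def, Pi.add_apply, Pi.one_apply]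
  constructor
  · intro h
    exact ⟨fun l => by linarith [(h l).1], fun l => by linarith [(h l).2]⟩
  · intro h l
    exact ⟨by linarith [h.1 l], by linarith [h.2 l]⟩

omit [DecidableEq ι] in
theorem isCompact_box (m : ι → ℝ) : IsCompact (box m) := by
  rw [box_eq]; exact isCompact_Icc

omit [Fintype ι] [DecidableEq ι] in
theorem convex_box (m : ι → ℝ) : Convex ℝ (box m) := by
  rw [box_eq]; exact convex_Icc _ _

omit [DecidableEq ι] in
theorem mem_interior_box {m p : ι → ℝ} (h : ∀ l, p l - m l ∈ Ioo (0 : ℝ) 1) :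
    p ∈ interior (box m) := by
  rw [mem_interior_iff_mem_nhds]
  have ho : IsOpen {q : ι → ℝ | ∀ l, q l - m l ∈ Ioo (0 : ℝ) 1} := by
    rw [ofPred_forall]
    apply isOpen_iInter_of_finite
    intro l
    exact isOpen_Ioo.preimage ((continuous_apply l).sub continuous_const)
  exact Filter.mem_of_superset (ho.mem_nhds h) (fun q hq l => Ioo_subset_Icc_self (hq l))

namespace GeoData

variable (D : GeoData ι)

/-- the shr straightening a tube -/
noncomputable def shr (b : ℕ) (a : ℝ) : (ι → ℝ) ≃ₜ (ι → ℝ) where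
  toFun p := p - D.axis b (D.zpar (p D.u - a))
  invFun p := p + D.axis b (D.zpar (p D.u - a))
  left_inv p := by simp [D.axisU]
  right_inv p := by simp [D.axisU]
  continuous_toFun := by
    have h1 := D.cont_axis b
    have h2 := D.cont_zpar
    fun_prop
  continuous_invFun := by
    have h1 := D.cont_axis b
    have h2 := D.cont_zpar
    fun_prop

omit [Fintype ι] [DecidableEq ι] in
theorem shear_apply (b : ℕ) (a : ℝ) (p : ι → ℝ) :
    D.shr b a p = p - D.axis b (D.zpar (p D.u - a)) := rfl

omit [Fintype ι] [DecidableEq ι] in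
theorem shear_symm_apply (b : ℕ) (a : ℝ) (p : ι → ℝ) :
    (D.shr b a).symm p = p + D.axis b (D.zpar (p D.u - a)) := rfl

omit [Fintype ι] in
theorem cellBase_box (b i : ℕ) : D.cellBase b i = box (cast (D.x b i)) := rfl

/-- the `u`-displacement of the tube `(b,i)` -/
noncomputable def du (i : ℕ) : ℝ := if i = D.n then 0 else -1

omit [Fintype ι] in
theorem disp_u (b i : ℕ) : cast (D.disp b i) D.u = D.du i := by
  by_cases h : i = D.n <;> simp [cast, disp, du, h, D.hu]

omit [Fintype ι] in
theorem disp_ne (b i : ℕ) {l : ι} (hl : l ≠ D.u) :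
    cast (D.disp b i) l = D.x b i l - D.x b D.n l := by
  by_cases h : i = D.n <;> simp [cast, disp, h, hl]

omit [Fintype ι] in
theorem mem_tubeBase {b i : ℕ} {p : ι → ℝ} : p ∈ D.tubeBase b i ↔
    p D.u - D.du i - D.rho ∈ Icc (0 : ℝ) 1 ∧ ∀ l, l ≠ D.u →
      p l - (D.x b i l - D.x b D.n l) - D.axis b (D.zpar (p D.u - D.du i)) l ∈ Icc (0 : ℝ) 1 := by
  simp only [tubeBase, tube0, mem_ofPred_eq, Pi.sub_apply, disp_u]
  constructor
  · intro h
    refine ⟨?_, ?_⟩
    · have := h D.u
      simpa [D.axisU, D.disp_u] using this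
    · intro l hl
      have := h l
      rw [if_neg hl, D.disp_ne b i hl, sub_zero] at this
      exact this
  · rintro ⟨h1, h2⟩ l
    by_cases hl : l = D.u
    · subst hl
      simpa [D.axisU, D.disp_u] using h1
    · have := h2 l hl
      rw [if_neg hl, D.disp_ne b i hl, sub_zero]
      exact this

omit [Fintype ι] in
theorem mem_tubeBase_last {b : ℕ} {p : ι → ℝ} : p ∈ D.tubeBase b D.n ↔
    p D.u - D.rho ∈ Icc (0 : ℝ) 1 ∧ ∀ l, l ≠ D.u →
      p l - D.axis b (D.zpar (p D.u)) l ∈ Icc (0 : ℝ) 1 := by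
  rw [mem_tubeBase]
  simp [du]

omit [Fintype ι] in
theorem tubeBase_shr (b i : ℕ) : D.tubeBase b i =
    D.shr b (D.du i) ⁻¹' box (cast (D.disp b i) + fun l => if l = D.u then D.rho else 0) := by
  ext p
  simp only [tubeBase, tube0, box, mem_ofPred_eq, mem_preimage, shear_apply, Pi.sub_apply,
    Pi.add_apply, disp_u]
  refine forall_congr' fun l => ?_
  constructor <;> intro h <;> convert h using 1 <;> ring

theorem isCompact_tubeBase (b i : ℕ) : IsCompact (D.tubeBase b i) := by
  rw [tubeBase_shr, ← Homeomorph.image_symm]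
  exact (isCompact_box _).image (D.shr b (D.du i)).symm.continuous

theorem convex_shear_tubeBase (b i : ℕ) : Convex ℝ (D.shr b (D.du i) '' D.tubeBase b i) := by
  rw [tubeBase_shr, image_preimage_eq _ (D.shr b (D.du i)).surjective]
  exact convex_box _

theorem isCompact_cellBase (b i : ℕ) : IsCompact (D.cellBase b i) := isCompact_box _

omit [Fintype ι] in
theorem convex_cellBase (b i : ℕ) : Convex ℝ (D.cellBase b i) := convex_box _

/-- a region bounded by convex functions of the `u`-coordinate -/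
def Reg (m : ι → ℝ) (r₀ r₁ z₀ z₁ : ℝ) (F G : ι → ℝ → ℝ) : Set (ι → ℝ) :=
  {p | p D.u ∈ Icc r₀ r₁ ∧ D.zpar (p D.u) ∈ Icc z₀ z₁ ∧ ∀ l, l ≠ D.u →
    m l + F l (D.zpar (p D.u)) ≤ p l ∧ p l ≤ m l + 1 - G l (D.zpar (p D.u))}

omit [Fintype ι] [DecidableEq ι] in
theorem zpar_affine {a b : ℝ} (hab : a + b = 1) (r r' : ℝ) :
    D.zpar (a * r + b * r') = a * D.zpar r + b * D.zpar r' := by
  unfold zpar
  have : D.rho = a * D.rho + b * D.rho := by rw [← add_mul, hab, one_mul]
  nth_rewrite 1 [this]
  ring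

omit [Fintype ι] [DecidableEq ι] in
theorem convex_Reg (m : ι → ℝ) (r₀ r₁ z₀ z₁ : ℝ) {F G : ι → ℝ → ℝ}
    (hF : ∀ l, ConvexOn ℝ univ (F l)) (hG : ∀ l, ConvexOn ℝ univ (G l)) :
    Convex ℝ (D.Reg m r₀ r₁ z₀ z₁ F G) := by
  intro p hp q hq a b ha hb hab
  obtain ⟨p1, p2, p3⟩ := hp
  obtain ⟨q1, q2, q3⟩ := hq
  refine ⟨?_, ?_, ?_⟩
  · exact convex_Icc r₀ r₁ p1 q1 ha hb hab
  · have := convex_Icc z₀ z₁ p2 q2 ha hb hab
    simp only [Pi.add_apply, Pi.smul_apply, smul_eq_mul] at this ⊢
    rwa [D.zpar_affine hab]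
  · intro l hl
    obtain ⟨p4, p5⟩ := p3 l hl
    obtain ⟨q4, q5⟩ := q3 l hl
    simp only [Pi.add_apply, Pi.smul_apply, smul_eq_mul]
    rw [D.zpar_affine hab]
    have h1 := (hF l).2 (mem_univ (D.zpar (p D.u))) (mem_univ (D.zpar (q D.u))) ha hb hab
    have h2 := (hG l).2 (mem_univ (D.zpar (p D.u))) (mem_univ (D.zpar (q D.u))) ha hb hab
    simp only [smul_eq_mul] at h1 h2
    have hm : m l = a * m l + b * m l := by rw [← add_mul, hab, one_mul]
    constructor
    · have e1 := mul_le_mul_of_nonneg_left p4 ha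
      have e2 := mul_le_mul_of_nonneg_left q4 hb
      nlinarith
    · have e1 := mul_le_mul_of_nonneg_left p5 ha
      have e2 := mul_le_mul_of_nonneg_left q5 hb
      nlinarith

/-- positive part of the displacement of the axis from `node b k` -/
noncomputable def Fp (b k : ℕ) (l : ι) (z : ℝ) : ℝ :=
  max 0 (2 * k - z) * max 0 (-(D.node b k l - D.node b (k - 1) l)) +
    max 0 (z - (2 * k + 1)) * max 0 (D.node b (k + 1) l - D.node b k l)

/-- negative part of the displacement of the axis from `node b k` -/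
noncomputable def Gp (b k : ℕ) (l : ι) (z : ℝ) : ℝ :=
  max 0 (2 * k - z) * max 0 (D.node b k l - D.node b (k - 1) l) +
    max 0 (z - (2 * k + 1)) * max 0 (-(D.node b (k + 1) l - D.node b k l))

theorem convexOn_aux (α β c d : ℝ) (hc : 0 ≤ c) (hd : 0 ≤ d) :
    ConvexOn ℝ univ (fun z : ℝ => max 0 (α - z) * c + max 0 (z - β) * d) := by
  refine ⟨convex_univ, ?_⟩
  intro x _ y _ a b ha hb hab
  simp only [smul_eq_mul]
  have h1 : max 0 (α - (a * x + b * y)) ≤ a * max 0 (α - x) + b * max 0 (α - y) := by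
    have e1 : α = a * α + b * α := by rw [← add_mul, hab, one_mul]
    have e2 := mul_le_mul_of_nonneg_left (le_max_right 0 (α - x)) ha
    have e3 := mul_le_mul_of_nonneg_left (le_max_right 0 (α - y)) hb
    have e4 := mul_nonneg ha (le_max_left 0 (α - x))
    have e5 := mul_nonneg hb (le_max_left 0 (α - y))
    apply max_le <;> nlinarith
  have h2 : max 0 (a * x + b * y - β) ≤ a * max 0 (x - β) + b * max 0 (y - β) := by
    have e1 : β = a * β + b * β := by rw [← add_mul, hab, one_mul]
    have e2 := mul_le_mul_of_nonneg_left (le_max_right 0 (x - β)) ha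
    have e3 := mul_le_mul_of_nonneg_left (le_max_right 0 (y - β)) hb
    have e4 := mul_nonneg ha (le_max_left 0 (x - β))
    have e5 := mul_nonneg hb (le_max_left 0 (y - β))
    apply max_le <;> nlinarith
  have h3 := mul_le_mul_of_nonneg_right h1 hc
  have h4 := mul_le_mul_of_nonneg_right h2 hd
  nlinarith

omit [Fintype ι] [DecidableEq ι] in
theorem convexOn_Fp (b k : ℕ) (l : ι) : ConvexOn ℝ univ (D.Fp b k l) :=
  convexOn_aux _ _ _ _ (le_max_left _ _) (le_max_left _ _)

omit [Fintype ι] [DecidableEq ι] in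
theorem convexOn_Gp (b k : ℕ) (l : ι) : ConvexOn ℝ univ (D.Gp b k l) :=
  convexOn_aux _ _ _ _ (le_max_left _ _) (le_max_left _ _)

omit [Fintype ι] [DecidableEq ι] in
theorem Fp_Gp {b k : ℕ} (hk : k ≤ D.n + 1) {z : ℝ} (h0 : 0 ≤ z) (h1 : z ≤ 2 * D.n + 3)
    (h2 : 2 * (k : ℝ) - 1 ≤ z) (h3 : z ≤ 2 * (k : ℝ) + 2) (l : ι) :
    D.Fp b k l z = max 0 (D.axis b z l - D.node b k l) ∧
    D.Gp b k l z = max 0 (-(D.axis b z l - D.node b k l)) := by
  rcases le_total (2 * (k : ℝ)) z with h4 | h4
  · rcases le_total z (2 * (k : ℝ) + 1) with h5 | h5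
    · rw [D.axis_rest hk h4 h5]
      simp [Fp, Gp, max_eq_left (show 2 * (k : ℝ) - z ≤ 0 by linarith),
        max_eq_left (show z - (2 * (k : ℝ) + 1) ≤ 0 by linarith)]
    · rcases Nat.lt_or_ge D.n k with h6 | h6
      · have h7 : (k : ℝ) = D.n + 1 := by
          have : k = D.n + 1 := by omega
          rw [this]; push_cast; ring
        have h8 : z = 2 * (k : ℝ) + 1 := by linarith
        rw [D.axis_rest hk h4 h8.le]
        simp [Fp, Gp, max_eq_left (show 2 * (k : ℝ) - z ≤ 0 by linarith),
          max_eq_left (show z - (2 * (k : ℝ) + 1) ≤ 0 by linarith)]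
      · rw [D.axis_move h6 h5 h3]
        have e1 : (D.node b k + (z - (2 * (k : ℝ) + 1)) • (D.node b (k + 1) - D.node b k)) l -
            D.node b k l = (z - (2 * (k : ℝ) + 1)) * (D.node b (k + 1) l - D.node b k l) := by
          simp
        rw [e1]
        have e2 : 0 ≤ z - (2 * (k : ℝ) + 1) := by linarith
        simp only [Fp, Gp, max_eq_left (show 2 * (k : ℝ) - z ≤ 0 by linarith), max_eq_right e2,
          zero_mul, zero_add]
        rw [← mul_neg]
        constructor
        · rw [mul_max_of_nonneg _ _ e2, mul_zero]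
        · rw [mul_max_of_nonneg _ _ e2, mul_zero]
  · cases k with
    | zero =>
      have h5 : z = 0 := by push_cast at h4; linarith
      subst h5
      rw [D.axis_rest_zero (by norm_num)]
      simp [Fp, Gp]
    | succ k =>
      push_cast at h2 h3 h4 h1
      rw [D.axis_move (k := k) (by omega) (by linarith) (by linarith)]
      have e1 : (D.node b k + (z - (2 * (k : ℝ) + 1)) • (D.node b (k + 1) - D.node b k)) l -
            D.node b (k + 1) l =
            -((2 * ((k : ℝ) + 1) - z) * (D.node b (k + 1) l - D.node b k l)) := by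
        simp; ring
      rw [e1]
      have e2 : 0 ≤ 2 * ((k : ℝ) + 1) - z := by linarith
      have e3 : z - (2 * ((k : ℝ) + 1) + 1) ≤ 0 := by linarith
      simp only [Fp, Gp, Nat.cast_add, Nat.cast_one, max_eq_left e3, max_eq_right e2,
          zero_mul, add_zero, Nat.add_sub_cancel, neg_neg]
      rw [← mul_neg]
      constructor
      · rw [mul_max_of_nonneg _ _ e2, mul_zero]
      · rw [mul_max_of_nonneg _ _ e2, mul_zero]

omit [Fintype ι] in
/-- description of the contact set of the special tube with the cube at `node b k` -/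
theorem contact_eq {b k : ℕ} (hk : k ≤ D.n + 1) : D.tubeBase b D.n ∩ box (D.node b k) =
    D.Reg (D.node b k) D.rho 1 (2 * k - 1) (2 * k + 2) (D.Fp b k) (D.Gp b k) := by
  have hρ := D.rho_pos
  ext p
  constructor
  · rintro ⟨h1, h2⟩
    rw [mem_tubeBase_last] at h1
    obtain ⟨h1, h3⟩ := h1
    have hu := h2 D.u
    rw [D.nodeU, sub_zero] at hu
    have z0 : 0 ≤ D.zpar (p D.u) := by
      rw [← D.zpar_rho]; exact D.zpar_mono (by linarith [h1.1])
    have z1 : D.zpar (p D.u) ≤ 2 * D.n + 3 := by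
      have := D.zpar_mono (show p D.u ≤ D.rho + 1 by linarith [h1.2])
      rw [D.zpar_add_one, D.zpar_rho] at this; linarith
    have ht := h2 D.t
    have ht' := h3 D.t D.hut.symm
    have z2 : 2 * (k : ℝ) - 1 ≤ D.zpar (p D.u) := by
      by_contra h
      push Not at h
      cases k with
      | zero => push_cast at h; linarith
      | succ k =>
        push_cast at h
        have := D.axis_before (b := b) (k := k) (by omega) (z := D.zpar (p D.u)) (by linarith)
        linarith [ht.1, ht'.2]
    have z3 : D.zpar (p D.u) ≤ 2 * (k : ℝ) + 2 := by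
      by_contra h
      push Not at h
      rcases Nat.lt_or_ge D.n k with h6 | h6
      · have h7 : (k : ℝ) = D.n + 1 := by
          have : k = D.n + 1 := by omega
          rw [this]; push_cast; ring
        linarith
      · have := D.axis_after (b := b) h6 h.le
        linarith [ht.2, ht'.1]
    refine ⟨⟨by linarith [h1.1], by linarith [hu.2]⟩, ⟨z2, z3⟩, ?_⟩
    intro l hl
    obtain ⟨e1, e2⟩ := D.Fp_Gp (b := b) hk z0 z1 z2 z3 l
    rw [e1, e2]
    have h4 := h3 l hl
    have h5 := h2 l
    rcases le_total 0 (D.axis b (D.zpar (p D.u)) l - D.node b k l) with h | h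
    · rw [max_eq_right h, max_eq_left (by linarith)]
      exact ⟨by linarith [h4.1], by linarith [h5.2]⟩
    · rw [max_eq_left h, max_eq_right (by linarith)]
      exact ⟨by linarith [h5.1], by linarith [h4.2]⟩
  · rintro ⟨h1, ⟨z2, z3⟩, h2⟩
    have z0 : 0 ≤ D.zpar (p D.u) := by
      rw [← D.zpar_rho]; exact D.zpar_mono (by linarith [h1.1])
    have z1 : D.zpar (p D.u) ≤ 2 * D.n + 3 := by
      have := D.zpar_mono (show p D.u ≤ D.rho + 1 by linarith [h1.2])
      rw [D.zpar_add_one, D.zpar_rho] at this; linarith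
    have key : ∀ l, l ≠ D.u → (p l - D.axis b (D.zpar (p D.u)) l ∈ Icc (0 : ℝ) 1) ∧
        (p l - D.node b k l ∈ Icc (0 : ℝ) 1) := by
      intro l hl
      have h3 := h2 l hl
      obtain ⟨e1, e2⟩ := D.Fp_Gp (b := b) hk z0 z1 z2 z3 l
      rw [e1, e2] at h3
      rcases le_total 0 (D.axis b (D.zpar (p D.u)) l - D.node b k l) with h | h
      · rw [max_eq_right h, max_eq_left (by linarith)] at h3
        exact ⟨⟨by linarith [h3.1], by linarith [h3.2]⟩, ⟨by linarith [h3.1], by linarith [h3.2]⟩⟩
      · rw [max_eq_left h, max_eq_right (by linarith)] at h3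
        exact ⟨⟨by linarith [h3.1], by linarith [h3.2]⟩, ⟨by linarith [h3.1], by linarith [h3.2]⟩⟩
    refine ⟨?_, ?_⟩
    · rw [mem_tubeBase_last]
      exact ⟨⟨by linarith [h1.1], by linarith [h1.2]⟩, fun l hl => (key l hl).1⟩
    · intro l
      by_cases hl : l = D.u
      · subst hl
        rw [D.nodeU, sub_zero]
        exact ⟨by linarith [h1.1], h1.2⟩
      · exact (key l hl).2

omit [Fintype ι] in
theorem convex_contact {b k : ℕ} (hk : k ≤ D.n + 1) :
    Convex ℝ (D.tubeBase b D.n ∩ box (D.node b k)) := by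
  rw [D.contact_eq hk]
  exact D.convex_Reg _ _ _ _ _ (D.convexOn_Fp b k) (D.convexOn_Gp b k)

omit [Fintype ι] in
theorem convex_shear_contact {b k : ℕ} (hk : k ≤ D.n + 1) :
    Convex ℝ (D.shr b (D.du D.n) '' (D.tubeBase b D.n ∩ box (D.node b k))) := by
  have : D.shr b (D.du D.n) '' (D.tubeBase b D.n ∩ box (D.node b k)) =
      D.Reg 0 D.rho 1 (2 * k - 1) (2 * k + 2) (D.Gp b k) (D.Fp b k) := by
    rw [D.contact_eq hk]
    have h0 : D.du D.n = 0 := by simp [du]
    rw [h0, ← Homeomorph.preimage_symm]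
    ext p
    simp only [mem_preimage, Reg, mem_ofPred_eq, shear_symm_apply, Pi.add_apply, D.axisU, add_zero,
      sub_zero, Pi.zero_apply, zero_add]
    refine and_congr_right fun h1 => and_congr_right fun h2 => forall_congr' fun l =>
      forall_congr' fun hl => ?_
    have z0 : 0 ≤ D.zpar (p D.u) := by
      rw [← D.zpar_rho]; exact D.zpar_mono (by linarith [h1.1])
    have z1 : D.zpar (p D.u) ≤ 2 * D.n + 3 := by
      have := D.zpar_mono (show p D.u ≤ D.rho + 1 by linarith [h1.2, D.rho_pos])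
      rw [D.zpar_add_one, D.zpar_rho] at this; linarith
    obtain ⟨e1, e2⟩ := D.Fp_Gp (b := b) hk z0 z1 h2.1 h2.2 l
    rw [e1, e2]
    rcases le_total 0 (D.axis b (D.zpar (p D.u)) l - D.node b k l) with h | h
    · rw [max_eq_right h, max_eq_left (by linarith)]
      constructor <;> rintro ⟨h3, h4⟩ <;> constructor <;> linarith
    · rw [max_eq_left h, max_eq_right (by linarith)]
      constructor <;> rintro ⟨h3, h4⟩ <;> constructor <;> linarith
  rw [this]
  exact D.convex_Reg _ _ _ _ _ (D.convexOn_Gp b k) (D.convexOn_Fp b k)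

theorem interior_contact {b k : ℕ} (hk : k ≤ D.n + 1) :
    (interior (D.tubeBase b D.n ∩ box (D.node b k))).Nonempty := by
  have hn : (0 : ℝ) ≤ D.n := by positivity
  have hk' : (k : ℝ) ≤ D.n + 1 := by exact_mod_cast hk
  set O : Set (ι → ℝ) := {p | D.zpar (p D.u) ∈ Ioo (2 * (k : ℝ)) (2 * k + 1 / 2)} ∩
    {p | ∀ l, l ≠ D.u → p l - D.node b k l ∈ Ioo (0 : ℝ) 1} with hO
  have Oo : IsOpen O := by
    apply IsOpen.inter
    · exact isOpen_Ioo.preimage (D.cont_zpar.comp (continuous_apply _))
    · simp only [ofPred_forall]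
      apply isOpen_iInter_of_finite
      intro l
      apply isOpen_iInter_of_finite
      intro _
      exact isOpen_Ioo.preimage ((continuous_apply l).sub continuous_const)
  have Osub : O ⊆ D.tubeBase b D.n ∩ box (D.node b k) := by
    rintro p ⟨⟨h1, h2⟩, h3⟩
    have u0 : D.rho < p D.u := by
      apply D.zpar_strictMono.lt_iff_lt.1
      rw [D.zpar_rho]
      have : (0 : ℝ) ≤ k := by positivity
      linarith
    have u1 : p D.u < 1 := by
      apply D.zpar_strictMono.lt_iff_lt.1
      rw [D.zpar_one]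
      linarith
    have hρ := D.rho_pos
    refine ⟨?_, ?_⟩
    · rw [mem_tubeBase_last, D.axis_rest hk h1.le (by linarith)]
      exact ⟨⟨by linarith, by linarith⟩, fun l hl => Ioo_subset_Icc_self (h3 l hl)⟩
    · intro l
      by_cases hl : l = D.u
      · subst hl
        rw [D.nodeU, sub_zero]
        exact ⟨by linarith, u1.le⟩
      · exact Ioo_subset_Icc_self (h3 l hl)
  have One : O.Nonempty := by
    refine ⟨fun l => if l = D.u then D.rho + (2 * k + 1 / 4) / (2 * D.n + 3)
      else D.node b k l + 1 / 2, ?_, ?_⟩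
    · simp only [mem_ofPred_eq, if_true]
      have : D.zpar (D.rho + (2 * k + 1 / 4) / (2 * D.n + 3)) = 2 * k + 1 / 4 := by
        unfold zpar
        field_simp
        ring
      rw [this]
      constructor <;> linarith
    · intro l hl
      simp only [if_neg hl]
      constructor <;> linarith
  exact One.mono (interior_maximal Osub Oo)

end GeoData

end Pool.Agent.BallTile
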