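import Pool.Agent.Lib.MP_0960bd_co.Interface

/-!
# MP_0960bd_co, module B, part 1 (helper95): tiling equations encode functional constraints
-/

set_option autoImplicit false

open Classical

namespace Pool.Agent.BallTile.Enc

/-- `T ⊕ X = A`. -/
def TilesG {A K : Type} [AddCommGroup A] (T : Set A) (X : K → A) : Prop :=
  ∀ z : A, ∃! p : A × K, p.1 ∈ T ∧ p.1 + X p.2 = z

section Transfer

theorem TilesG.comp_equiv {A K K' : Type} [AddCommGroup A] {T : Set A} {X : K → A}
    (e : K' ≃ K) (h : TilesG T X) : TilesG T (fun k => X (e k)) := by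
  intro z
  obtain ⟨⟨a, k⟩, ⟨h1, h2⟩, h3⟩ := h z
  refine ⟨(a, e.symm k), ⟨h1, by simpa using h2⟩, ?_⟩
  rintro ⟨a', k'⟩ ⟨h1', h2'⟩
  have := h3 (a', e k') ⟨h1', h2'⟩
  simp only [Prod.mk.injEq] at this
  obtain ⟨rfl, rfl⟩ := this
  simp

theorem TilesG.map {A A' K : Type} [AddCommGroup A] [AddCommGroup A'] {T : Set A} {X : K → A}
    (Φ : A ≃+ A') (h : TilesG T X) : TilesG (Φ.symm ⁻¹' T) (fun k => Φ (X k)) := by
  intro z
  obtain ⟨⟨a, k⟩, ⟨h1, h2⟩, h3⟩ := h (Φ.symm z)
  simp only at h1 h2
  refine ⟨(Φ a, k), ⟨by simpa using h1, ?_⟩, ?_⟩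
  · simp only
    rw [← map_add, h2]; simp
  · rintro ⟨a', k'⟩ ⟨h1', h2'⟩
    simp only [Set.mem_preimage] at h1' h2'
    have := h3 (Φ.symm a', k') ⟨h1', by
      simp only
      rw [← h2', map_add]; simp⟩
    simp only [Prod.mk.injEq] at this
    obtain ⟨h4, rfl⟩ := this
    simp [← h4]

theorem discrete_of {A K J : Type} [AddCommGroup A] [Module.Free ℤ A] [Module.Finite ℤ A]
    [Fintype K] [Fintype J] (X : J → K → A) (h1 : ∃ T, ∀ j, TilesG T (X j))
    (h2 : ¬ ∃ T, (∀ j, TilesG T (X j)) ∧ ∃ N : ℤ, 0 < N ∧ ∀ w : A, ∀ t ∈ T, t + N • w ∈ T) :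
    DiscreteMain := by
  let B := Module.finBasis ℤ A
  let Φ : A ≃+ (Fin (Module.finrank ℤ A) → ℤ) := B.equivFun.toAddEquiv
  let eJ : Fin (Fintype.card J) ≃ J := (Fintype.equivFin J).symm
  let eK : Fin (Fintype.card K) ≃ K := (Fintype.equivFin K).symm
  refine ⟨Module.finrank ℤ A, Fintype.card J, Fintype.card K,
    fun j k => Φ (X (eJ j) (eK k)), ?_, ?_⟩
  · obtain ⟨T, hT⟩ := h1
    exact ⟨Φ.symm ⁻¹' T, fun j => ((hT (eJ j)).comp_equiv eK).map Φ⟩
  · rintro ⟨T, hT, N, hN, hper⟩
    apply h2
    refine ⟨Φ ⁻¹' T, ?_, N, hN, ?_⟩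
    · intro j
      have h0 : TilesG T (fun k => Φ (X (eJ (eJ.symm j)) (eK k))) := hT (eJ.symm j)
      have h := (h0.comp_equiv eK.symm).map Φ.symm
      simpa using h
    · -- the subgroup of periods
      let S : AddSubgroup (Fin (Module.finrank ℤ A) → ℤ) :=
        { carrier := {w | ∀ t, t ∈ T ↔ t + w ∈ T}
          zero_mem' := by intro t; simp
          add_mem' := by
            intro a b ha hb t
            rw [ha t, hb (t + a), add_assoc]
          neg_mem' := by
            intro a ha t
            have := ha (t - a)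
            rw [sub_add_cancel] at this
            rw [← sub_eq_add_neg]
            exact this.symm }
      have hS : ∀ i, Pi.single i N ∈ S := by
        intro i t
        constructor
        · intro ht; exact (hper i t ht).1
        · intro ht
          have := (hper i _ ht).2
          simpa using this
      have hS2 : ∀ w : Fin (Module.finrank ℤ A) → ℤ, N • w ∈ S := by
        intro w
        have : N • w = ∑ i, w i • (Pi.single i N : Fin (Module.finrank ℤ A) → ℤ) := by
          funext l
          simp [Finset.sum_apply, Pi.single_apply, mul_comm]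
        rw [this]
        exact sum_mem fun i _ => S.zsmul_mem (hS i) _
      intro w t ht
      have := (hS2 (Φ w) (Φ t)).1 ht
      simpa using this

end Transfer

section Blocks

variable {G : Type} [AddCommGroup G] {C : Type} {n : ℕ} [NeZero n]

/-- integer representatives -/
def lift (e : C → ZMod n) : C → ℤ := fun c => ((e c).val : ℤ)

/-- reduction -/
def red (n : ℕ) (z : C → ℤ) : C → ZMod n := fun c => (z c : ZMod n)

theorem red_lift (e : C → ZMod n) : red n (lift e) = e := by
  funext c
  simp [red, lift]

omit [NeZero n] in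
theorem lift_zero : lift (0 : C → ZMod n) = 0 := by
  funext c; simp [lift]

omit [NeZero n] in
theorem red_add (y z : C → ℤ) : red n (y + z) = red n y + red n z := by
  funext c; simp [red]

omit [NeZero n] in
theorem red_sub (y z : C → ℤ) : red n (y - z) = red n y - red n z := by
  funext c; simp [red]

omit [NeZero n] in
theorem red_neg (z : C → ℤ) : red n (-z) = -red n z := by
  funext c; simp [red]

/-- the set encoding a function -/
def Tf (f : G → C → ZMod n) : Set (G × (C → ℤ)) := {a | red n a.2 = f a.1}

theorem tiles_iff {K : Type} (f : G → C → ZMod n) (g : K → G) (ρ : K → C → ZMod n) :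
    TilesG (Tf f) (fun e => (g e, lift (ρ e))) ↔
      ∀ (P : G) (z : C → ZMod n), ∃! e, f (P - g e) + ρ e = z := by
  constructor
  · intro h P z
    obtain ⟨⟨a, e⟩, ⟨h1, h2⟩, h3⟩ := h (P, lift z)
    simp only at h1 h2
    have ha : a = (P - g e, lift z - lift (ρ e)) := by
      rw [eq_sub_of_add_eq h2]; rfl
    refine ⟨e, ?_, ?_⟩
    · have : red n a.2 = f a.1 := h1
      rw [ha] at this
      simp only [red_sub, red_lift] at this
      simp only
      rw [← this]; abel
    · intro e' he'
      have := h3 ((P - g e', lift z - lift (ρ e')), e') ⟨by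
        change red n _ = f _
        simp only [red_sub, red_lift]
        rw [← he']; abel, by ext <;> simp⟩
      exact (Prod.mk.inj this).2
  · intro h z
    obtain ⟨P, w⟩ := z
    obtain ⟨e, he, hu⟩ := h P (red n w)
    refine ⟨((P - g e, w - lift (ρ e)), e), ⟨?_, by ext <;> simp⟩, ?_⟩
    · change red n _ = f _
      simp only [red_sub, red_lift]
      rw [← he]; abel
    · rintro ⟨a, e'⟩ ⟨h1, h2⟩
      simp only at h1 h2
      have ha : a = (P - g e', w - lift (ρ e')) := by
        rw [eq_sub_of_add_eq h2]; rfl
      have : red n a.2 = f a.1 := h1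
      rw [ha] at this
      simp only [red_sub, red_lift] at this
      have := hu e' (by simp only; rw [← this]; abel)
      subst this
      rw [ha]

end Blocks

/-- Constraints on functions `f : G → C → ZMod n`. -/
inductive Con (G C : Type) (n : ℕ) [AddCommGroup G] : Type
  | base
  | per (c : C)
  | inc (g : G) (H : AddSubgroup (C → ZMod n)) (e₁ : C → ZMod n)
  | bool (c : C) (g₁ g₂ : G)

section Cons

variable {G : Type} [AddCommGroup G] {C : Type} {n : ℕ} [NeZero n]

/-- the tiling block of a constraint -/
noncomputable def Con.block : Con G C n → (C → ZMod n) → G × (C → ℤ)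
  | .base => fun e => (0, lift e)
  | .per c => fun e => if e = 0 then (0, Pi.single c (n : ℤ)) else (0, lift e)
  | .inc g H e₁ => fun e => if e ∈ H then (g, lift (e + e₁)) else (0, lift e)
  | .bool c g₁ g₂ => fun e => (if e c = 1 then g₁ else if e c = 2 then g₂ else 0, lift e)

/-- validity of a constraint -/
def Con.Sat (f : G → C → ZMod n) : Con G C n → Prop
  | .base => True
  | .per _ => True
  | .inc g H e₁ => ∀ P, f P - f (P - g) - e₁ ∈ H
  | .bool c g₁ g₂ => ∀ P, (f (P - g₁) c = f P c ∧ f (P - g₂) c = f P c) ∨
      (f (P - g₁) c = f P c + 1 ∧ f (P - g₂) c = f P c - 1)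

theorem inc_iff (f : G → C → ZMod n) (g : G) (H : AddSubgroup (C → ZMod n)) (e₁ : C → ZMod n) :
    TilesG (Tf f) (Con.inc g H e₁).block ↔ (Con.inc g H e₁).Sat f := by
  have hb : (Con.inc g H e₁).block = fun e => ((if e ∈ H then g else 0 : G),
      lift (if e ∈ H then e + e₁ else e)) := by
    funext e
    by_cases he : e ∈ H <;> simp [Con.block, he]
  rw [hb, tiles_iff]
  constructor
  · intro h P
    obtain ⟨e, he, -⟩ := h P (f P)
    by_cases hH : e ∈ H
    · simp only [hH, if_true] at he
      have : f P - f (P - g) - e₁ = e := by rw [← he]; abel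
      rw [this]; exact hH
    · exfalso
      simp only [hH, if_false, sub_zero] at he
      have : e = 0 := by
        have : f P + e = f P + 0 := by rw [he, add_zero]
        exact add_left_cancel this
      exact hH (this ▸ H.zero_mem)
  · intro h P z
    have hP : f P - f (P - g) - e₁ ∈ H := h P
    by_cases hd : z - f P ∈ H
    · refine ⟨z - e₁ - f (P - g), ?_, ?_⟩
      · have h1 : z - e₁ - f (P - g) ∈ H := by
          have : z - e₁ - f (P - g) = (z - f P) + (f P - f (P - g) - e₁) := by abel
          rw [this]; exact H.add_mem hd hP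
        simp only [h1, if_true]
        abel
      · intro e he
        by_cases hH : e ∈ H
        · simp only [hH, if_true] at he
          rw [← he]; abel
        · exfalso
          simp only [hH, if_false, sub_zero] at he
          apply hH
          have : e = z - f P := by rw [← he]; abel
          rw [this]; exact hd
    · refine ⟨z - f P, ?_, ?_⟩
      · simp only [hd, if_false, sub_zero]
        abel
      · intro e he
        by_cases hH : e ∈ H
        · exfalso
          simp only [hH, if_true] at he
          apply hd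
          have : z - f P = e - (f P - f (P - g) - e₁) := by rw [← he]; abel
          rw [this]; exact H.sub_mem hH hP
        · simp only [hH, if_false, sub_zero] at he
          rw [← he]; abel

theorem bool_iff (hn : 3 ≤ n) (f : G → C → ZMod n) (c : C) (g₁ g₂ : G) :
    TilesG (Tf f) (Con.bool c g₁ g₂ : Con G C n).block ↔ (Con.bool c g₁ g₂ : Con G C n).Sat f := by
  have h10 : (1 : ZMod n) ≠ 0 := by
    intro h
    have : ((1 : ℕ) : ZMod n) = 0 := by exact_mod_cast h
    rw [ZMod.natCast_eq_zero_iff] at this
    have := Nat.le_of_dvd (by norm_num) this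
    omega
  have h20 : (2 : ZMod n) ≠ 0 := by
    intro h
    have : ((2 : ℕ) : ZMod n) = 0 := by exact_mod_cast h
    rw [ZMod.natCast_eq_zero_iff] at this
    have := Nat.le_of_dvd (by norm_num) this
    omega
  have h21 : (2 : ZMod n) ≠ 1 := by
    intro h
    apply h10
    have : (1 : ZMod n) = 2 - 1 := by ring
    rw [this, h]; ring
  have h12 : (1 : ZMod n) ≠ 2 := h21.symm
  change TilesG (Tf f) (fun e => ((if e c = 1 then g₁ else if e c = 2 then g₂ else 0 : G), lift e)) ↔ _
  rw [tiles_iff f (fun e => (if e c = 1 then g₁ else if e c = 2 then g₂ else 0 : G)) (fun e => e)]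
  have key : ∀ (P : G) (z e : C → ZMod n),
      f (P - (if e c = 1 then g₁ else if e c = 2 then g₂ else 0)) + e = z ↔
        ((e c ≠ 1 ∧ e c ≠ 2 ∧ e = z - f P) ∨ (e c = 1 ∧ e = z - f (P - g₁)) ∨
          (e c = 2 ∧ e = z - f (P - g₂))) := by
    intro P z e
    have hc : ∀ w : C → ZMod n, w + e = z ↔ e = z - w := by
      intro w
      constructor
      · rintro rfl; abel
      · rintro rfl; abel
    rw [hc]
    by_cases e1 : e c = 1
    · simp [e1, h12]
    · by_cases e2 : e c = 2
      · simp [e2, h21]
      · simp [e1, e2]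
  constructor
  · intro h P
    have ex1 : ∀ t : ZMod n, (t = 1 ∨ t = 2) →
        f (P - g₁) c + 1 = f P c + t ∨ f (P - g₂) c + 2 = f P c + t := by
      intro t ht
      obtain ⟨e, he, -⟩ := h P (f P + Pi.single c t)
      rcases (key _ _ _).1 he with ⟨h1, h2, h3⟩ | ⟨h1, h2⟩ | ⟨h1, h2⟩
      · exfalso
        have : e c = t := by rw [h3]; simp
        rcases ht with ht | ht
        · exact h1 (this.trans ht)
        · exact h2 (this.trans ht)
      · left
        have := congrFun h2 c
        rw [h1] at this
        simp only [Pi.sub_apply, Pi.add_apply, Pi.single_eq_same] at this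
        rw [this]; ring
      · right
        have := congrFun h2 c
        rw [h1] at this
        simp only [Pi.sub_apply, Pi.add_apply, Pi.single_eq_same] at this
        rw [this]; ring
    rcases ex1 1 (Or.inl rfl) with b1 | b1
    · rcases ex1 2 (Or.inr rfl) with b2 | b2
      · exfalso
        apply h10
        linear_combination b1 - b2
      · left
        exact ⟨by linear_combination b1, by linear_combination b2⟩
    · rcases ex1 2 (Or.inr rfl) with b2 | b2
      · right
        exact ⟨by linear_combination b2, by linear_combination b1⟩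
      · exfalso
        apply h10
        linear_combination b1 - b2
  · intro h P z
    have hP := h P
    suffices h : ∃! e : C → ZMod n, ((e c ≠ 1 ∧ e c ≠ 2 ∧ e = z - f P) ∨
        (e c = 1 ∧ e = z - f (P - g₁)) ∨ (e c = 2 ∧ e = z - f (P - g₂))) by
      obtain ⟨e, he, hu⟩ := h
      exact ⟨e, (key _ _ _).2 he, fun e' he' => hu e' ((key _ _ _).1 he')⟩
    by_cases t1 : z c - f P c = 1
    · rcases hP with ⟨u1, u2⟩ | ⟨u1, u2⟩
      · refine ⟨z - f (P - g₁), Or.inr (Or.inl ⟨by simp [u1, t1], rfl⟩), ?_⟩
        rintro e (⟨h1, h2, h3⟩ | ⟨h1, h2⟩ | ⟨h1, h2⟩)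
        · exact absurd (by rw [h3]; exact t1) h1
        · exact h2
        · exfalso
          have : e c = 1 := by rw [h2, Pi.sub_apply, u2]; exact t1
          exact h12 (this.symm.trans h1)
      · refine ⟨z - f (P - g₂), Or.inr (Or.inr ⟨by
          rw [Pi.sub_apply, u2]; linear_combination t1, rfl⟩), ?_⟩
        rintro e (⟨h1, h2, h3⟩ | ⟨h1, h2⟩ | ⟨h1, h2⟩)
        · exact absurd (by rw [h3]; exact t1) h1
        · exfalso
          have : e c = 0 := by rw [h2, Pi.sub_apply, u1]; linear_combination t1
          exact h10 (h1.symm.trans this)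
        · exact h2
    · by_cases t2 : z c - f P c = 2
      · rcases hP with ⟨u1, u2⟩ | ⟨u1, u2⟩
        · refine ⟨z - f (P - g₂), Or.inr (Or.inr ⟨by simp [u2, t2], rfl⟩), ?_⟩
          rintro e (⟨h1, h2, h3⟩ | ⟨h1, h2⟩ | ⟨h1, h2⟩)
          · exact absurd (by rw [h3]; exact t2) h2
          · exfalso
            have : e c = 2 := by rw [h2, Pi.sub_apply, u1]; exact t2
            exact h12 (h1.symm.trans this)
          · exact h2
        · refine ⟨z - f (P - g₁), Or.inr (Or.inl ⟨by
            rw [Pi.sub_apply, u1]; linear_combination t2, rfl⟩), ?_⟩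
          rintro e (⟨h1, h2, h3⟩ | ⟨h1, h2⟩ | ⟨h1, h2⟩)
          · exact absurd (by rw [h3]; exact t2) h2
          · exact h2
          · exfalso
            have : e c = 3 := by rw [h2, Pi.sub_apply, u2]; linear_combination t2
            apply h10
            linear_combination h1 - this
      · refine ⟨z - f P, Or.inl ⟨t1, t2, rfl⟩, ?_⟩
        rintro e (⟨h1, h2, h3⟩ | ⟨h1, h2⟩ | ⟨h1, h2⟩)
        · exact h3
        · exfalso
          rw [h2, Pi.sub_apply] at h1
          rcases hP with ⟨u1, u2⟩ | ⟨u1, u2⟩
          · apply t1; rw [← u1]; exact h1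
          · apply t2; linear_combination h1 + u1
        · exfalso
          rw [h2, Pi.sub_apply] at h1
          rcases hP with ⟨u1, u2⟩ | ⟨u1, u2⟩
          · apply t2; rw [← u2]; exact h1
          · apply t1; linear_combination h1 + u2

theorem base_iff (f : G → C → ZMod n) : TilesG (Tf f) (Con.base : Con G C n).block := by
  change TilesG (Tf f) (fun e => ((0 : G), lift e))
  rw [tiles_iff f (fun _ => 0) (fun e => e)]
  intro P z
  refine ⟨z - f P, by simp, ?_⟩
  intro e he
  have he : f (P - 0) + e = z := he
  rw [sub_zero] at he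
  rw [← he]; abel

theorem per_iff (f : G → C → ZMod n) (c : C) : TilesG (Tf f) (Con.per c : Con G C n).block := by
  have h := base_iff f
  intro z
  obtain ⟨⟨a, e⟩, ⟨h1, h2⟩, h3⟩ := h z
  have hmem : ∀ a : G × (C → ℤ), a ∈ Tf f → a - (0, Pi.single c (n : ℤ)) ∈ Tf f := by
    intro a ha
    change red n (a.2 - Pi.single c (n : ℤ)) = f (a.1 - 0)
    have ha' : red n a.2 = f a.1 := ha
    rw [red_sub, sub_zero, ← ha']
    have : red n (Pi.single c (n : ℤ)) = 0 := by
      funext c'
      by_cases hc : c' = c
      · subst hc; simp [red]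
      · simp [red, hc]
    rw [this, sub_zero]
  have hmem' : ∀ a : G × (C → ℤ), a - (0, Pi.single c (n : ℤ)) ∈ Tf f → a ∈ Tf f := by
    intro a ha
    have ha' : red n (a.2 - Pi.single c (n : ℤ)) = f (a.1 - 0) := ha
    rw [red_sub, sub_zero] at ha'
    have : red n (Pi.single c (n : ℤ)) = 0 := by
      funext c'
      by_cases hc : c' = c
      · subst hc; simp [red]
      · simp [red, hc]
    rw [this, sub_zero] at ha'
    exact ha'
  have hb : ∀ e : C → ZMod n, e ≠ 0 → (Con.per c : Con G C n).block e =
      (Con.base : Con G C n).block e := by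
    intro e he
    simp [Con.block, he]
  have hb0 : (Con.per c : Con G C n).block 0 = (0, Pi.single c (n : ℤ)) := by
    simp [Con.block]
  have hb1 : (Con.base : Con G C n).block 0 = 0 := by
    simp [Con.block, lift_zero]
  by_cases he : e = 0
  · subst he
    simp only [hb1, add_zero] at h2
    simp only at h1 h2
    refine ⟨(a - (0, Pi.single c (n : ℤ)), 0), ⟨hmem a h1, ?_⟩, ?_⟩
    · simp only [hb0, sub_add_cancel]
      exact h2
    · rintro ⟨a', e'⟩ ⟨h1', h2'⟩
      simp only at h1' h2'
      by_cases he' : e' = 0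
      · subst he'
        rw [hb0] at h2'
        rw [h2, ← h2']; simp
      · exfalso
        rw [hb _ he'] at h2'
        have := h3 (a', e') ⟨h1', h2'⟩
        exact he' (Prod.mk.inj this).2
  · refine ⟨(a, e), ⟨h1, by simp only [hb _ he]; exact h2⟩, ?_⟩
    rintro ⟨a', e'⟩ ⟨h1', h2'⟩
    simp only at h1' h2'
    by_cases he' : e' = 0
    · exfalso
      subst he'
      rw [hb0] at h2'
      have := h3 (z, 0) ⟨by
        apply hmem'
        rw [← h2', add_sub_cancel_right]
        exact h1', by simp only [hb1, add_zero]⟩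
      exact he (Prod.mk.inj this).2.symm
    · rw [hb _ he'] at h2'
      exact h3 (a', e') ⟨h1', h2'⟩

/-- A set which tiles with the base block and all the periodicity blocks comes from a function. -/
theorem exists_fun [Fintype C] (T : Set (G × (C → ℤ))) (h0 : TilesG T (Con.base : Con G C n).block)
    (h1 : ∀ c, TilesG T (Con.per c : Con G C n).block) : ∃ f : G → C → ZMod n, T = Tf f := by
  have hb : ∀ (c : C) (e : C → ZMod n), e ≠ 0 → (Con.per c : Con G C n).block e =
      (Con.base : Con G C n).block e := by
    intro c e he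
    simp [Con.block, he]
  have hb0 : ∀ c : C, (Con.per c : Con G C n).block 0 = (0, Pi.single c (n : ℤ)) := by
    intro c
    simp [Con.block]
  have hb1 : (Con.base : Con G C n).block 0 = 0 := by
    simp [Con.block, lift_zero]
  have step : ∀ (c : C) (a : G × (C → ℤ)), a ∈ T ↔ a + (0, Pi.single c (n : ℤ)) ∈ T := by
    intro c a
    constructor
    · intro ha
      obtain ⟨⟨a', e⟩, ⟨k1, k2⟩, k3⟩ := h0 (a + (0, Pi.single c (n : ℤ)))
      simp only at k1 k2
      by_cases he : e = 0
      · subst he
        rw [hb1, add_zero] at k2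
        rw [← k2]; exact k1
      · exfalso
        obtain ⟨p, -, hp⟩ := h1 c (a + (0, Pi.single c (n : ℤ)))
        have u1 := hp (a', e) ⟨k1, by simp only [hb c e he]; exact k2⟩
        have u2 := hp (a, 0) ⟨ha, by simp only [hb0]⟩
        exact he (Prod.mk.inj (u1.trans u2.symm)).2
    · intro ha
      obtain ⟨⟨a', e⟩, ⟨k1, k2⟩, k3⟩ := h1 c (a + (0, Pi.single c (n : ℤ)))
      simp only at k1 k2
      by_cases he : e = 0
      · subst he
        rw [hb0] at k2
        have := add_right_cancel k2
        rw [← this]; exact k1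
      · exfalso
        obtain ⟨p, -, hp⟩ := h0 (a + (0, Pi.single c (n : ℤ)))
        rw [hb c e he] at k2
        have u1 := hp (a', e) ⟨k1, k2⟩
        have u2 := hp (a + (0, Pi.single c (n : ℤ)), 0) ⟨ha, by simp only [hb1, add_zero]⟩
        exact he (Prod.mk.inj (u1.trans u2.symm)).2
  let S : AddSubgroup (C → ℤ) :=
    { carrier := {w | ∀ t : G × (C → ℤ), t ∈ T ↔ t + (0, w) ∈ T}
      zero_mem' := by
        intro t
        have : ((0 : G), (0 : C → ℤ)) = 0 := rfl
        rw [this, add_zero]
      add_mem' := by
        intro a b ha hb t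
        have : ((0 : G), a + b) = (0, a) + (0, b) := by ext <;> simp
        rw [ha t, hb (t + (0, a)), this, add_assoc]
      neg_mem' := by
        intro a ha t
        have := ha (t + (0, -a))
        have e : t + ((0 : G), -a) + (0, a) = t := by
          ext <;> simp
        rw [e] at this
        exact this.symm }
  have hS : ∀ w : C → ℤ, (n : ℤ) • w ∈ S := by
    intro w
    have : (n : ℤ) • w = ∑ i, w i • (Pi.single i (n : ℤ) : C → ℤ) := by
      funext l
      simp [Finset.sum_apply, Pi.single_apply, mul_comm]
    rw [this]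
    exact sum_mem fun i _ => S.zsmul_mem (step i) _
  -- same reduction => same membership
  have hred : ∀ (P : G) (w w' : C → ℤ), red n w = red n w' → (P, w) ∈ T → (P, w') ∈ T := by
    intro P w w' hw hT
    have : ∀ c, ∃ y : ℤ, w' c - w c = n * y := by
      intro c
      have h := congrFun hw c
      simp only [red] at h
      rw [ZMod.intCast_eq_intCast_iff_dvd_sub] at h
      exact h
    choose y hy using this
    have e : w' = w + (n : ℤ) • y := by
      funext c
      have := hy c
      simp only [Pi.add_apply, Pi.smul_apply, smul_eq_mul]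
      linarith
    have := (hS y (P, w)).1 hT
    rw [e]
    simpa using this
  choose q hq hqu using fun P : G => h0 (P, 0)
  refine ⟨fun P => -(q P).2, ?_⟩
  have hq1 : ∀ P, (q P).1 = (P, - lift (q P).2) := by
    intro P
    have := (hq P).2
    rw [eq_sub_of_add_eq this]
    ext
    · simp [Con.block]
    · simp [Con.block]
  ext ⟨P, w⟩
  constructor
  · intro hT
    have k1 : (P, - lift (red n (-w))) ∈ T := by
      refine hred P w _ ?_ hT
      rw [red_neg, red_lift, red_neg, neg_neg]
    have k2 := hqu P ((P, - lift (red n (-w))), red n (-w)) ⟨k1, by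
      ext
      · simp [Con.block]
      · simp [Con.block]⟩
    have k3 : red n (-w) = (q P).2 := by rw [← k2]
    change red n w = -(q P).2
    rw [← k3, red_neg, neg_neg]
  · intro hw
    have hw' : red n w = -(q P).2 := hw
    refine hred P (- lift (q P).2) w ?_ ?_
    · rw [red_neg, red_lift, hw']
    · rw [← hq1]; exact (hq P).1

/-- periods of the set are periods of the function -/
theorem Tf_period {f : G → C → ZMod n} {w : G} (h : ∀ t ∈ Tf f, t + (w, 0) ∈ Tf f) (P : G) :
    f (P + w) = f P := by
  have : (P, lift (f P)) ∈ Tf f := by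
    change red n (lift (f P)) = f P
    exact red_lift _
  have h2 := h _ this
  have h3 : red n (lift (f P) + 0) = f (P + w) := h2
  rw [add_zero, red_lift] at h3
  exact h3.symm

/-- Encoding theorem: a finite list of constraints. -/
theorem encode [Fintype C] [Module.Free ℤ G] [Module.Finite ℤ G] (hn : 3 ≤ n)
    (L : List (Con G C n))
    (hex : ∃ f : G → C → ZMod n, ∀ con ∈ L, con.Sat f)
    (hno : ¬ ∃ f : G → C → ZMod n, (∀ con ∈ L, con.Sat f) ∧
      ∃ N : ℤ, 0 < N ∧ ∀ w P, f (P + N • w) = f P) : DiscreteMain := by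
  let L' : List (Con G C n) := Con.base :: (Finset.univ.toList.map Con.per ++ L)
  have hiff : ∀ (f : G → C → ZMod n) (con : Con G C n), TilesG (Tf f) con.block ↔ con.Sat f := by
    intro f con
    cases con with
    | base => exact ⟨fun _ => trivial, fun _ => base_iff f⟩
    | per c => exact ⟨fun _ => trivial, fun _ => per_iff f c⟩
    | inc g H e₁ => exact inc_iff f g H e₁
    | bool c g₁ g₂ => exact bool_iff hn f c g₁ g₂
  refine discrete_of (J := Fin L'.length) (fun j => (L'.get j).block) ?_ ?_
  · obtain ⟨f, hf⟩ := hex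
    refine ⟨Tf f, fun j => ?_⟩
    rw [hiff]
    have hj : L'.get j ∈ L' := List.get_mem L' j
    rcases List.mem_cons.1 hj with h | h
    · rw [h]; trivial
    · rcases List.mem_append.1 h with h | h
      · obtain ⟨c, -, hc⟩ := List.mem_map.1 h
        rw [← hc]; trivial
      · exact hf _ h
  · rintro ⟨T, hT, N, hN, hper⟩
    have hT' : ∀ con ∈ L', TilesG T con.block := by
      intro con hcon
      obtain ⟨j, rfl⟩ := List.get_of_mem hcon
      exact hT j
    obtain ⟨f, rfl⟩ := exists_fun (n := n) T (hT' _ (by simp [L'])) (fun c => hT' _ (by simp [L']))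
    apply hno
    refine ⟨f, ?_, N, hN, ?_⟩
    · intro con hcon
      rw [← hiff]
      exact hT' _ (by simp [L', hcon])
    · intro w P
      apply Tf_period
      intro t ht
      have := hper (w, 0) t ht
      have e : N • ((w, 0) : G × (C → ℤ)) = (N • w, 0) := by ext <;> simp
      rw [e] at this
      exact this

end Cons

end Pool.Agent.BallTile.Enc
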