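import Pool.Agent.Lib.MP_0960bd_co.Model

/-!
# MP_0960bd_co, module A, part 3 (helper95): `SystemMain`
-/

set_option autoImplicit false

open Classical

namespace Pool.Agent.BallTile.Sys

/-- index type of the boolean unknowns -/
abbrev Ix := Fin 3 × Fin 8

/-- solutions of a boolean system with arbitrary index type -/
def Sol {J : Type} (I : Finset (J × (ℤ × ℤ) × Bool)) (Ω : Finset (J → Bool))
    (b : J → ℤ × ℤ → Bool) : Prop :=
  (∀ p ∈ I, ∀ x, b p.1 (x + p.2.1) = xor (b p.1 x) p.2.2) ∧ ∀ x, (fun j => b j x) ∈ Ω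

/-- decode a colour from three bits -/
def dec (c1 c2 d : Bool) : Color := (if c1 then 1 else if c2 then 2 else 0, d)

/-- colour `F` of a bit vector -/
def Fc (w : Ix → Bool) (α : Fin 3) : Color := dec (w (α, 0)) (w (α, 1)) (w (α, 2))

/-- colour `G` of a bit vector -/
def Gc (w : Ix → Bool) (α : Fin 3) : Color := dec (w (α, 3)) (w (α, 4)) (w (α, 5))

/-- the pointwise constraint -/
structure Good (w : Ix → Bool) : Prop where
  AF : ∀ (α : Fin 3) (a : ZMod 3) (s : Bool), Fc w (α + 1) = (a, s) → Fc w (α + 2) = (a, s) →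
      (Fc w α).1 = a + 1 ∨ ((Fc w α).1 = a ∧ (Fc w α).2 ≠ s)
  AG : ∀ (α : Fin 3) (a : ZMod 3) (s : Bool), Fc w (α + 1) = (a, s) → Fc w (α + 2) = (a, s) →
      (Gc w α).1 = a + 1 ∨ ((Gc w α).1 = a ∧ (Gc w α).2 ≠ s)
  Bi : ∀ (α : Fin 3) (a : ZMod 3), (Fc w α).1 = a → (Gc w α).1 = a →
      (Fc w (α + 1)).1 = a - 1 → (Fc w (α + 2)).1 = a - 1 → (Gc w α).2 ≠ (Fc w α).2
  Bii : ∀ (α : Fin 3) (a : ZMod 3), (Fc w α).1 = a → (Gc w α).1 = a →
      (Fc w (α + 1)).1 = a → (Gc w α).2 = (Fc w α).2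
  mark : ∀ α : Fin 3, w (α, 6) = true → (Fc w α).1 = 0 ∧ (Fc w α).2 = w (α, 7) ∧ (Gc w α).1 = 0
  par : xor (xor (w (0, 6)) (w (1, 6))) (w (2, 6)) = false

/-- the three linear forms -/
def co (x : ℤ × ℤ) : Fin 3 → ℤ := ![x.1, x.2, -x.1 - x.2]

/-- kernels of the forms `x_α` -/
def kF : Fin 3 → ℤ × ℤ := ![(0, 1), (1, 0), (1, -1)]

/-- kernels of the forms `x_α + 4 x_{α+1}` -/
def kG : Fin 3 → ℤ × ℤ := ![(-4, 1), (3, -4), (1, 3)]

/-- unit steps of `x_α` -/
def wS : Fin 3 → ℤ × ℤ := ![(1, 0), (0, 1), (0, -1)]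

/-- the list of requirements -/
noncomputable def Ireq : Finset (Ix × (ℤ × ℤ) × Bool) :=
  (Finset.univ.image fun j : Ix =>
      (j, (if j.2 = 3 ∨ j.2 = 4 ∨ j.2 = 5 then kG j.1 else kF j.1), false)) ∪
    (Finset.univ.image fun α : Fin 3 => (((α, 6) : Ix), wS α, true)) ∪
    (Finset.univ.image fun α : Fin 3 => (((α, 7) : Ix), (2 : ℤ) • wS α, true))

/-- the set of good bit vectors -/
noncomputable def Om : Finset (Ix → Bool) := Finset.univ.filter Good

theorem mem_Om (w : Ix → Bool) : w ∈ Om ↔ Good w := by simp [Om]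

section Extract

variable {b : Ix → ℤ × ℤ → Bool}

theorem reqF (h : Sol Ireq Om b) (α : Fin 3) (c : Fin 8) (hc : ¬ (c = 3 ∨ c = 4 ∨ c = 5)) :
    Function.Periodic (b (α, c)) (kF α) := by
  intro x
  have h1 : (((α, c) : Ix), kF α, false) ∈ Ireq := by
    unfold Ireq
    simp only [Finset.mem_union, Finset.mem_image, Finset.mem_univ, true_and]
    left; left
    exact ⟨(α, c), by simp [hc]⟩
  simpa using h.1 _ h1 x

theorem reqG (h : Sol Ireq Om b) (α : Fin 3) (c : Fin 8) (hc : c = 3 ∨ c = 4 ∨ c = 5) :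
    Function.Periodic (b (α, c)) (kG α) := by
  intro x
  have h1 : (((α, c) : Ix), kG α, false) ∈ Ireq := by
    unfold Ireq
    simp only [Finset.mem_union, Finset.mem_image, Finset.mem_univ, true_and]
    left; left
    exact ⟨(α, c), by simp [hc]⟩
  simpa using h.1 _ h1 x

theorem reqP (h : Sol Ireq Om b) (α : Fin 3) (x : ℤ × ℤ) :
    b (α, 6) (x + wS α) = !(b (α, 6) x) := by
  have h1 : (((α, 6) : Ix), wS α, true) ∈ Ireq := by
    unfold Ireq
    simp only [Finset.mem_union, Finset.mem_image, Finset.mem_univ, true_and]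
    left; right
    exact ⟨α, rfl⟩
  simpa using h.1 _ h1 x

theorem reqE (h : Sol Ireq Om b) (α : Fin 3) (x : ℤ × ℤ) :
    b (α, 7) (x + (2 : ℤ) • wS α) = !(b (α, 7) x) := by
  have h1 : (((α, 7) : Ix), (2 : ℤ) • wS α, true) ∈ Ireq := by
    unfold Ireq
    simp only [Finset.mem_union, Finset.mem_image, Finset.mem_univ, true_and]
    right
    exact ⟨α, rfl⟩
  simpa using h.1 _ h1 x

/-- a point with `x_α = n` -/
def secF (α : Fin 3) (n : ℤ) : ℤ × ℤ := n • wS α

/-- a point with `y_α = n` -/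
def secG : Fin 3 → ℤ → ℤ × ℤ := ![fun n => (n, 0), fun n => (-n, n), fun n => (0, -n)]

/-- the forms `y_α` -/
def yy (x : ℤ × ℤ) (α : Fin 3) : ℤ := co x α + 4 * co x (α + 1)

theorem splitF (x : ℤ × ℤ) (α : Fin 3) : ∃ k : ℤ, x = secF α (co x α) + k • kF α := by
  fin_cases α
  · exact ⟨x.2, by simp [secF, wS, co, kF]⟩
  · exact ⟨x.1, by simp [secF, wS, co, kF]⟩
  · exact ⟨x.1, by simp [secF, wS, co, kF]⟩

theorem splitG (x : ℤ × ℤ) (α : Fin 3) : ∃ k : ℤ, x = secG α (yy x α) + k • kG α := by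
  fin_cases α
  · refine ⟨x.2, ?_⟩
    simp [secG, yy, co, kG, Prod.ext_iff]
    ring
  · refine ⟨-(x.1 + x.2), ?_⟩
    simp [secG, yy, co, kG, Prod.ext_iff]
    constructor <;> ring
  · refine ⟨x.1, ?_⟩
    simp [secG, yy, co, kG, Prod.ext_iff]
    ring

theorem bF (h : Sol Ireq Om b) (α : Fin 3) (c : Fin 8) (hc : ¬ (c = 3 ∨ c = 4 ∨ c = 5))
    (x : ℤ × ℤ) : b (α, c) x = b (α, c) (secF α (co x α)) := by
  obtain ⟨k, hk⟩ := splitF x α
  have := (reqF h α c hc).zsmul k (secF α (co x α))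
  rw [← hk] at this
  exact this

theorem bG (h : Sol Ireq Om b) (α : Fin 3) (c : Fin 8) (hc : c = 3 ∨ c = 4 ∨ c = 5)
    (x : ℤ × ℤ) : b (α, c) x = b (α, c) (secG α (yy x α)) := by
  obtain ⟨k, hk⟩ := splitG x α
  have := (reqG h α c hc).zsmul k (secG α (yy x α))
  rw [← hk] at this
  exact this

/-- the function `F` of a solution -/
def FF (b : Ix → ℤ × ℤ → Bool) (α : Fin 3) (n : ℤ) : Color := Fc (fun j => b j (secF α n)) α

/-- the function `G` of a solution -/
def GG (b : Ix → ℤ × ℤ → Bool) (α : Fin 3) (n : ℤ) : Color := Gc (fun j => b j (secG α n)) α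

theorem Fc_eq (h : Sol Ireq Om b) (x : ℤ × ℤ) (α : Fin 3) :
    Fc (fun j => b j x) α = FF b α (co x α) := by
  unfold FF Fc
  simp only []
  rw [bF h α 0 (by decide) x, bF h α 1 (by decide) x, bF h α 2 (by decide) x]

theorem Gc_eq (h : Sol Ireq Om b) (x : ℤ × ℤ) (α : Fin 3) :
    Gc (fun j => b j x) α = GG b α (yy x α) := by
  unfold GG Gc
  simp only []
  rw [bG h α 3 (by decide) x, bG h α 4 (by decide) x, bG h α 5 (by decide) x]

theorem exists_pt (α : Fin 3) (p q : ℤ) : ∃ x : ℤ × ℤ, co x α = p ∧ co x (α + 1) = q ∧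
    co x (α + 2) = -p - q := by
  fin_cases α
  · exact ⟨(p, q), by simp [co]⟩
  · refine ⟨(-p - q, p), ?_⟩
    have h1 : (((1 : Fin 3)) + 1) = 2 := rfl
    have h2 : (((1 : Fin 3)) + 2) = 0 := rfl
    simp [co, h1, h2]
  · refine ⟨(q, -p - q), ?_⟩
    have h1 : (((2 : Fin 3)) + 1) = 0 := rfl
    have h2 : (((2 : Fin 3)) + 2) = 1 := rfl
    simp [co, h1, h2]
    ring

theorem imp_of_sol (h : Sol Ireq Om b) : Imp (FF b) (GG b) := by
  have hG : ∀ x, Good (fun j => b j x) := fun x => (mem_Om _).1 (h.2 x)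
  constructor
  · intro α p q a s h1 h2
    obtain ⟨x, x1, x2, x3⟩ := exists_pt α p q
    have := (hG x).AF α a s
    rw [Fc_eq h, Fc_eq h, Fc_eq h, x1, x2, x3] at this
    exact this h1 h2
  · intro α p q a s h1 h2
    obtain ⟨x, x1, x2, x3⟩ := exists_pt α p q
    have := (hG x).AG α a s
    rw [Fc_eq h, Fc_eq h, Gc_eq h, x2, x3, yy, x1, x2] at this
    exact this h1 h2
  · intro α p q a h1 h2 h3 h4
    obtain ⟨x, x1, x2, x3⟩ := exists_pt α p q
    have := (hG x).Bi α a
    rw [Fc_eq h, Fc_eq h, Fc_eq h, Gc_eq h, x2, x3, yy, x1, x2] at this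
    exact this h1 h2 h3 h4
  · intro α p q a h1 h2 h3
    obtain ⟨x, x1, x2, x3⟩ := exists_pt α p q
    have := (hG x).Bii α a
    rw [Fc_eq h, Fc_eq h, Gc_eq h, x2, yy, x1, x2] at this
    exact this h1 h2 h3

theorem co_sec (α : Fin 3) (n : ℤ) : co (secF α n) α = n := by
  fin_cases α <;> simp [co, secF, wS]

theorem P_alt (h : Sol Ireq Om b) (α : Fin 3) (n : ℤ) :
    b (α, 6) (secF α n) = xor (b (α, 6) (secF α 0)) (decide (n % 2 = 1)) := by
  refine alt (fun n => b (α, 6) (secF α n)) ?_ n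
  intro n
  have e : secF α (n + 1) = secF α n + wS α := by
    unfold secF; rw [add_smul, one_smul]
  simp only [e, reqP h]
  cases b (α, 6) (secF α n) <;> simp

/-- the initial offset -/
def r0 (b : Ix → ℤ × ℤ → Bool) : Fin 3 → ℤ :=
  ![(if b (0, 6) 0 then 1 else 0), (if b (1, 6) 0 then 1 else 0),
    - (if b (0, 6) 0 then 1 else 0) - (if b (1, 6) 0 then 1 else 0)]

theorem r0_par (h : Sol Ireq Om b) (α : Fin 3) :
    decide (r0 b α % 2 = 1) = b (α, 6) (secF α 0) := by
  have hs : ∀ α, secF α 0 = 0 := fun α => by simp [secF]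
  rw [hs]
  have hp := ((mem_Om _).1 (h.2 0)).par
  have h0 : decide (r0 b 0 % 2 = 1) = b (0, 6) 0 := by
    have : r0 b 0 = if b (0, 6) 0 then 1 else 0 := rfl
    rw [this]
    cases b (0, 6) 0 <;> simp
  have h1 : decide (r0 b 1 % 2 = 1) = b (1, 6) 0 := by
    have : r0 b 1 = if b (1, 6) 0 then 1 else 0 := rfl
    rw [this]
    cases b (1, 6) 0 <;> simp
  have h2 : decide (r0 b 2 % 2 = 1) = b (2, 6) 0 := by
    have : r0 b 2 = - (if b (0, 6) 0 then 1 else 0) - (if b (1, 6) 0 then 1 else 0) := rfl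
    rw [this]
    revert hp
    cases b (0, 6) 0 <;> cases b (1, 6) 0 <;> cases b (2, 6) 0 <;> simp
  fin_cases α
  · exact h0
  · exact h1
  · exact h2

theorem P_true (h : Sol Ireq Om b) (α : Fin 3) (x : ℤ) :
    b (α, 6) (secF α (r0 b α + (2 * x + 1))) = true := by
  rw [P_alt h, ← r0_par h]
  rcases Int.emod_two_eq_zero_or_one (r0 b α) with h' | h'
  · have : (r0 b α + (2 * x + 1)) % 2 = 1 := by omega
    simp [h', this]
  · have : (r0 b α + (2 * x + 1)) % 2 = 0 := by omega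
    simp [h', this]

theorem level_of_sol (h : Sol Ireq Om b) : Level (FF b) (GG b) 0 (r0 b) := by
  have hG : ∀ x, Good (fun j => b j x) := fun x => (mem_Om _).1 (h.2 x)
  constructor
  · simp [r0]
  · intro α x
    have := ((hG (secF α (r0 b α + (2 * x + 1)))).mark α (P_true h α x)).1
    rw [Fc_eq h, co_sec] at this
    exact this
  · intro α x
    have h1 := ((hG (secF α (r0 b α + (2 * x + 1)))).mark α (P_true h α x)).2.1
    have h2 := ((hG (secF α (r0 b α + (2 * (x + 1) + 1)))).mark α (P_true h α (x + 1))).2.1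
    rw [Fc_eq h, co_sec] at h1 h2
    rw [h1, h2]
    have e : secF α (r0 b α + (2 * (x + 1) + 1)) =
        secF α (r0 b α + (2 * x + 1)) + (2 : ℤ) • wS α := by
      unfold secF; rw [← add_smul]; congr 1; ring
    simp only [e, reqE h]
    cases b (α, 7) (secF α (r0 b α + (2 * x + 1))) <;> simp
  · intro α x
    obtain ⟨z, x1, x2, x3⟩ := exists_pt α (r0 b α + (2 * x + 1)) (r0 b (α + 1))
    have h0 : b (α, 6) z = true := by
      rw [bF h α 6 (by decide) z, x1]
      exact P_true h α x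
    have h1 := ((hG z).mark α h0).2.2
    rw [Gc_eq h, yy, x1, x2] at h1
    have e : r0 b α + 4 * r0 b (α + 1) + (2 * x + 1) =
        r0 b α + (2 * x + 1) + 4 * r0 b (α + 1) := by ring
    rw [e]
    exact h1

theorem no_periodic_sol (h : Sol Ireq Om b) (M : ℤ) (hM : 0 < M)
    (hper : ∀ j x, b j (x + (M, 0)) = b j x) : False := by
  obtain ⟨m, rfl⟩ := Int.eq_ofNat_of_zero_le hM.le
  refine aperiodic m (by exact_mod_cast hM) _ _ _ _ (imp_of_sol h) (level_of_sol h) ?_
  intro n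
  have e : secF 0 (n + (m : ℤ)) = secF 0 n + ((m : ℤ), 0) := by
    simp [secF, wS]
  unfold FF Fc
  simp only [e, hper]

end Extract

section Exist

/-- the integers `X_α` -/
def XX (x : ℤ × ℤ) : Fin 3 → ℤ := ![3 * x.1 - 1, 3 * x.2 - 1, - 3 * x.1 - 3 * x.2 + 2]

/-- the integers `Y_α` -/
def YY (x : ℤ × ℤ) (α : Fin 3) : ℤ := XX x α + 4 * XX x (α + 1)

theorem XX_mod (x : ℤ × ℤ) (α : Fin 3) : XX x α % 3 = 2 := by
  fin_cases α <;> simp [XX] <;> omega

theorem XX_sum (x : ℤ × ℤ) (α : Fin 3) : XX x α = - XX x (α + 1) - XX x (α + 2) := by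
  fin_cases α
  · simp [XX]; ring
  · have h1 : (((1 : Fin 3)) + 1) = 2 := rfl
    have h2 : (((1 : Fin 3)) + 2) = 0 := rfl
    simp [XX, h1, h2]; ring
  · have h1 : (((2 : Fin 3)) + 1) = 0 := rfl
    have h2 : (((2 : Fin 3)) + 2) = 1 := rfl
    simp [XX, h1, h2]; ring

theorem XX_kF (x : ℤ × ℤ) (α : Fin 3) : XX (x + kF α) α = XX x α := by
  fin_cases α <;> simp [XX, kF]
  ring

theorem YY_kG (x : ℤ × ℤ) (α : Fin 3) : YY (x + kG α) α = YY x α := by
  fin_cases α
  · simp [YY, XX, kG]; ring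
  · have h1 : (((1 : Fin 3)) + 1) = 2 := rfl
    simp [YY, XX, kG, h1]; ring
  · have h1 : (((2 : Fin 3)) + 1) = 0 := rfl
    simp [YY, XX, kG, h1]; ring

theorem XX_wS (x : ℤ × ℤ) (α : Fin 3) (k : ℤ) : XX (x + k • wS α) α = XX x α + 3 * k := by
  fin_cases α <;> simp [XX, wS] <;> ring

/-- the model -/
noncomputable def bm (j : Ix) (x : ℤ × ℤ) : Bool :=
  ![decide (cl (XX x j.1) = 1), decide (cl (XX x j.1) = 2), db (XX x j.1),
    decide (cl (YY x j.1) = 1), decide (cl (YY x j.1) = 2), db (YY x j.1),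
    decide (XX x j.1 % 2 = 1), decide (2 ≤ XX x j.1 % 4)] j.2

theorem dec_cl (a : ZMod 3) (d : Bool) : dec (decide (a = 1)) (decide (a = 2)) d = (a, d) := by
  unfold dec
  congr 1
  fin_cases a <;> rfl

theorem Fc_bm (x : ℤ × ℤ) (α : Fin 3) :
    Fc (fun j => bm j x) α = (cl (XX x α), db (XX x α)) := by
  unfold Fc
  exact dec_cl _ _

theorem Gc_bm (x : ℤ × ℤ) (α : Fin 3) :
    Gc (fun j => bm j x) α = (cl (YY x α), db (YY x α)) := by
  unfold Gc
  exact dec_cl _ _

theorem sol_bm : Sol Ireq Om bm := by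
  have nz : ∀ x α, XX x α ≠ 0 := by
    intro x α h
    have := XX_mod x α
    omega
  constructor
  · rintro ⟨⟨α, c⟩, v, e⟩ hp x
    unfold Ireq at hp
    simp only [Finset.mem_union, Finset.mem_image, Finset.mem_univ, true_and] at hp
    rcases hp with (⟨⟨α', c'⟩, hp⟩ | ⟨α', hp⟩) | ⟨α', hp⟩
    · simp only [Prod.mk.injEq] at hp
      obtain ⟨⟨rfl, rfl⟩, hv, rfl⟩ := hp
      simp only [Bool.xor_false]
      subst hv
      fin_cases c'
      · simp [bm, XX_kF]
      · simp [bm, XX_kF]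
      · simp [bm, XX_kF]
      · simp [bm, YY_kG]
      · simp [bm, YY_kG]
      · simp [bm, YY_kG]
      · simp [bm, XX_kF]
      · simp [bm, XX_kF]
    · simp only [Prod.mk.injEq] at hp
      obtain ⟨⟨rfl, rfl⟩, rfl, rfl⟩ := hp
      have := XX_wS x α' 1
      rw [one_smul] at this
      simp only [Bool.xor_true]
      change decide (XX (x + wS α') α' % 2 = 1) = !(decide (XX x α' % 2 = 1))
      rw [this]
      rcases Int.emod_two_eq_zero_or_one (XX x α') with h' | h'
      · have : (XX x α' + 3 * 1) % 2 = 1 := by omega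
        simp only [h', this]; decide
      · have : (XX x α' + 3 * 1) % 2 = 0 := by omega
        simp only [h', this]; decide
    · simp only [Prod.mk.injEq] at hp
      obtain ⟨⟨rfl, rfl⟩, rfl, rfl⟩ := hp
      have := XX_wS x α' 2
      simp only [Bool.xor_true]
      change decide (2 ≤ XX (x + (2 : ℤ) • wS α') α' % 4) = !(decide (2 ≤ XX x α' % 4))
      rw [this]
      by_cases h' : 2 ≤ XX x α' % 4
      · have : ¬ (2 ≤ (XX x α' + 3 * 2) % 4) := by omega
        simp only [h', this, decide_true, decide_false, Bool.not_true]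
      · have : (2 ≤ (XX x α' + 3 * 2) % 4) := by omega
        simp only [h', this, decide_true, decide_false, Bool.not_false]
  · intro x
    rw [mem_Om]
    constructor
    · intro α a s h1 h2
      rw [Fc_bm] at *
      simp only [Prod.mk.injEq] at h1 h2
      have := coreA 1 (XX x (α + 1)) (XX x (α + 2)) (XX x α) (by norm_num) (nz _ _) (nz _ _)
        (by rw [XX_sum x α]; ring) (by rw [h1.1, h2.1]) (by rw [h1.2, h2.2])
      rw [h1.1, h1.2] at this
      exact this
    · intro α a s h1 h2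
      rw [Fc_bm] at h1 h2
      rw [Gc_bm]
      simp only [Prod.mk.injEq] at h1 h2
      have := coreA (-3) (XX x (α + 1)) (XX x (α + 2)) (YY x α) (by norm_num) (nz _ _) (nz _ _)
        (by unfold YY; rw [XX_sum x α]; ring) (by rw [h1.1, h2.1]) (by rw [h1.2, h2.2])
      rw [h1.1, h1.2] at this
      exact this
    · intro α a h1 h2 h3 h4
      rw [Fc_bm] at *
      rw [Gc_bm] at *
      simp only at h1 h2 h3 h4
      exact coreBi _ _ _ (nz x α) (nz x (α + 1)) (nz x (α + 2)) (XX_sum x α)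
        (by rw [h3, h1]; ring) (by rw [h4, h1]; ring) (by rw [h1]; exact h2)
    · intro α a h1 h2 h3
      rw [Fc_bm] at *
      rw [Gc_bm] at *
      simp only at h1 h2 h3
      exact coreBii _ _ (nz x α) (nz x (α + 1)) (by rw [h3, h1]) (by rw [h1]; exact h2)
    · intro α h
      change decide (XX x α % 2 = 1) = true at h
      rw [decide_eq_true_eq] at h
      have e1 := cl_eq 0 _ h
      have e2 := db_eq 0 _ h
      have h' : YY x α % 2 = 1 := by unfold YY; omega
      have e3 := cl_eq 0 _ h'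
      rw [pow_zero, one_mul] at e1 e2 e3
      rw [Fc_bm, Gc_bm, e1, e2, e3]
      refine ⟨rfl, ?_, rfl⟩
      change decide (XX x α % 4 = 3) = decide (2 ≤ XX x α % 4)
      rw [decide_eq_decide]
      omega
    · change xor (xor (decide (XX x 0 % 2 = 1)) (decide (XX x 1 % 2 = 1)))
        (decide (XX x 2 % 2 = 1)) = false
      have := XX_sum x 0
      have h1 : (((0 : Fin 3)) + 1) = 1 := rfl
      have h2 : (((0 : Fin 3)) + 2) = 2 := rfl
      rw [h1, h2] at this
      rcases Int.emod_two_eq_zero_or_one (XX x 1) with h | h <;>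
      rcases Int.emod_two_eq_zero_or_one (XX x 2) with h' | h'
      · have : XX x 0 % 2 = 0 := by omega
        simp [h, h', this]
      · have : XX x 0 % 2 = 1 := by omega
        simp [h, h', this]
      · have : XX x 0 % 2 = 1 := by omega
        simp [h, h', this]
      · have : XX x 0 % 2 = 0 := by omega
        simp [h, h', this]

end Exist

end Pool.Agent.BallTile.Sys

namespace Pool.Agent.BallTile

/-- Module A. -/
theorem systemMain : SystemMain := by
  let e : Fin 24 ≃ Sys.Ix := (finProdFinEquiv (m := 3) (n := 8)).symm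
  refine ⟨24, Sys.Ireq.image fun p => (e.symm p.1, p.2), Sys.Om.image fun w => w ∘ e, ?_, ?_⟩
  · refine ⟨fun j => Sys.bm (e j), ?_, ?_⟩
    · intro p hp x
      obtain ⟨q, hq, rfl⟩ := Finset.mem_image.1 hp
      have := Sys.sol_bm.1 q hq x
      simpa using this
    · intro x
      exact Finset.mem_image.2 ⟨_, Sys.sol_bm.2 x, rfl⟩
  · rintro ⟨b, hb, M, hM, hper⟩
    have hsol : Sys.Sol Sys.Ireq Sys.Om (fun j => b (e.symm j)) := by
      constructor
      · intro p hp x
        exact hb.1 (e.symm p.1, p.2) (Finset.mem_image.2 ⟨p, hp, rfl⟩) x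
      · intro x
        obtain ⟨w, hw, hw'⟩ := Finset.mem_image.1 (hb.2 x)
        have : (fun j => b (e.symm j) x) = w := by
          funext j
          have := congrFun hw' (e.symm j)
          simpa using this.symm
        rw [this]; exact hw
    exact Sys.no_periodic_sol hsol M hM (fun j x => (hper (e.symm j) x).1)

end Pool.Agent.BallTile
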