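import Pool.Agent.Lib.MP_0960bd_co.Enc
import Pool.Agent.Lib.MP_0960bd_co.SysMain

/-!
# MP_0960bd_co, module B, part 2 (helper95): `SystemMain → DiscreteMain`
-/

set_option autoImplicit false

open Classical

namespace Pool.Agent.BallTile.Enc

section Main

variable {J : Type} [Fintype J] (I : Finset (J × (ℤ × ℤ) × Bool)) (Ω : Finset (J → Bool))

/-- components -/
abbrev Cmp : Type := J ⊕ (Ω ⊕ (I ⊕ Unit))

/-- position group -/
abbrev Pos : Type := (ℤ × ℤ) × (ℤ × ℤ)

/-- half of the modulus -/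
def hh : ℕ := Ω.card + 2

/-- the modulus -/
def nn : ℕ := 2 * hh Ω

instance : NeZero (nn Ω) := ⟨by unfold nn hh; omega⟩

/-- colours -/
abbrev Col : Type := Cmp I Ω → ZMod (nn Ω)

variable {I Ω}

/-- component of the bit `j` -/
def cM (j : J) : Cmp I Ω := Sum.inl j
/-- component of the vector `ω` -/
def cO (ω : Ω) : Cmp I Ω := Sum.inr (Sum.inl ω)
/-- parity component of the requirement `p` -/
def cP (p : I) : Cmp I Ω := Sum.inr (Sum.inr (Sum.inl p))
/-- common parity component -/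
def cS : Cmp I Ω := Sum.inr (Sum.inr (Sum.inr ()))

/-- parity -/
def par : ZMod (nn Ω) →+ ZMod 2 := (ZMod.castHom (Dvd.intro _ rfl : 2 ∣ nn Ω) (ZMod 2)).toAddMonoidHom

omit [Fintype J] in
theorem par_int (m : ℤ) : par (Ω := Ω) (m : ZMod (nn Ω)) = (m : ZMod 2) := by
  change (ZMod.castHom (Dvd.intro _ rfl : 2 ∣ nn Ω) (ZMod 2)) (m : ZMod (nn Ω)) = _
  exact map_intCast _ _

/-- evaluation -/
def ev (c : Cmp I Ω) : Col I Ω →+ ZMod (nn Ω) := Pi.evalAddMonoidHom _ c

/-- parity of a component -/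
def pev (c : Cmp I Ω) : Col I Ω →+ ZMod 2 := par.comp (ev c)

/-- step `i` -/
def e2 : Pos := (0, (1, 0))
/-- step `k` -/
def e3 : Pos := (0, (0, 1))

/-- constraints attached to a requirement -/
noncomputable def reqCon (p : I) : List (Con Pos (Cmp I Ω) (nn Ω)) :=
  if p.1.2.2 = true then
    [Con.inc (e2 + e3) (pev (cP p)).ker (Pi.single (cP p) 1),
     Con.inc (e2 - e3) (pev (cP p)).ker 0,
     Con.inc (e2 - (p.1.2.1, 0)) (pev (cP p)).ker 0,
     Con.inc e2 (pev (cM p.1.1) + pev (cP p) + pev cS).ker 0]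
  else [Con.inc (p.1.2.1, 0) (ev (cM p.1.1)).ker 0]

/-- all constraints -/
noncomputable def cons (ω₀ : Ω) : List (Con Pos (Cmp I Ω) (nn Ω)) :=
  (Finset.univ.toList.map fun j : J => (Con.bool (cM j) e2 e3)) ++
  (Finset.univ.toList.map fun ω : Ω => (Con.bool (cO ω) e2 e3)) ++
  (Finset.univ.toList.map fun j : J =>
    (Con.inc e2 (ev (cM j) - ∑ ω ∈ Finset.univ.filter (fun ω : Ω => ω.1 j = true), ev (cO ω)).ker 0)) ++
  [Con.inc e2 (∑ ω : Ω, ev (cO ω)).ker (Pi.single (cO ω₀) (-1)),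
   Con.inc (e2 + e3) (pev cS).ker (Pi.single cS 1),
   Con.inc (e2 - e3) (pev cS).ker 0,
   Con.inc ((1, 0), 0) (pev cS).ker 0,
   Con.inc ((0, 1), 0) (pev cS).ker 0] ++
  (Finset.univ.toList.flatMap fun p : I => reqCon p)


section MemCons

variable (ω₀ : Ω)

theorem mem_boolM (j : J) : (Con.bool (cM j) e2 e3 : Con Pos (Cmp I Ω) (nn Ω)) ∈ cons ω₀ := by
  simp [cons]

theorem mem_boolO (ω : Ω) : (Con.bool (cO ω) e2 e3 : Con Pos (Cmp I Ω) (nn Ω)) ∈ cons ω₀ := by
  simp [cons]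

theorem mem_inc (j : J) : (Con.inc e2 (ev (cM j) -
    ∑ ω ∈ Finset.univ.filter (fun ω : Ω => ω.1 j = true), ev (cO ω)).ker 0 :
    Con Pos (Cmp I Ω) (nn Ω)) ∈ cons ω₀ := by
  unfold cons
  simp only [List.mem_append]
  left; left; right
  exact List.mem_map.2 ⟨j, by simp, rfl⟩

theorem mem_hot : (Con.inc e2 (∑ ω : Ω, ev (cO ω)).ker (Pi.single (cO ω₀) (-1)) :
    Con Pos (Cmp I Ω) (nn Ω)) ∈ cons ω₀ := by
  unfold cons
  simp only [List.mem_append]
  left; right
  simp only [List.mem_cons, true_or]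

theorem mem_s1 : (Con.inc (e2 + e3) (pev cS).ker (Pi.single cS 1) :
    Con Pos (Cmp I Ω) (nn Ω)) ∈ cons ω₀ := by
  unfold cons
  simp only [List.mem_append]
  left; right
  simp only [List.mem_cons, true_or, or_true]

theorem mem_s2 : (Con.inc (e2 - e3) (pev cS).ker 0 :
    Con Pos (Cmp I Ω) (nn Ω)) ∈ cons ω₀ := by
  unfold cons
  simp only [List.mem_append]
  left; right
  simp only [List.mem_cons, true_or, or_true]

theorem mem_s3 : (Con.inc ((1, 0), 0) (pev cS).ker 0 :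
    Con Pos (Cmp I Ω) (nn Ω)) ∈ cons ω₀ := by
  unfold cons
  simp only [List.mem_append]
  left; right
  simp only [List.mem_cons, true_or, or_true]

theorem mem_s4 : (Con.inc ((0, 1), 0) (pev cS).ker 0 :
    Con Pos (Cmp I Ω) (nn Ω)) ∈ cons ω₀ := by
  unfold cons
  simp only [List.mem_append]
  left; right
  simp only [List.mem_cons, true_or, or_true]

theorem mem_req (p : I) (con : Con Pos (Cmp I Ω) (nn Ω)) (h : con ∈ reqCon p) :
    con ∈ cons ω₀ := by
  unfold cons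
  simp only [List.mem_append]
  right
  exact List.mem_flatMap.2 ⟨p, by simp, h⟩

end MemCons

section Extract

variable {ω₀ : Ω} {f : Pos → Cmp I Ω → ZMod (nn Ω)}

/-- slope bit -/
def bet (f : Pos → Cmp I Ω → ZMod (nn Ω)) (c : Cmp I Ω) (P : Pos) : Bool :=
  decide (f (P - e2) c ≠ f P c)

omit [Fintype J] in
theorem one_ne : (1 : ZMod (nn Ω)) ≠ 0 := by
  intro h
  have : ((1 : ℕ) : ZMod (nn Ω)) = 0 := by exact_mod_cast h
  rw [ZMod.natCast_eq_zero_iff] at this
  have := Nat.le_of_dvd (by norm_num) this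
  unfold nn hh at this
  omega

omit [Fintype J] in
theorem bet_spec {c : Cmp I Ω} (h : (Con.bool c e2 e3 : Con Pos (Cmp I Ω) (nn Ω)).Sat f) (P : Pos) :
    f (P - e2) c = f P c + (if bet f c P = true then 1 else 0) := by
  unfold bet
  rcases h P with ⟨h1, -⟩ | ⟨h1, -⟩
  · simp [h1]
  · rw [h1]
    have : f P c + 1 ≠ f P c := by
      intro h'
      exact one_ne (Ω := Ω) (by simpa using h')
    simp [this]

omit [Fintype J] in
theorem ker_pev {c : Cmp I Ω} {g : Pos} {e₁ : Col I Ω}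
    (h : (Con.inc g (pev c).ker e₁ : Con Pos (Cmp I Ω) (nn Ω)).Sat f) (P : Pos) :
    pev c (f P) = pev c (f (P - g)) + pev c e₁ := by
  have := h P
  rw [AddMonoidHom.mem_ker, map_sub, map_sub] at this
  rw [← sub_eq_zero, ← this]; ring

omit [Fintype J] in
theorem pev_single (c : Cmp I Ω) : pev c (Pi.single c 1) = 1 := by
  change par (Ω := Ω) ((Pi.single c 1 : Col I Ω) c) = 1
  rw [Pi.single_eq_same]
  have := par_int (Ω := Ω) 1
  simpa using this

/-- the extracted bits -/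
def bx (f : Pos → Cmp I Ω → ZMod (nn Ω)) (j : J) (x : ℤ × ℤ) : Bool := bet f (cM j) (x, 0)

theorem ext_false (hf : ∀ con ∈ cons ω₀, con.Sat f) (p : I) (hp : p.1.2.2 = false) (x : ℤ × ℤ) :
    bx f p.1.1 (x + p.1.2.1) = bx f p.1.1 x := by
  have h := hf _ (mem_req ω₀ p (Con.inc (p.1.2.1, 0) (ev (cM p.1.1)).ker 0) (by
    unfold reqCon; simp [hp]))
  have key : ∀ P : Pos, f (P + (p.1.2.1, 0)) (cM p.1.1) = f P (cM p.1.1) := by
    intro P
    have := h (P + (p.1.2.1, 0))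
    rw [AddMonoidHom.mem_ker, add_sub_cancel_right, sub_zero] at this
    have h2 : f (P + (p.1.2.1, 0)) (cM p.1.1) - f P (cM p.1.1) = 0 := this
    exact sub_eq_zero.1 h2
  unfold bx bet
  have e1 : (((x + p.1.2.1, 0) : Pos)) = (x, 0) + (p.1.2.1, 0) := by ext <;> simp
  have e2' : (((x + p.1.2.1, 0) : Pos)) - e2 = ((x, 0) - e2) + (p.1.2.1, 0) := by
    rw [e1]; abel
  rw [e2', e1, key, key]

theorem ext_true (hf : ∀ con ∈ cons ω₀, con.Sat f) (p : I) (hp : p.1.2.2 = true) (x : ℤ × ℤ) :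
    bx f p.1.1 (x + p.1.2.1) = !(bx f p.1.1 x) := by
  have hs1 := ker_pev (hf _ (mem_s1 ω₀))
  have hs2 := ker_pev (hf _ (mem_s2 ω₀))
  have hs3 := ker_pev (hf _ (mem_s3 ω₀))
  have hs4 := ker_pev (hf _ (mem_s4 ω₀))
  have hm1 := ker_pev (hf _ (mem_req ω₀ p (Con.inc (e2 + e3) (pev (cP p)).ker
    (Pi.single (cP p) 1)) (by unfold reqCon; simp [hp])))
  have hm2 := ker_pev (hf _ (mem_req ω₀ p (Con.inc (e2 - e3) (pev (cP p)).ker 0)
    (by unfold reqCon; simp [hp])))
  have hm3 := ker_pev (hf _ (mem_req ω₀ p (Con.inc (e2 - (p.1.2.1, 0)) (pev (cP p)).ker 0)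
    (by unfold reqCon; simp [hp])))
  have hr := hf _ (mem_req ω₀ p (Con.inc e2 (pev (cM p.1.1) + pev (cP p) + pev cS).ker 0)
    (by unfold reqCon; simp [hp]))
  simp only [map_zero, add_zero] at hs2 hs3 hs4 hm2 hm3
  rw [pev_single] at hs1 hm1
  have hb := bet_spec (hf _ (mem_boolM ω₀ p.1.1))
  set v := p.1.2.1 with hv
  set j := p.1.1 with hj
  -- `s` is invariant in the first two directions
  have ps3 : Function.Periodic (fun P => pev cS (f P)) (((1, 0), 0) : Pos) := by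
    intro P
    have := hs3 (P + ((1, 0), 0))
    rw [add_sub_cancel_right] at this
    exact this
  have ps4 : Function.Periodic (fun P => pev cS (f P)) (((0, 1), 0) : Pos) := by
    intro P
    have := hs4 (P + ((0, 1), 0))
    rw [add_sub_cancel_right] at this
    exact this
  have hsv : ∀ P : Pos, pev cS (f (P + (v, 0))) = pev cS (f P) := by
    intro P
    have e : P + ((v, 0) : Pos) = (P + v.1 • (((1, 0), 0) : Pos)) + v.2 • (((0, 1), 0) : Pos) := by
      ext <;> simp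
    rw [e]
    have h1 := (ps4.zsmul v.2) (P + v.1 • (((1, 0), 0) : Pos))
    have h2 := (ps3.zsmul v.1) P
    exact h1.trans h2
  have hr' : ∀ P : Pos, pev (cM j) (f P) + pev (cP p) (f P) + pev cS (f P) =
      pev (cM j) (f (P - e2)) + pev (cP p) (f (P - e2)) + pev cS (f (P - e2)) := by
    intro P
    have := hr P
    rw [AddMonoidHom.mem_ker, sub_zero] at this
    have h2 : pev (cM j) (f P - f (P - e2)) + pev (cP p) (f P - f (P - e2)) +
      pev cS (f P - f (P - e2)) = 0 := this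
    simp only [map_sub] at h2
    rw [← sub_eq_zero, ← h2]; ring
  have hh' : ∀ P : Pos, pev (cM j) (f (P - e2)) = pev (cM j) (f P) +
      (if bet f (cM j) P = true then 1 else 0) := by
    intro P
    change par (f (P - e2) (cM j)) = par (f P (cM j)) + _
    rw [hb P, map_add]
    congr 1
    cases bet f (cM j) P
    · simp
    · have := par_int (Ω := Ω) 1
      simpa using this
  have hm4 : ∀ P : Pos, pev (cP p) (f (P + e2)) = pev (cP p) (f (P - e2)) + 1 := by
    intro P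
    have e : P + e2 - (e2 + e3) - (e2 - e3) = P - e2 := by abel
    rw [hm1 (P + e2), hm2 (P + e2 - (e2 + e3)), e]
  have hm5 : ∀ P : Pos, pev (cP p) (f (P + (v, 0))) = pev (cP p) (f (P + e2)) := by
    intro P
    rw [hm3 (P + e2)]
    congr 3
    abel
  have hsum : ∀ P : Pos, (if bet f (cM j) (P + (v, 0)) = true then (1 : ZMod 2) else 0) +
      (if bet f (cM j) P = true then 1 else 0) = 1 := by
    intro P
    have a1 := hr' P
    have a2 := hr' (P + (v, 0))
    rw [hh'] at a1 a2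
    have e : P + ((v, 0) : Pos) - e2 = (P - e2) + (v, 0) := by abel
    rw [e] at a2
    rw [hsv, hsv, hm5, hm5, hm4] at a2
    rw [sub_add_cancel] at a2
    have two : (2 : ZMod 2) = 0 := by decide
    linear_combination (-1 : ZMod 2) * a1 + (-1 : ZMod 2) * a2 +
      (pev cS (f P) - pev cS (f (P - e2))) * two
  have h1 := hsum (x, 0)
  have e1 : (((x, 0) : Pos)) + (v, 0) = (x + v, 0) := by ext <;> simp
  rw [e1] at h1
  unfold bx
  revert h1
  cases bet f (cM j) ((x + v, 0) : Pos) <;> cases bet f (cM j) ((x, 0) : Pos) <;> simp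

theorem ext_omega (hf : ∀ con ∈ cons ω₀, con.Sat f) (x : ℤ × ℤ) : (fun j => bx f j x) ∈ Ω := by
  have hO := fun ω : Ω => bet_spec (hf _ (mem_boolO ω₀ ω)) ((x, 0) : Pos)
  have hM := fun j : J => bet_spec (hf _ (mem_boolM ω₀ j)) ((x, 0) : Pos)
  have h1 := hf _ (mem_hot ω₀) ((x, 0) : Pos)
  have h2 := fun j => hf _ (mem_inc ω₀ j) ((x, 0) : Pos)
  -- exactly one `ω` is hot
  have hsum : ∑ ω : Ω, (if bet f (cO ω) ((x, 0) : Pos) = true then (1 : ZMod (nn Ω)) else 0) = 1 := by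
    rw [AddMonoidHom.mem_ker, AddMonoidHom.finsetSum_apply] at h1
    have : ∀ ω : Ω, ev (cO ω) (f (x, 0) - f ((x, 0) - e2) - Pi.single (cO ω₀) (-1)) =
        - (if bet f (cO ω) ((x, 0) : Pos) = true then (1 : ZMod (nn Ω)) else 0) +
        (if ω = ω₀ then 1 else 0) := by
      intro ω
      change f (x, 0) (cO ω) - f ((x, 0) - e2) (cO ω) - (Pi.single (cO ω₀) (-1) : Col I Ω) (cO ω) = _
      rw [hO ω]
      by_cases h : ω = ω₀
      · subst h
        rw [Pi.single_eq_same]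
        simp
      · rw [Pi.single_eq_of_ne (by
          intro h'
          apply h
          simpa [cO] using h')]
        simp [h]
    rw [Finset.sum_congr rfl (fun ω _ => this ω), Finset.sum_add_distrib] at h1
    simp only [Finset.sum_neg_distrib, Finset.sum_ite_eq', Finset.mem_univ, if_true] at h1
    rw [neg_add_eq_zero] at h1
    exact h1
  rw [Finset.sum_boole] at hsum
  have hcard : (Finset.univ.filter fun ω : Ω => bet f (cO ω) ((x, 0) : Pos) = true).card = 1 := by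
    have h3 : (((Finset.univ.filter fun ω : Ω => bet f (cO ω) ((x, 0) : Pos) = true).card : ℕ) :
        ZMod (nn Ω)) = ((1 : ℕ) : ZMod (nn Ω)) := by rw [hsum]; simp
    rw [ZMod.natCast_eq_natCast_iff'] at h3
    have h4 : (Finset.univ.filter fun ω : Ω => bet f (cO ω) ((x, 0) : Pos) = true).card ≤ Ω.card := by
      refine (Finset.card_le_univ _).trans ?_
      simp
    rw [Nat.mod_eq_of_lt (by unfold nn hh; omega), Nat.mod_eq_of_lt (by unfold nn hh; omega)] at h3
    exact h3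
  obtain ⟨ω, hω⟩ := Finset.card_eq_one.1 hcard
  have hω' : ∀ ω', bet f (cO ω') ((x, 0) : Pos) = true ↔ ω' = ω := by
    intro ω'
    have := Finset.ext_iff.1 hω ω'
    simpa using this
  have : (fun j => bx f j x) = ω.1 := by
    funext j
    have h3 := h2 j
    rw [AddMonoidHom.mem_ker, sub_zero] at h3
    rw [AddMonoidHom.sub_apply, AddMonoidHom.finsetSum_apply] at h3
    have h4 : ∀ c : Cmp I Ω, ev c (f (x, 0) - f ((x, 0) - e2)) = f (x, 0) c - f ((x, 0) - e2) c :=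
      fun c => rfl
    simp only [h4, hO, hM, sub_add_cancel_left] at h3
    rw [Finset.sum_neg_distrib, sub_neg_eq_add, neg_add_eq_zero] at h3
    have h5 : ∑ ω' ∈ Finset.univ.filter (fun ω' : Ω => ω'.1 j = true),
        (if bet f (cO ω') ((x, 0) : Pos) = true then (1 : ZMod (nn Ω)) else 0) =
        if ω.1 j = true then 1 else 0 := by
      simp only [hω']
      rw [Finset.sum_ite_eq']
      simp
    rw [h5] at h3
    change bet f (cM j) (x, 0) = ω.1 j
    revert h3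
    cases bet f (cM j) ((x, 0) : Pos) <;> cases ω.1 j
    · simp
    · intro h3
      exact absurd (by simpa using h3.symm) (one_ne (Ω := Ω))
    · intro h3
      exact absurd (by simpa using h3) (one_ne (Ω := Ω))
    · simp
  rw [this]
  exact ω.2

end Extract

section Exist

/-- triangular numbers -/
def tri (u : ℤ) : ℤ := u * (u - 1) / 2

theorem tri_succ (u : ℤ) : tri (u + 1) = tri u + u := by
  unfold tri
  have : (u + 1) * (u + 1 - 1) = u * (u - 1) + u * 2 := by ring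
  rw [this, Int.add_mul_ediv_right _ _ (by norm_num)]

/-- a function with `q (x + v) = q x + 1` -/
def qv (v x : ℤ × ℤ) : ℤ := if v.1 ≠ 0 then x.1 / v.1 else x.2 / v.2

theorem qv_add (v x : ℤ × ℤ) (hv : v ≠ 0) : qv v (x + v) = qv v x + 1 := by
  unfold qv
  by_cases h : v.1 ≠ 0
  · rw [if_pos h, if_pos h, Prod.fst_add]
    have := Int.add_mul_ediv_right x.1 1 h
    rw [one_mul] at this
    exact this
  · rw [if_neg h, if_neg h, Prod.snd_add]
    have h2 : v.2 ≠ 0 := by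
      intro h2
      apply hv
      push Not at h
      exact Prod.ext h h2
    have := Int.add_mul_ediv_right x.2 1 h2
    rw [one_mul] at this
    exact this

/-- integer value of a bit -/
def bi (β : Bool) : ℤ := if β then 1 else 0

variable (b : J → ℤ × ℤ → Bool) (om : ℤ × ℤ → Ω)

/-- integer model -/
noncomputable def Fm (P : Pos) : Cmp I Ω → ℤ
  | .inl j => - bi (b j P.1) * (P.2.1 - P.2.2)
  | .inr (.inl ω) => - (if ω = om P.1 then 1 else 0) * (P.2.1 - P.2.2)
  | .inr (.inr (.inl p)) =>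
      qv p.1.2.1 P.1 * bi (b p.1.1 P.1) + tri (qv p.1.2.1 P.1 + 1) +
        (P.2.1 + P.2.2) * bi (b p.1.1 P.1) + tri (P.2.1 + P.2.2)
  | .inr (.inr (.inr ())) => tri (P.2.1 + P.2.2)

/-- the model -/
noncomputable def fm (P : Pos) (c : Cmp I Ω) : ZMod (nn Ω) := (Fm (I := I) b om P c : ℤ)

variable {b om}

theorem pev_int (c : Cmp I Ω) (F : Cmp I Ω → ℤ) :
    pev c (fun c => ((F c : ℤ) : ZMod (nn Ω))) = (F c : ZMod 2) := par_int _

theorem two_zero (m : ℤ) (h : 2 ∣ m) : (m : ZMod 2) = 0 :=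
  (ZMod.intCast_zmod_eq_zero_iff_dvd m 2).2 (by exact_mod_cast h)

theorem sat_pev {c : Cmp I Ω} {g : Pos} {e : Cmp I Ω → ℤ}
    (h : ∀ P : Pos, 2 ∣ Fm (I := I) b om P c - Fm (I := I) b om (P - g) c - e c) :
    (Con.inc g (pev c).ker (fun c => ((e c : ℤ) : ZMod (nn Ω))) :
      Con Pos (Cmp I Ω) (nn Ω)).Sat (fm b om) := by
  intro P
  rw [AddMonoidHom.mem_ker]
  have : (fm (I := I) b om P - fm b om (P - g) - fun c => ((e c : ℤ) : ZMod (nn Ω))) =
      fun c => (((Fm (I := I) b om P c - Fm (I := I) b om (P - g) c - e c : ℤ)) :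
        ZMod (nn Ω)) := by
    funext c
    simp [fm]
  rw [this, pev_int c (fun c => Fm (I := I) b om P c - Fm (I := I) b om (P - g) c - e c)]
  exact two_zero _ (h P)

theorem zero_eq : (0 : Col I Ω) = fun c => (((0 : Cmp I Ω → ℤ) c : ℤ) : ZMod (nn Ω)) := by
  funext c; simp

theorem single_eq (c₀ : Cmp I Ω) (m : ℤ) : (Pi.single c₀ (m : ZMod (nn Ω)) : Col I Ω) =
    fun c => (((Pi.single c₀ m : Cmp I Ω → ℤ) c : ℤ) : ZMod (nn Ω)) := by
  funext c
  by_cases h : c = c₀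
  · subst h; simp
  · simp [h]

theorem single_eq1 (c₀ : Cmp I Ω) : (Pi.single c₀ 1 : Col I Ω) =
    fun c => (((Pi.single c₀ 1 : Cmp I Ω → ℤ) c : ℤ) : ZMod (nn Ω)) := by
  have := single_eq c₀ 1
  simpa using this

theorem bi_not (β : Bool) : bi (!β) = 1 - bi β := by cases β <;> rfl

theorem hsub (P : Pos) : (P - e2).1 = P.1 ∧ (P - e2).2.1 = P.2.1 - 1 ∧ (P - e2).2.2 = P.2.2 := by
  simp [e2]

theorem hsub3 (P : Pos) :
    (P - e3).1 = P.1 ∧ (P - e3).2.1 = P.2.1 ∧ (P - e3).2.2 = P.2.2 - 1 := by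
  simp [e3]

theorem sat_bool (c : Cmp I Ω) (B : ℤ × ℤ → ℤ) (hB : ∀ x, B x = 0 ∨ B x = 1)
    (hF : ∀ P, Fm (I := I) b om P c = - B P.1 * (P.2.1 - P.2.2)) :
    (Con.bool c e2 e3 : Con Pos (Cmp I Ω) (nn Ω)).Sat (fm (I := I) b om) := by
  intro P
  unfold fm
  obtain ⟨a1, a2, a3⟩ := hsub P
  obtain ⟨b1, b2, b3⟩ := hsub3 P
  rcases hB P.1 with h | h
  · left
    rw [hF, hF, hF, a1, b1, h]; simp
  · right
    rw [hF, hF, hF, a1, a2, a3, b1, b2, b3, h]
    push_cast
    constructor <;> ring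

theorem sat_bit (hom : ∀ x, (om x).1 = fun j => b j x) (j : J) :
    (Con.inc e2 (ev (cM j) -
      ∑ ω ∈ Finset.univ.filter (fun ω : Ω => ω.1 j = true), ev (cO ω)).ker 0 :
      Con Pos (Cmp I Ω) (nn Ω)).Sat (fm (I := I) b om) := by
  intro P
  rw [sub_zero, AddMonoidHom.mem_ker, AddMonoidHom.sub_apply, AddMonoidHom.finsetSum_apply]
  obtain ⟨a1, a2, a3⟩ := hsub P
  have h1 : ev (cM j) (fm (I := I) b om P - fm b om (P - e2)) =
      ((- bi (b j P.1) : ℤ) : ZMod (nn Ω)) := by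
    change ((- bi (b j P.1) * (P.2.1 - P.2.2) : ℤ) : ZMod (nn Ω)) -
      ((- bi (b j (P - e2).1) * ((P - e2).2.1 - (P - e2).2.2) : ℤ) : ZMod (nn Ω)) = _
    rw [a1, a2, a3, ← Int.cast_sub]
    congr 1; ring
  have h2 : ∀ ω : Ω, ev (cO ω) (fm (I := I) b om P - fm b om (P - e2)) =
      if ω = om P.1 then (-1) else 0 := by
    intro ω
    change ((- (if ω = om P.1 then 1 else 0) * (P.2.1 - P.2.2) : ℤ) : ZMod (nn Ω)) -
      ((- (if ω = om (P - e2).1 then 1 else 0) * ((P - e2).2.1 - (P - e2).2.2) : ℤ) :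
        ZMod (nn Ω)) = _
    rw [a1, a2, a3, ← Int.cast_sub]
    by_cases h : ω = om P.1
    · simp only [if_pos h]
      push_cast; ring
    · simp only [if_neg h]
      simp
  rw [h1, Finset.sum_congr rfl (fun ω _ => h2 ω), Finset.sum_ite_eq']
  simp only [Finset.mem_filter, Finset.mem_univ, true_and]
  have h3 : (om P.1).1 j = b j P.1 := by rw [hom]
  rw [h3]
  cases b j P.1 <;> simp [bi]

theorem sat_hot (ω₀ : Ω) :
    (Con.inc e2 (∑ ω : Ω, ev (cO ω)).ker (Pi.single (cO ω₀) (-1)) :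
      Con Pos (Cmp I Ω) (nn Ω)).Sat (fm (I := I) b om) := by
  intro P
  rw [AddMonoidHom.mem_ker, AddMonoidHom.finsetSum_apply]
  obtain ⟨a1, a2, a3⟩ := hsub P
  have h2 : ∀ ω : Ω, ev (cO ω) (fm (I := I) b om P - fm b om (P - e2) -
      Pi.single (cO ω₀) (-1)) = (if ω = om P.1 then (-1) else 0) +
        (if ω = ω₀ then 1 else 0) := by
    intro ω
    change ((- (if ω = om P.1 then 1 else 0) * (P.2.1 - P.2.2) : ℤ) : ZMod (nn Ω)) -
      ((- (if ω = om (P - e2).1 then 1 else 0) * ((P - e2).2.1 - (P - e2).2.2) : ℤ) :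
        ZMod (nn Ω)) - (Pi.single (cO ω₀) (-1) : Col I Ω) (cO ω) = _
    have h3 : (Pi.single (cO ω₀) (-1) : Col I Ω) (cO ω) = if ω = ω₀ then -1 else 0 := by
      by_cases h : ω = ω₀
      · subst h; simp
      · rw [Pi.single_eq_of_ne (by
          intro h'
          apply h
          simpa [cO] using h')]
        simp [h]
    rw [h3, a1, a2, a3, ← Int.cast_sub]
    by_cases h : ω = om P.1
    · by_cases h' : ω = ω₀
      · simp only [if_pos h, if_pos h']
        push_cast; ring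
      · simp only [if_pos h, if_neg h']
        push_cast; ring
    · by_cases h' : ω = ω₀
      · simp only [if_neg h, if_pos h']
        push_cast; ring
      · simp only [if_neg h, if_neg h']
        push_cast; ring
  rw [Finset.sum_congr rfl (fun ω _ => h2 ω), Finset.sum_add_distrib, Finset.sum_ite_eq',
    Finset.sum_ite_eq']
  simp

theorem sat_s1 : (Con.inc (e2 + e3) (pev cS).ker (Pi.single cS 1) :
    Con Pos (Cmp I Ω) (nn Ω)).Sat (fm (I := I) b om) := by
  rw [single_eq1]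
  apply sat_pev
  intro P
  change 2 ∣ tri (P.2.1 + P.2.2) - tri ((P - (e2 + e3)).2.1 + (P - (e2 + e3)).2.2) -
    (Pi.single cS 1 : Cmp I Ω → ℤ) cS
  rw [Pi.single_eq_same]
  have e : (P - (e2 + e3)).2.1 + (P - (e2 + e3)).2.2 = P.2.1 + P.2.2 - 1 - 1 := by
    simp [e2, e3]; ring
  rw [e]
  have t1 := tri_succ (P.2.1 + P.2.2 - 1)
  have t2 := tri_succ (P.2.1 + P.2.2 - 1 - 1)
  rw [sub_add_cancel] at t1 t2
  rw [t1, t2]
  exact ⟨P.2.1 + P.2.2 - 2, by ring⟩

theorem sat_s2 : (Con.inc (e2 - e3) (pev cS).ker 0 :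
    Con Pos (Cmp I Ω) (nn Ω)).Sat (fm (I := I) b om) := by
  rw [zero_eq]
  apply sat_pev
  intro P
  change 2 ∣ tri (P.2.1 + P.2.2) - tri ((P - (e2 - e3)).2.1 + (P - (e2 - e3)).2.2) - 0
  have e : (P - (e2 - e3)).2.1 + (P - (e2 - e3)).2.2 = P.2.1 + P.2.2 := by
    simp [e2, e3]
  rw [e]; simp

theorem sat_s3 (w : ℤ × ℤ) : (Con.inc (w, 0) (pev cS).ker 0 :
    Con Pos (Cmp I Ω) (nn Ω)).Sat (fm (I := I) b om) := by
  rw [zero_eq]
  apply sat_pev
  intro P
  change 2 ∣ tri (P.2.1 + P.2.2) - tri ((P - (w, 0)).2.1 + (P - (w, 0)).2.2) - 0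
  simp

/-- the parity component of a requirement -/
theorem Fm_cP (p : I) (P : Pos) : Fm (I := I) b om P (cP p) =
    qv p.1.2.1 P.1 * bi (b p.1.1 P.1) + tri (qv p.1.2.1 P.1 + 1) +
        (P.2.1 + P.2.2) * bi (b p.1.1 P.1) + tri (P.2.1 + P.2.2) := rfl

theorem sat_m1 (p : I) : (Con.inc (e2 + e3) (pev (cP p)).ker (Pi.single (cP p) 1) :
    Con Pos (Cmp I Ω) (nn Ω)).Sat (fm (I := I) b om) := by
  rw [single_eq1]
  apply sat_pev
  intro P
  rw [Fm_cP, Fm_cP, Pi.single_eq_same]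
  have e : (P - (e2 + e3)).2.1 + (P - (e2 + e3)).2.2 = P.2.1 + P.2.2 - 1 - 1 := by
    simp [e2, e3]; ring
  have e' : (P - (e2 + e3)).1 = P.1 := by simp [e2, e3]
  rw [e, e']
  have t1 := tri_succ (P.2.1 + P.2.2 - 1)
  have t2 := tri_succ (P.2.1 + P.2.2 - 1 - 1)
  rw [sub_add_cancel] at t1 t2
  rw [t1, t2]
  exact ⟨P.2.1 + P.2.2 - 2 + bi (b p.1.1 P.1), by ring⟩

theorem sat_m2 (p : I) : (Con.inc (e2 - e3) (pev (cP p)).ker 0 :
    Con Pos (Cmp I Ω) (nn Ω)).Sat (fm (I := I) b om) := by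
  rw [zero_eq]
  apply sat_pev
  intro P
  rw [Fm_cP, Fm_cP]
  have e : (P - (e2 - e3)).2.1 + (P - (e2 - e3)).2.2 = P.2.1 + P.2.2 := by
    simp [e2, e3]
  have e' : (P - (e2 - e3)).1 = P.1 := by simp [e2, e3]
  rw [e, e']; simp

theorem sat_m3 (p : I) (hv : p.1.2.1 ≠ 0)
    (hp : ∀ x, b p.1.1 (x + p.1.2.1) = !(b p.1.1 x)) :
    (Con.inc (e2 - (p.1.2.1, 0)) (pev (cP p)).ker 0 :
    Con Pos (Cmp I Ω) (nn Ω)).Sat (fm (I := I) b om) := by
  rw [zero_eq]
  apply sat_pev
  intro P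
  rw [Fm_cP, Fm_cP]
  have e : (P - (e2 - (p.1.2.1, 0))).2.1 + (P - (e2 - (p.1.2.1, 0))).2.2 =
      P.2.1 + P.2.2 - 1 := by
    simp [e2]; ring
  have e' : (P - (e2 - (p.1.2.1, 0))).1 = P.1 + p.1.2.1 := by simp [e2]
  rw [e, e', qv_add _ _ hv, hp, bi_not]
  have t1 := tri_succ (P.2.1 + P.2.2 - 1)
  rw [sub_add_cancel] at t1
  rw [t1, tri_succ (qv p.1.2.1 P.1 + 1)]
  exact ⟨(qv p.1.2.1 P.1 + (P.2.1 + P.2.2)) * bi (b p.1.1 P.1) - qv p.1.2.1 P.1 - 1,
    by rw [Pi.zero_apply]; ring⟩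

theorem sat_rel (p : I) : (Con.inc e2 (pev (cM p.1.1) + pev (cP p) + pev cS).ker 0 :
    Con Pos (Cmp I Ω) (nn Ω)).Sat (fm (I := I) b om) := by
  intro P
  rw [AddMonoidHom.mem_ker, sub_zero]
  change pev (cM p.1.1) _ + pev (cP p) _ + pev cS _ = 0
  have h0 : (fm (I := I) b om P - fm b om (P - e2)) =
      fun c => (((Fm (I := I) b om P c - Fm (I := I) b om (P - e2) c : ℤ)) :
        ZMod (nn Ω)) := by
    funext c
    simp [fm]
  rw [h0, pev_int (cM p.1.1) (fun c => Fm (I := I) b om P c - Fm (I := I) b om (P - e2) c),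
    pev_int (cP p) (fun c => Fm (I := I) b om P c - Fm (I := I) b om (P - e2) c),
    pev_int cS (fun c => Fm (I := I) b om P c - Fm (I := I) b om (P - e2) c),
    ← Int.cast_add, ← Int.cast_add]
  apply two_zero
  rw [Fm_cP, Fm_cP]
  have f1 : ∀ P : Pos, Fm (I := I) b om P (cM p.1.1) = - bi (b p.1.1 P.1) * (P.2.1 - P.2.2) :=
    fun P => rfl
  have f2 : ∀ P : Pos, Fm (I := I) b om P cS = tri (P.2.1 + P.2.2) := fun P => rfl
  rw [f1, f1, f2, f2]
  obtain ⟨a1, a2, a3⟩ := hsub P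
  rw [a1, a2, a3]
  have e : P.2.1 - 1 + P.2.2 = P.2.1 + P.2.2 - 1 := by ring
  rw [e]
  have t1 := tri_succ (P.2.1 + P.2.2 - 1)
  rw [sub_add_cancel] at t1
  rw [t1]
  exact ⟨P.2.1 + P.2.2 - 1, by ring⟩

theorem sat_inv (p : I) (hp : ∀ x, b p.1.1 (x + p.1.2.1) = b p.1.1 x) :
    (Con.inc (p.1.2.1, 0) (ev (cM p.1.1)).ker 0 :
    Con Pos (Cmp I Ω) (nn Ω)).Sat (fm (I := I) b om) := by
  intro P
  rw [AddMonoidHom.mem_ker, sub_zero]
  change ((- bi (b p.1.1 P.1) * (P.2.1 - P.2.2) : ℤ) : ZMod (nn Ω)) -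
    ((- bi (b p.1.1 (P - (p.1.2.1, 0)).1) * ((P - (p.1.2.1, 0)).2.1 -
      (P - (p.1.2.1, 0)).2.2) : ℤ) : ZMod (nn Ω)) = 0
  have e' : (P - ((p.1.2.1, 0) : Pos)).1 + p.1.2.1 = P.1 := by simp
  have e2' : (P - ((p.1.2.1, 0) : Pos)).2 = P.2 := by simp
  have h3 := hp (P - ((p.1.2.1, 0) : Pos)).1
  rw [e'] at h3
  rw [← h3, e2', sub_self]

theorem model_sat (hI : ∀ p ∈ I, ∀ x, b p.1 (x + p.2.1) = xor (b p.1 x) p.2.2)
    (hom : ∀ x, (om x).1 = fun j => b j x) (ω₀ : Ω) :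
    ∀ con ∈ cons ω₀, con.Sat (fm (I := I) b om) := by
  intro con hcon
  unfold cons at hcon
  simp only [List.mem_append, List.mem_map, Finset.mem_toList, Finset.mem_univ, true_and,
    List.mem_cons, List.not_mem_nil, or_false, List.mem_flatMap] at hcon
  rcases hcon with (((⟨j, rfl⟩ | ⟨ω, rfl⟩) | ⟨j, rfl⟩) | (rfl | rfl | rfl | rfl | rfl)) | ⟨p, hp⟩
  · exact sat_bool (cM j) (fun x => bi (b j x)) (fun x => by cases b j x <;> simp [bi])
      (fun P => rfl)
  · exact sat_bool (cO ω) (fun x => if ω = om x then 1 else 0) (fun x => by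
      by_cases h : ω = om x <;> simp [h]) (fun P => rfl)
  · exact sat_bit hom j
  · exact sat_hot ω₀
  · exact sat_s1
  · exact sat_s2
  · exact sat_s3 (1, 0)
  · exact sat_s3 (0, 1)
  · have hp2 := hI p.1 p.2
    unfold reqCon at hp
    by_cases ht : p.1.2.2 = true
    · rw [if_pos ht] at hp
      simp only [List.mem_cons, List.not_mem_nil, or_false] at hp
      rw [ht] at hp2
      simp only [Bool.xor_true] at hp2
      rcases hp with rfl | rfl | rfl | rfl
      · exact sat_m1 p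
      · exact sat_m2 p
      · refine sat_m3 p ?_ hp2
        intro hv
        have := hp2 0
        rw [hv] at this
        simp at this
      · exact sat_rel p
    · rw [if_neg ht] at hp
      simp only [List.mem_cons, List.not_mem_nil, or_false] at hp
      have ht' : p.1.2.2 = false := by simpa using ht
      rw [ht'] at hp2
      simp only [Bool.xor_false] at hp2
      subst hp
      exact sat_inv p hp2

end Exist

end Main

/-- Module B. -/
theorem discrete_of_system (h : SystemMain) : DiscreteMain := by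
  obtain ⟨N, I, Ω, ⟨b, hb⟩, hno⟩ := h
  let om : ℤ × ℤ → Ω := fun x => ⟨fun j => b j x, hb.2 x⟩
  refine encode (n := nn Ω) (G := Pos) (C := Cmp I Ω) (by unfold nn hh; omega) (cons (om 0)) ?_ ?_
  · exact ⟨fm (I := I) b om, model_sat hb.1 (fun x => rfl) (om 0)⟩
  · rintro ⟨f, hf, M, hM, hper⟩
    apply hno
    refine ⟨bx f, ⟨?_, ext_omega hf⟩, M, hM, ?_⟩
    · intro p hp x
      cases h2 : p.2.2 with
      | false =>
        rw [Bool.xor_false]
        exact ext_false hf ⟨p, hp⟩ h2 x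
      | true =>
        rw [Bool.xor_true]
        exact ext_true hf ⟨p, hp⟩ h2 x
    · intro j x
      have h1 : ∀ w : ℤ × ℤ, bx f j (x + M • w) = bx f j x := by
        intro w
        unfold bx bet
        have e1 : (((x + M • w, 0) : Pos)) = (x, 0) + M • (w, 0) := by ext <;> simp
        have e2' : (((x + M • w, 0) : Pos)) - e2 = ((x, 0) - e2) + M • (w, 0) := by
          rw [e1]; abel
        rw [e2', e1, hper, hper]
      constructor
      · have := h1 (1, 0)
        simpa using this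
      · have := h1 (0, 1)
        simpa using this

end Enc

/-- Modules A and B. -/
theorem discreteMain : DiscreteMain := Enc.discrete_of_system systemMain

end Pool.Agent.BallTile
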