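import Pool.Agent.Lib.MP_0960bd_co.Contact
import Pool.Agent.Lib.MP_0960bd_co.Key

/-!
# MP_0960bd_co : a discrete common complement gives a tiling by the tile (helper94)
-/

set_option autoImplicit false
set_option linter.unusedSectionVars false

noncomputable section

namespace Pool.Agent.BallTile

open Set MeasureTheory

variable {ι : Type} [Fintype ι] [DecidableEq ι]

/-- the integers inside the reals -/
def ZR : Set ℝ := range (Int.cast : ℤ → ℝ)

theorem sub_mem_iff_floor {y : ℝ} (hy : y ∉ ZR) (w : ℤ) : y - w ∈ Icc (0 : ℝ) 1 ↔ w = ⌊y⌋ := by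
  constructor
  · rintro ⟨h1, h2⟩
    have h3 : y ≠ w := fun h => hy ⟨w, h.symm⟩
    have h4 : y ≠ w + 1 := fun h => hy ⟨w + 1, by push_cast; exact h.symm⟩
    symm
    rw [Int.floor_eq_iff]
    constructor
    · linarith
    · exact lt_of_le_of_ne (by linarith) h4
  · rintro rfl
    exact ⟨by linarith [Int.floor_le y], by linarith [Int.lt_floor_add_one y]⟩

theorem null_of_shift (e : (ι → ℝ) × ℝ) (f : (ι → ℝ) × ℝ → ℝ) (hf : Measurable f)
    (h : ∀ y (r : ℝ), f (y + r • e) = f y + r) : volume {y | f y ∈ ZR} = 0 := by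
  have hZ : (ZR).Countable := countable_range _
  have hs : MeasurableSet {y | f y ∉ ZR} := (hf hZ.measurableSet).compl
  have key := ae_mem_of_ae_add_linearMap_mem (LinearMap.toSpanSingleton ℝ ((ι → ℝ) × ℝ) e)
    (volume : Measure ℝ) (volume : Measure ((ι → ℝ) × ℝ)) hs ?_
  · rw [ae_iff] at key
    convert key using 2
    ext y
    simp
  · intro y
    have hc : {r : ℝ | f y + r ∈ ZR}.Countable := by
      have : {r : ℝ | f y + r ∈ ZR} = (fun z => z - f y) '' ZR := by
        ext r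
        constructor
        · intro hr
          exact ⟨f y + r, hr, by ring⟩
        · rintro ⟨z, hz, rfl⟩
          simpa using hz
      rw [this]
      exact hZ.image _
    have h0 : volume {r : ℝ | f y + r ∈ ZR} = 0 := hc.measure_zero _
    rw [ae_iff]
    refine measure_mono_null ?_ h0
    intro r hr
    simp only [LinearMap.toSpanSingleton_apply, mem_ofPred_eq, h, not_not] at hr
    exact hr

namespace GeoData

variable (D : GeoData ι)

/-- straightened coordinates in the link layer of block `b` -/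
def Yb (b : ℕ) (x : ι → ℝ) (l : ι) : ℝ :=
  x l - (if l = D.u then D.rho else 0) -
    D.axis b (D.zpar (Int.fract (x D.u - D.rho) + D.rho)) l

theorem Yb_u (b : ℕ) (x : ι → ℝ) : D.Yb b x D.u = x D.u - D.rho := by
  simp [Yb, D.axisU]

/-- generic position of a base point -/
def Gen (x : ι → ℝ) : Prop := (∀ l, x l ∉ ZR) ∧ ∀ b < D.J, ∀ l, D.Yb b x l ∉ ZR

theorem cell_iff {b i : ℕ} {x : ι → ℝ} (hx : ∀ l, x l ∉ ZR) (t : ι → ℤ) :
    x - cast t ∈ D.cellBase b i ↔ t + D.x b i = fun l => ⌊x l⌋ := by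
  simp only [cellBase, mem_ofPred_eq, Pi.sub_apply, cast, funext_iff, Pi.add_apply]
  refine forall_congr' fun l => ?_
  rw [← sub_mem_iff_floor (hx l)]
  push_cast
  rw [sub_sub]

theorem tube_iff {b i : ℕ} {x : ι → ℝ} (hx : ∀ l, D.Yb b x l ∉ ZR) (t : ι → ℤ) :
    x - cast t ∈ D.tubeBase b i ↔ t + D.disp b i = fun l => ⌊D.Yb b x l⌋ := by
  have aux : ∀ w : ι → ℤ, x - cast w ∈ D.tube0 b ↔ w = fun l => ⌊D.Yb b x l⌋ := by
    intro w
    have key : w D.u = ⌊D.Yb b x D.u⌋ → x D.u - w D.u = Int.fract (x D.u - D.rho) + D.rho := by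
      intro h
      rw [h, D.Yb_u, Int.fract]
      ring
    constructor
    · intro h
      have hu := h D.u
      simp only [Pi.sub_apply, D.axisU, if_true, cast, sub_zero] at hu
      have h1 : w D.u = ⌊D.Yb b x D.u⌋ := by
        rw [← sub_mem_iff_floor (hx D.u), D.Yb_u]
        convert hu using 1
        ring
      funext l
      rw [← sub_mem_iff_floor (hx l)]
      have h2 := h l
      simp only [Pi.sub_apply, cast] at h2
      rw [key h1] at h2
      unfold Yb
      convert h2 using 1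
      ring
    · intro h l
      have h1 := congrFun h D.u
      simp only [Pi.sub_apply, cast]
      rw [key h1]
      have h2 := (sub_mem_iff_floor (hx l) (w l)).2 (congrFun h l)
      unfold Yb at h2
      convert h2 using 1
      ring
  have e : x - cast t - cast (D.disp b i) = x - cast (t + D.disp b i) := by
    funext l
    simp [cast]
    ring
  simp only [tubeBase, mem_ofPred_eq]
  rw [e, aux]

/-- generic points are covered exactly once by the translates of the body -/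
theorem body_tiles (T : Set (ι → ℤ)) (hT : ∀ b < D.J, ∀ z : ι → ℤ,
        ∃! q : (ι → ℤ) × Fin (D.n + 1), q.1 ∈ T ∧ q.1 + D.x b q.2 = z)
    (hu : ∀ t, t ∈ T ↔ t + Pi.single D.u 1 ∈ T) {x : ι → ℝ} (hx : D.Gen x) {s : ℝ}
    (hs : s ∉ ZR) :
    ∃! w : (ι → ℤ) × ℤ, w.1 ∈ T ∧ (x - cast w.1, s - 2 * D.J * w.2) ∈ D.body := by
  obtain ⟨hx1, hx2⟩ := hx
  have hJ := D.hJ
  have hu' : ∀ t, t ∈ T ↔ t - Pi.single D.u 1 ∈ T := by
    intro t
    rw [hu (t - Pi.single D.u 1), sub_add_cancel]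
  set m : ℤ := ⌊s⌋ with hm
  -- s-levels
  have level : ∀ (c : ℕ) (k : ℤ), (s - 2 * D.J * k ∈ Icc (c : ℝ) (c + 1)) ↔
      m = 2 * D.J * k + c := by
    intro c k
    have h1 := sub_mem_iff_floor hs (2 * D.J * k + c)
    rw [← hm] at h1
    push_cast at h1
    constructor
    · rintro ⟨h2, h3⟩
      exact (h1.1 ⟨by linarith, by linarith⟩).symm
    · intro h
      have := h1.2 h.symm
      exact ⟨by linarith [this.1], by linarith [this.2]⟩
  have lev1 : ∀ (b : ℕ) (k : ℤ), (s - 2 * D.J * k ∈ Icc (2 * b : ℝ) (2 * b + 1)) ↔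
      m = 2 * D.J * k + 2 * b := by
    intro b k
    have := level (2 * b) k
    push_cast at this
    exact this
  have lev2 : ∀ (b : ℕ) (k : ℤ), (s - 2 * D.J * k ∈ Icc (2 * b + 1 : ℝ) (2 * b + 2)) ↔
      m = 2 * D.J * k + (2 * b + 1) := by
    intro b k
    have := level (2 * b + 1) k
    push_cast at this
    rw [← this]
    norm_num [add_assoc]
  have mem_body : ∀ (t : ι → ℤ) (k : ℤ), (x - cast t, s - 2 * D.J * k) ∈ D.body ↔
      ∃ b i : ℕ, b < D.J ∧ i ≤ D.n ∧
        ((t + D.x b i = (fun l => ⌊x l⌋) ∧ m = 2 * D.J * k + 2 * b) ∨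
         (t + D.disp b i = (fun l => ⌊D.Yb b x l⌋) ∧ m = 2 * D.J * k + (2 * b + 1))) := by
    intro t k
    unfold body cell tube
    simp only [mem_ofPred_eq, mem_prod]
    refine exists_congr fun b => exists_congr fun i => and_congr_right fun hb =>
      and_congr_right fun hi => ?_
    rw [D.cell_iff hx1, D.tube_iff (hx2 b hb), lev1, lev2]
  -- decomposition of `m`
  have hJ2 : (0 : ℤ) < 2 * D.J := by exact_mod_cast (by omega : 0 < 2 * D.J)
  set k₀ : ℤ := m / (2 * D.J) with hk₀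
  set r : ℤ := m % (2 * D.J) with hr
  have hr0 : 0 ≤ r := Int.emod_nonneg _ hJ2.ne'
  have hr1 : r < 2 * D.J := Int.emod_lt_of_pos _ hJ2
  have hmr : m = 2 * D.J * k₀ + r := (Int.mul_ediv_add_emod m (2 * D.J)).symm
  have uniq_k : ∀ (k c : ℤ), 0 ≤ c → c < 2 * D.J → m = 2 * D.J * k + c → k = k₀ ∧ c = r := by
    intro k c h0 h1 h2
    have e1 : c = r := by
      rw [hr, h2, Int.add_emod, Int.mul_emod_right, zero_add, Int.emod_emod_of_dvd _ (dvd_refl _),
        Int.emod_eq_of_lt h0 h1]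
    refine ⟨?_, e1⟩
    rw [e1, hmr] at h2
    have h3 : 2 * (D.J : ℤ) * k₀ = 2 * D.J * k := by linarith
    exact (mul_left_cancel₀ hJ2.ne' h3).symm
  rcases Int.even_or_odd' r with ⟨b₀, hb₀ | hb₀⟩
  · -- cell layer
    obtain ⟨b, hb⟩ : ∃ b : ℕ, b₀ = b := ⟨b₀.toNat, by omega⟩
    subst hb
    have hbJ : b < D.J := by omega
    obtain ⟨⟨t, i⟩, ⟨ht, hti⟩, hun⟩ := hT b hbJ (fun l => ⌊x l⌋)
    simp only at ht hti hun
    refine ⟨(t, k₀), ⟨ht, ?_⟩, ?_⟩
    · rw [mem_body]
      exact ⟨b, i, hbJ, by omega, Or.inl ⟨hti, by rw [← hb₀]; exact hmr⟩⟩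
    · rintro ⟨t', k'⟩ ⟨ht', h⟩
      simp only at ht' h
      rw [mem_body] at h
      obtain ⟨b', i', hb', hi', ⟨h1, h2⟩ | ⟨h1, h2⟩⟩ := h
      · obtain ⟨e1, e2⟩ := uniq_k k' (2 * b') (by omega) (by omega) h2
        have e3 : b' = b := by omega
        subst e3
        have := hun (t', ⟨i', by omega⟩) ⟨ht', h1⟩
        simp only [Prod.mk.injEq] at this
        rw [this.1, e1]
      · obtain ⟨e1, e2⟩ := uniq_k k' (2 * b' + 1) (by omega) (by omega) h2
        omega
  · -- link layer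
    obtain ⟨b, hb⟩ : ∃ b : ℕ, b₀ = b := ⟨b₀.toNat, by omega⟩
    subst hb
    have hbJ : b < D.J := by omega
    obtain ⟨⟨t, i⟩, ⟨ht, hti⟩, hun⟩ := hT b hbJ ((fun l => ⌊D.Yb b x l⌋) + D.x b D.n)
    simp only at ht hti hun
    refine ⟨(t + (if (i : ℕ) = D.n then 0 else Pi.single D.u 1), k₀), ⟨?_, ?_⟩, ?_⟩
    · simp only
      split_ifs
      · simpa using ht
      · exact (hu t).1 ht
    · rw [mem_body]
      refine ⟨b, i, hbJ, by omega, Or.inr ⟨?_, by rw [← hb₀]; exact hmr⟩⟩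
      unfold disp
      have : t = (fun l => ⌊D.Yb b x l⌋) + D.x b D.n - D.x b i := by rw [← hti]; abel
      rw [this]
      by_cases hin : (i : ℕ) = D.n
      · simp only [hin, if_true]; abel
      · simp only [hin, if_false]; abel
    · rintro ⟨t', k'⟩ ⟨ht', h⟩
      simp only at ht' h
      rw [mem_body] at h
      obtain ⟨b', i', hb', hi', ⟨h1, h2⟩ | ⟨h1, h2⟩⟩ := h
      · obtain ⟨e1, e2⟩ := uniq_k k' (2 * b') (by omega) (by omega) h2
        omega
      · obtain ⟨e1, e2⟩ := uniq_k k' (2 * b' + 1) (by omega) (by omega) h2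
        have e3 : b' = b := by omega
        subst e3
        have h3 : t' - (if i' = D.n then 0 else Pi.single D.u 1) + D.x b' i' =
            (fun l => ⌊D.Yb b' x l⌋) + D.x b' D.n := by
          rw [← h1]
          unfold disp
          abel
        have h4 : t' - (if i' = D.n then 0 else Pi.single D.u 1) ∈ T := by
          split_ifs
          · simpa using ht'
          · exact (hu' t').1 ht'
        have := hun (t' - (if i' = D.n then 0 else Pi.single D.u 1), ⟨i', by omega⟩) ⟨h4, h3⟩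
        simp only [Prod.mk.injEq] at this
        obtain ⟨e4, e5⟩ := this
        have e6 : (i : ℕ) = i' := by rw [← e5]
        rw [← e4, e6, e1]
        simp

theorem measurable_Yb (b : ℕ) (l : ι) : Measurable (fun x : ι → ℝ => D.Yb b x l) := by
  unfold Yb
  have h1 : Measurable (fun z : ℝ => D.axis b z l) :=
    ((continuous_apply l).comp (D.cont_axis b)).measurable
  have h2 : Measurable D.zpar := D.cont_zpar.measurable
  have h3 : Measurable (fun x : ι → ℝ => Int.fract (x D.u - D.rho)) :=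
    ((measurable_pi_apply D.u).sub_const _).fract
  exact ((measurable_pi_apply l).sub_const _).sub
    (h1.comp (h2.comp (h3.add_const _)))

/-- the exceptional set is null -/
theorem null_except : volume {q : (ι → ℝ) × ℝ | ¬ (D.Gen q.1 ∧ q.2 ∉ ZR)} = 0 := by
  have h1 : volume {q : (ι → ℝ) × ℝ | q.2 ∈ ZR} = 0 :=
    null_of_shift (0, 1) (fun q => q.2) measurable_snd (by intro y r; simp)
  have h2 : ∀ l, volume {q : (ι → ℝ) × ℝ | q.1 l ∈ ZR} = 0 := fun l =>
    null_of_shift (Pi.single l 1, 0) (fun q => q.1 l) ((measurable_pi_apply l).comp measurable_fst)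
      (by intro y r; simp)
  have h3 : ∀ b l, volume {q : (ι → ℝ) × ℝ | D.Yb b q.1 l ∈ ZR} = 0 := by
    intro b l
    refine null_of_shift (Pi.single l 1, 0) (fun q => D.Yb b q.1 l)
      ((D.measurable_Yb b l).comp measurable_fst) ?_
    intro y r
    by_cases hl : l = D.u
    · subst hl
      simp only [D.Yb_u]
      simp
      ring
    · unfold Yb
      simp [hl, Ne.symm hl]
      ring
  have hsub : {q : (ι → ℝ) × ℝ | ¬ (D.Gen q.1 ∧ q.2 ∉ ZR)} ⊆
      {q | q.2 ∈ ZR} ∪ ((⋃ l, {q | q.1 l ∈ ZR}) ∪ ⋃ b : ℕ, ⋃ l, {q | D.Yb b q.1 l ∈ ZR}) := by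
    intro q hq
    simp only [mem_ofPred_eq, Gen] at hq
    by_contra hcon
    simp only [mem_union, mem_iUnion, mem_ofPred_eq, not_or, not_exists] at hcon
    exact hq ⟨⟨hcon.2.1, fun b _ l => hcon.2.2 b l⟩, hcon.1⟩
  refine measure_mono_null hsub (measure_union_null h1 (measure_union_null ?_ ?_))
  · exact measure_iUnion_null h2
  · exact measure_iUnion_null fun b => measure_iUnion_null fun l => h3 b l

/-- A common complement of the blocks, invariant in direction `u`, gives a tiling. -/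
theorem tile_tiles (T : Set (ι → ℤ)) (hT : ∀ b < D.J, ∀ z : ι → ℤ,
        ∃! q : (ι → ℤ) × Fin (D.n + 1), q.1 ∈ T ∧ q.1 + D.x b q.2 = z)
    (hu : ∀ t, t ∈ T ↔ t + Pi.single D.u 1 ∈ T) :
    ∃ Λ : Set ((ι → ℝ) × ℝ), ∀ᵐ p : (ι → ℝ) × ℝ, ∃! t, t ∈ Λ ∧ p - t ∈ D.tile := by
  obtain ⟨h, hh⟩ := D.exists_keyHomeo
  have hJ : (D.J : ℝ) ≠ 0 := by have := D.hJ; positivity
  refine ⟨{v | ∃ t ∈ T, ∃ k : ℤ, v = (cast t, (2 * D.J * k : ℝ))}, ?_⟩
  rw [ae_iff]
  refine measure_mono_null ?_ (D.key_null D.null_except)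
  intro p hp
  by_contra hcon
  apply hp
  set q := h.symm p with hq
  have hqp : D.key q = p := by rw [← hh, hq, Homeomorph.apply_symm_apply]
  have hgen : D.Gen q.1 ∧ q.2 ∉ ZR := by
    by_contra h1
    exact hcon ⟨q, h1, hqp⟩
  obtain ⟨⟨t, k⟩, ⟨h1, h2⟩, h3⟩ := D.body_tiles T hT hu hgen.1 hgen.2
  simp only at h1 h2 h3
  have mem_tile : ∀ (t : ι → ℤ) (k : ℤ), p - (cast t, (2 * D.J * k : ℝ)) ∈ D.tile ↔
      (q.1 - cast t, q.2 - 2 * D.J * k) ∈ D.body := by
    intro t k
    have e : p - (cast t, (2 * D.J * k : ℝ)) = D.key (q.1 - cast t, q.2 - 2 * D.J * k) := by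
      have := D.key_add (q.1 - cast t, q.2 - 2 * D.J * k) t k
      rw [show ((q.1 - cast t, q.2 - 2 * D.J * k) : (ι → ℝ) × ℝ) + (cast t, (2 * D.J * k : ℝ)) = q by
        ext <;> simp, hqp] at this
      rw [this]
      abel
    rw [e, tile]
    constructor
    · rintro ⟨q', hq', he⟩
      rw [← hh, ← hh] at he
      rwa [← h.injective he]
    · intro h4
      exact ⟨_, h4, rfl⟩
  refine ⟨(cast t, (2 * D.J * k : ℝ)), ⟨⟨t, h1, k, rfl⟩, (mem_tile t k).2 h2⟩, ?_⟩
  rintro v ⟨⟨t', ht', k', rfl⟩, hv⟩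
  have := h3 (t', k') ⟨ht', (mem_tile t' k').1 hv⟩
  simp only [Prod.mk.injEq] at this
  rw [this.1, this.2]

end GeoData

end Pool.Agent.BallTile
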