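import Pool.Agent.Lib.MP_0960bd_co.Rigid4

/-!
# MP_0960bd_co : rigidity (G5): an a.e. tiling with independent periods gives a periodic common
complement of the blocks
-/

set_option autoImplicit false
set_option linter.unusedSectionVars false

noncomputable section

namespace Pool.Agent.BallTile

open Set MeasureTheory Metric

variable {ι : Type} [Fintype ι] [DecidableEq ι]

theorem emb_add (z w : ι → ℤ) : emb (z + w) = emb z + emb w := by
  ext l
  · simp [emb, cast]
  · simp [emb]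

theorem emb_zero : emb (0 : ι → ℤ) = 0 := by
  ext l
  · simp [emb, cast]
  · simp [emb]

theorem emb_neg (z : ι → ℤ) : emb (-z) = -emb z := by
  ext l
  · simp [emb, cast]
  · simp [emb]

theorem emb_sub (z w : ι → ℤ) : emb (z - w) = emb z - emb w := by
  rw [sub_eq_add_neg, emb_add, emb_neg, sub_eq_add_neg]

theorem emb_single (i : ι) (k : ℤ) : emb (Pi.single i k) = (k : ℝ) • ei i := by
  ext l
  · by_cases hl : l = i
    · subst hl; simp [emb, cast, ei]
    · simp [emb, cast, ei, hl]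
  · simp [emb, ei]

theorem emb_injective : Function.Injective (emb : (ι → ℤ) → (ι → ℝ) × ℝ) := by
  intro z w h
  funext l
  have h1 := congrFun (congrArg Prod.fst h) l
  simp only [emb, cast] at h1
  exact_mod_cast h1

/-- invariance under the unit vectors gives invariance under all integer vectors -/
theorem invariant_of_single {P : (ι → ℤ) → (ι → ℤ) → Prop} {N : ℤ}
    (hrefl : ∀ z, P z z) (htrans : ∀ x y z, P x y → P y z → P x z)
    (hplus : ∀ i z, P z (z + Pi.single i N)) (hminus : ∀ i z, P z (z - Pi.single i N))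
    (z w : ι → ℤ) : P z (z + N • w) := by
  let S : AddSubgroup (ι → ℤ) :=
    { carrier := {v | ∀ z, P z (z + v) ∧ P z (z - v)}
      zero_mem' := fun z => by simp [hrefl]
      add_mem' := by
        intro a b ha hb z
        refine ⟨?_, ?_⟩
        · have := htrans _ _ _ (ha z).1 (hb (z + a)).1
          rwa [add_assoc] at this
        · have := htrans _ _ _ (ha z).2 (hb (z - a)).2
          rwa [sub_sub] at this
      neg_mem' := by
        intro a ha z
        refine ⟨?_, ?_⟩
        · rw [← sub_eq_add_neg]; exact (ha z).2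
        · rw [sub_neg_eq_add]; exact (ha z).1 }
  have h1 : ∀ i, (Pi.single i N : ι → ℤ) ∈ S := fun i z => ⟨hplus i z, hminus i z⟩
  have h2 : N • w ∈ S := by
    have h3 : N • w = ∑ i, w i • (Pi.single i N : ι → ℤ) := by
      funext l
      rw [Finset.sum_apply]
      simp only [Pi.smul_apply, smul_eq_mul, Pi.single_apply, mul_ite, mul_zero]
      rw [Finset.sum_ite_eq]
      simp [mul_comm]
    rw [h3]
    exact S.sum_mem fun i _ => S.zsmul_mem (h1 i) _
  exact (h2 z).1

/-- counting modulo `N` -/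
theorem count_complement {T : Set (ι → ℤ)} {N : ℕ} (hN : 0 < N)
    (hper : ∀ i, ∀ t ∈ T, t + Pi.single i (N : ℤ) ∈ T ∧ t - Pi.single i (N : ℤ) ∈ T)
    {m : ℕ} (X Y : Fin m → (ι → ℤ)) (hX : ∀ z, ∃ t ∈ T, ∃ i, t + X i = z)
    (hY : ∀ t ∈ T, ∀ t' ∈ T, ∀ i i', t + Y i = t' + Y i' → t = t' ∧ i = i') :
    ∀ z, ∃ t ∈ T, ∃ i, t + Y i = z := by
  have : NeZero N := ⟨hN.ne'⟩
  have hperN : ∀ t ∈ T, ∀ w : ι → ℤ, t + (N : ℤ) • w ∈ T := by
    intro t ht w
    exact invariant_of_single (P := fun a b => a ∈ T → b ∈ T) (N := N)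
      (fun _ h => h) (fun _ _ _ h1 h2 h => h2 (h1 h)) (fun i z hz => (hper i z hz).1)
      (fun i z hz => (hper i z hz).2) t w ht
  let π : (ι → ℤ) → (ι → ZMod N) := fun z l => (z l : ZMod N)
  have hπ : ∀ z w, π z = π w → ∃ u : ι → ℤ, w = z + (N : ℤ) • u := by
    intro z w h
    have h1 : ∀ l, ∃ u : ℤ, w l - z l = N * u := by
      intro l
      have := congrFun h l
      simp only [π] at this
      rw [ZMod.intCast_eq_intCast_iff_dvd_sub] at this
      obtain ⟨u, hu⟩ := this
      exact ⟨u, hu⟩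
    choose u hu using h1
    refine ⟨u, ?_⟩
    funext l
    have := hu l
    simp only [Pi.add_apply, Pi.smul_apply, smul_eq_mul]
    linarith
  have hπadd : ∀ z w, π (z + w) = π z + π w := by
    intro z w; funext l; simp [π]
  let Tb : Set (ι → ZMod N) := π '' T
  let _ : Fintype Tb := Fintype.ofFinite Tb
  let FX : Tb × Fin m → (ι → ZMod N) := fun q => q.1.1 + π (X q.2)
  let FY : Tb × Fin m → (ι → ZMod N) := fun q => q.1.1 + π (Y q.2)
  have hπsurj : ∀ c : ι → ZMod N, ∃ z : ι → ℤ, π z = c := by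
    intro c
    refine ⟨fun l => (c l).cast, ?_⟩
    funext l
    simp [π]
  have hFX : Function.Surjective FX := by
    intro c
    obtain ⟨z, rfl⟩ := hπsurj c
    obtain ⟨t, ht, i, rfl⟩ := hX z
    exact ⟨(⟨π t, t, ht, rfl⟩, i), by simp only [FX]; rw [hπadd]⟩
  have hFY : Function.Injective FY := by
    rintro ⟨⟨_, t, ht, rfl⟩, i⟩ ⟨⟨_, t', ht', rfl⟩, i'⟩ h
    simp only [FY] at h
    rw [← hπadd, ← hπadd] at h
    obtain ⟨u, hu⟩ := hπ _ _ h
    have h2 : (t + (N : ℤ) • u) + Y i = t' + Y i' := by rw [hu]; abel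
    obtain ⟨h3, h4⟩ := hY _ (hperN t ht u) _ ht' i i' h2
    subst h4
    have h5 : π t = π t' := by
      rw [← h3]
      funext l
      simp [π]
    simp [h5]
  have hcard : Fintype.card (Tb × Fin m) = Fintype.card (ι → ZMod N) :=
    le_antisymm (Fintype.card_le_of_injective FY hFY) (Fintype.card_le_of_surjective FX hFX)
  have hbij := (Fintype.bijective_iff_injective_and_card FY).2 ⟨hFY, hcard⟩
  intro z
  obtain ⟨⟨⟨_, t, ht, rfl⟩, i⟩, hq⟩ := hbij.2 (π z)
  simp only [FY] at hq
  rw [← hπadd] at hq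
  obtain ⟨u, hu⟩ := hπ _ _ hq
  exact ⟨t + (N : ℤ) • u, hperN t ht u, i, by rw [hu]; abel⟩

namespace GeoData

variable (D : GeoData ι)

theorem finrank_E : Module.finrank ℝ ((ι → ℝ) × ℝ) = Fintype.card (Option ι) := by
  rw [Module.finrank_prod, Module.finrank_fintype_fun_eq_card, Module.finrank_self,
    Fintype.card_option]

theorem key_emb (q : (ι → ℝ) × ℝ) (z : ι → ℤ) : D.key (q + emb z) = D.key q + emb z := by
  have := D.key_add q z 0
  simpa [emb] using this

theorem rigid (Λ : Set ((ι → ℝ) × ℝ))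
    (hΛ : ∀ᵐ p : (ι → ℝ) × ℝ, ∃! t, t ∈ Λ ∧ p - t ∈ D.tile)
    (v : Option ι → (ι → ℝ) × ℝ) (hv : LinearIndependent ℝ v)
    (hper : ∀ i, ∀ t ∈ Λ, t + v i ∈ Λ ∧ t - v i ∈ Λ) :
    ∃ T : Set (ι → ℤ), (∀ b < D.J, ∀ z : ι → ℤ,
        ∃! q : (ι → ℤ) × Fin (D.n + 1), q.1 ∈ T ∧ q.1 + D.x b q.2 = z) ∧
      ∃ N : ℤ, 0 < N ∧ ∀ i, ∀ t ∈ T, t + Pi.single i N ∈ T ∧ t - Pi.single i N ∈ T := by
  classical
  have hRC := D.RC_tile
  -- the period lattice
  let b : Module.Basis (Option ι) ℝ ((ι → ℝ) × ℝ) :=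
    basisOfLinearIndependentOfCardEqFinrank hv finrank_E.symm
  have hb : ⇑b = v := coe_basisOfLinearIndependentOfCardEqFinrank hv finrank_E.symm
  let S : AddSubgroup ((ι → ℝ) × ℝ) :=
    { carrier := {w | ∀ t ∈ Λ, t + w ∈ Λ ∧ t - w ∈ Λ}
      zero_mem' := fun t ht => by simpa using ht
      add_mem' := by
        intro a c ha hc t ht
        refine ⟨?_, ?_⟩
        · have := (hc _ (ha t ht).1).1
          rwa [add_assoc] at this
        · have := (hc _ (ha t ht).2).2
          rwa [sub_sub] at this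
      neg_mem' := by
        intro a ha t ht
        refine ⟨?_, ?_⟩
        · rw [← sub_eq_add_neg]; exact (ha t ht).2
        · rw [sub_neg_eq_add]; exact (ha t ht).1 }
  have hVS : ∀ w ∈ Submodule.span ℤ (Set.range b), w ∈ S := by
    intro w hw
    induction hw using Submodule.span_induction with
    | mem x hx =>
      obtain ⟨i, rfl⟩ := hx
      rw [hb]
      exact fun t ht => hper i t ht
    | zero => exact S.zero_mem
    | add x y _ _ hx hy => exact S.add_mem hx hy
    | smul a x _ hx => exact S.zsmul_mem hx a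
  -- finiteness modulo the periods
  have hfin : (Λ ∩ ZSpan.fundamentalDomain b).Finite := by
    obtain ⟨q, hq⟩ := D.tile_nonempty
    have hbd : Bornology.IsBounded ((fun t => t + q) '' ZSpan.fundamentalDomain b) := by
      have h1 := ZSpan.fundamentalDomain_isBounded b
      obtain ⟨C, hC⟩ := isBounded_iff_forall_norm_le.1 h1
      refine isBounded_iff_forall_norm_le.2 ⟨C + ‖q‖, ?_⟩
      rintro _ ⟨t, ht, rfl⟩
      exact (norm_add_le _ _).trans (add_le_add (hC t ht) le_rfl)
    refine (cover_finite volume hRC.regular hΛ hRC.compact D.tile_nonempty hbd).subset ?_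
    rintro t ⟨ht, htd⟩
    exact ⟨ht, t + q, ⟨t, htd, rfl⟩, by simpa using hq⟩
  obtain ⟨t0, ht0, _⟩ := cover_all volume hRC.regular hΛ hRC.compact D.tile_nonempty 0
  -- the set `Y`
  let Y : Set ((ι → ℝ) × ℝ) := {y | ∃ t ∈ Λ, ∃ j ≤ D.n, t + emb (D.x 0 j) = y}
  have hYplus : ∀ i, ∀ y ∈ Y, y + ei i ∈ Y := by
    rintro i _ ⟨t, ht, j, hj, rfl⟩
    obtain ⟨t', ht', j', hj', h⟩ := D.key_step hΛ ht hj i
    exact ⟨t', ht', j', hj', h⟩
  have hYplusk : ∀ i, ∀ k : ℕ, ∀ y ∈ Y, y + (k : ℝ) • ei i ∈ Y := by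
    intro i k
    induction k with
    | zero => intro y hy; simpa using hy
    | succ k ih =>
      intro y hy
      have := hYplus i _ (ih y hy)
      rw [Nat.cast_succ, add_smul, one_smul, ← add_assoc]
      exact this
  have hYV : ∀ w ∈ S, ∀ y ∈ Y, y + w ∈ Y ∧ y - w ∈ Y := by
    rintro w hw _ ⟨t, ht, j, hj, rfl⟩
    refine ⟨⟨t + w, (hw t ht).1, j, hj, by abel⟩, ⟨t - w, (hw t ht).2, j, hj, by abel⟩⟩
  -- integer multiples of `e_i` among the periods
  have hmul : ∀ i, ∃ k : ℕ, 0 < k ∧ (k : ℝ) • ei i ∈ S := by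
    intro i
    have hy0 : t0 + emb (D.x 0 0) ∈ Y := ⟨t0, ht0, 0, Nat.zero_le _, rfl⟩
    choose t ht j hj h using fun k : ℕ => hYplusk i k _ hy0
    have hmaps : Set.MapsTo (fun k : ℕ => (ZSpan.fract b (t k), j k)) univ
        ((Λ ∩ ZSpan.fundamentalDomain b) ×ˢ (Set.Iic D.n)) := by
      intro k _
      refine ⟨⟨?_, ZSpan.fract_mem_fundamentalDomain b _⟩, hj k⟩
      exact (hVS _ (ZSpan.floor b (t k)).2 _ (ht k)).2
    obtain ⟨k, _, k', _, hne, heq⟩ := Set.infinite_univ.exists_ne_map_eq_of_mapsTo hmaps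
      (hfin.prod (Set.finite_Iic _))
    simp only [Prod.mk.injEq] at heq
    have hsub : ∀ k k' : ℕ, k < k' → ZSpan.fract b (t k) = ZSpan.fract b (t k') → j k = j k' →
        ((k' - k : ℕ) : ℝ) • ei i ∈ S := by
      intro k k' hlt h1 h2
      rw [ZSpan.fract_eq_fract] at h1
      have h3 := hVS _ h1
      have h4 : ((k' - k : ℕ) : ℝ) • ei i = -t k + t k' := by
        have h5 := h k
        have h6 := h k'
        rw [← h2] at h6
        have h7 : t k = t0 + emb (D.x 0 0) + (k : ℝ) • ei i - emb (D.x 0 (j k)) := by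
          rw [← h5]; abel
        have h8 : t k' = t0 + emb (D.x 0 0) + (k' : ℝ) • ei i - emb (D.x 0 (j k)) := by
          rw [← h6]; abel
        rw [h7, h8, Nat.cast_sub hlt.le]
        module
      rw [h4]; exact h3
    rcases Nat.lt_or_gt_of_ne hne with hlt | hgt
    · exact ⟨k' - k, by omega, hsub k k' hlt heq.1 heq.2⟩
    · exact ⟨k - k', by omega, hsub k' k hgt heq.1.symm heq.2.symm⟩
  choose Nf hNf0 hNfS using hmul
  set N : ℕ := ∏ i, Nf i with hN
  have hN0 : 0 < N := Finset.prod_pos fun i _ => hNf0 i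
  have hNS : ∀ i, (N : ℝ) • ei i ∈ S := by
    intro i
    obtain ⟨c, hc⟩ : Nf i ∣ N := Finset.dvd_prod_of_mem Nf (Finset.mem_univ i)
    have : (N : ℝ) • ei i = (c : ℤ) • ((Nf i : ℝ) • ei i) := by
      rw [hc]
      push_cast
      rw [mul_comm, mul_smul]
      rw [← Int.cast_smul_eq_zsmul ℝ]
      simp
    rw [this]
    exact S.zsmul_mem (hNfS i) _
  have hYminus : ∀ i, ∀ y ∈ Y, y - ei i ∈ Y := by
    intro i y hy
    have h1 := hYplusk i (N - 1) y hy
    have h2 := (hYV _ (hNS i) _ h1).2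
    have h3 : y + ((N - 1 : ℕ) : ℝ) • ei i - (N : ℝ) • ei i = y - ei i := by
      rw [Nat.cast_sub (by omega : 1 ≤ N)]
      push_cast
      module
    rwa [h3] at h2
  have hYemb : ∀ y ∈ Y, ∀ z : ι → ℤ, y + emb z ∈ Y := by
    intro y hy z
    have := invariant_of_single (P := fun a c => y + emb a ∈ Y → y + emb c ∈ Y) (N := 1)
      (fun _ h => h) (fun _ _ _ h1 h2 h => h2 (h1 h))
      (fun i w hw => by
        have := hYplus i _ hw
        rw [emb_add, emb_single]
        simpa [add_assoc] using this)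
      (fun i w hw => by
        have := hYminus i _ hw
        rw [emb_sub, emb_single]
        simpa [add_sub_assoc] using this) 0 z
    simp only [emb_zero, add_zero, zero_add, one_smul] at this
    exact this hy
  -- the discrete set
  let T : Set (ι → ℤ) := {z | t0 + emb z ∈ Λ}
  have hTper : ∀ i, ∀ t ∈ T, t + Pi.single i (N : ℤ) ∈ T ∧ t - Pi.single i (N : ℤ) ∈ T := by
    intro i t ht
    have h1 := hNS i _ ht
    refine ⟨?_, ?_⟩
    · change t0 + emb (t + Pi.single i (N : ℤ)) ∈ Λ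
      rw [emb_add, emb_single, ← add_assoc]
      exact_mod_cast h1.1
    · change t0 + emb (t - Pi.single i (N : ℤ)) ∈ Λ
      rw [emb_sub, emb_single, ← add_sub_assoc]
      exact_mod_cast h1.2
  have hcov : ∀ z : ι → ℤ, ∃ t ∈ T, ∃ i : Fin (D.n + 1), t + D.x 0 i = z := by
    intro z
    have hy0 : t0 + emb (D.x 0 0) ∈ Y := ⟨t0, ht0, 0, Nat.zero_le _, rfl⟩
    obtain ⟨t, ht, j, hj, h⟩ := hYemb _ hy0 (z - D.x 0 0)
    refine ⟨z - D.x 0 j, ?_, ⟨j, by omega⟩, by simp⟩
    change t0 + emb (z - D.x 0 j) ∈ Λ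
    have : t0 + emb (z - D.x 0 j) = t := by
      rw [emb_sub] at h ⊢
      have h2 : t = t0 + emb (D.x 0 0) + (emb z - emb (D.x 0 0)) - emb (D.x 0 j) := by
        rw [← h]; abel
      rw [h2]; abel
    rw [this]; exact ht
  have hinj : ∀ c < D.J, ∀ t ∈ T, ∀ t' ∈ T, ∀ i i' : Fin (D.n + 1),
      t + D.x c i = t' + D.x c i' → t = t' ∧ i = i' := by
    intro c hc z hz z' hz' i i' h
    have hi : (i : ℕ) ≤ D.n := by omega
    have hi' : (i' : ℕ) ≤ D.n := by omega
    have hzz : z = z' := by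
      by_contra hne
      have hne' : t0 + emb z ≠ t0 + emb z' := fun h1 => hne (emb_injective (add_left_cancel h1))
      set p : (ι → ℝ) × ℝ :=
        ((cast (D.x c i) + fun _ => (1 / 2 : ℝ)), (2 * c + 1 / 2 : ℝ)) with hp
      set p' : (ι → ℝ) × ℝ :=
        ((cast (D.x c i') + fun _ => (1 / 2 : ℝ)), (2 * c + 1 / 2 : ℝ)) with hp'
      have hpp : p + emb z = p' + emb z' := by
        ext l
        · have h1 := congrFun h l
          simp only [Pi.add_apply] at h1
          have h2 : (z l : ℝ) + D.x c i l = z' l + D.x c i' l := by exact_mod_cast h1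
          simp only [hp, hp', emb, cast, Prod.fst_add, Pi.add_apply]
          linarith
        · simp [hp, hp', emb]
      have h1 : t0 + D.key (p + emb z) - (t0 + emb z) ∈ interior D.tile := by
        rw [D.key_emb]
        have : t0 + (D.key p + emb z) - (t0 + emb z) = D.key p := by abel
        rw [this]
        exact D.key_mem_interior_tile (D.center_mem_interior_body hc hi)
      have h2 : t0 + D.key (p + emb z) - (t0 + emb z') ∈ D.tile := by
        rw [hpp, D.key_emb]
        have : t0 + (D.key p' + emb z') - (t0 + emb z') = D.key p' := by abel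
        rw [this]
        exact interior_subset (D.key_mem_interior_tile (D.center_mem_interior_body hc hi'))
      exact cover_disj volume hRC.regular hΛ hz hz' hne' h1 h2
    subst hzz
    refine ⟨rfl, ?_⟩
    by_contra hne
    have hne' : (i : ℕ) ≠ i' := fun h1 => hne (Fin.ext h1)
    have h1 : D.x c i = D.x c i' := add_left_cancel h
    rcases D.x_t_ne (b := c) hne' hi hi' with h2 | h2
    · rw [h1] at h2; omega
    · rw [h1] at h2; omega
  refine ⟨T, ?_, N, by exact_mod_cast hN0, hTper⟩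
  intro c hc z
  obtain ⟨t, ht, i, hti⟩ := count_complement hN0 hTper (fun i : Fin (D.n + 1) => D.x 0 i)
    (fun i : Fin (D.n + 1) => D.x c i) hcov (hinj c hc) z
  refine ⟨(t, i), ⟨ht, hti⟩, ?_⟩
  rintro ⟨t', i'⟩ ⟨ht', hti'⟩
  obtain ⟨h1, h2⟩ := hinj c hc t' ht' t ht i' i (hti'.trans hti.symm)
  rw [h1, h2]

end GeoData

end Pool.Agent.BallTile
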