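import Pool.Agent.Lib.MP_0960bd_co.Build
import Pool.Agent.Lib.MP_0960bd_co.Rigid

/-!
# MP_0960bd_co : assembly (helper94)
-/

set_option autoImplicit false
set_option linter.unusedSectionVars false

noncomputable section

namespace Pool.Agent.BallTile

open Set MeasureTheory

/-- the statement of the rigidity theorem -/
def RigidStatement : Prop :=
  ∀ (ι : Type) [Fintype ι] [DecidableEq ι] (D : GeoData ι) (Λ : Set ((ι → ℝ) × ℝ))
    (_ : ∀ᵐ p : (ι → ℝ) × ℝ, ∃! t, t ∈ Λ ∧ p - t ∈ D.tile)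
    (v : Option ι → (ι → ℝ) × ℝ) (_ : LinearIndependent ℝ v)
    (_ : ∀ i, ∀ t ∈ Λ, t + v i ∈ Λ ∧ t - v i ∈ Λ),
    ∃ T : Set (ι → ℤ), (∀ b < D.J, ∀ z : ι → ℤ,
        ∃! q : (ι → ℤ) × Fin (D.n + 1), q.1 ∈ T ∧ q.1 + D.x b q.2 = z) ∧
      ∃ N : ℤ, 0 < N ∧ ∀ i, ∀ t ∈ T, t + Pi.single i N ∈ T ∧ t - Pi.single i N ∈ T

/-- almost everywhere statements are transported by linear homeomorphisms -/
theorem ae_transfer {E F : Type*} [NormedAddCommGroup E] [NormedSpace ℝ E] [FiniteDimensional ℝ E]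
    [MeasurableSpace E] [BorelSpace E] [NormedAddCommGroup F] [NormedSpace ℝ F]
    [FiniteDimensional ℝ F] [MeasurableSpace F] [BorelSpace F] (μ : Measure E) (ν : Measure F)
    [μ.IsAddHaarMeasure] [ν.IsAddHaarMeasure] (φ : E ≃L[ℝ] F) {P : F → Prop}
    (h : ∀ᵐ p ∂ν, P p) : ∀ᵐ x ∂μ, P (φ x) := by
  have h1 : (Measure.map φ μ) ≪ ν := by
    have : (Measure.map φ μ).IsAddHaarMeasure := φ.isAddHaarMeasure_map μ
    exact Measure.absolutelyContinuous_isAddHaarMeasure _ _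
  have h2 : ∀ᵐ p ∂(Measure.map φ μ), P p := h1.ae_le h
  exact ae_of_ae_map φ.continuous.measurable.aemeasurable h2

theorem rigidStatement : RigidStatement := fun _ _ _ D Λ h v hv hp => D.rigid Λ h v hv hp

theorem geometry (hd : DiscreteMain) :
    ¬ (∀ (d : ℕ) (T : Set (EuclideanSpace ℝ (Fin d))),
      Nonempty (T ≃ₜ Metric.closedBall (0 : EuclideanSpace ℝ (Fin d)) 1) →
      (∃ Λ : Set (EuclideanSpace ℝ (Fin d)),
        ∀ᵐ x ∂(volume : Measure (EuclideanSpace ℝ (Fin d))),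
          ∃! t, t ∈ Λ ∧ x - t ∈ T) →
      ∃ Λ : Set (EuclideanSpace ℝ (Fin d)),
        (∀ᵐ x ∂(volume : Measure (EuclideanSpace ℝ (Fin d))),
          ∃! t, t ∈ Λ ∧ x - t ∈ T) ∧
        ∃ v : Fin d → EuclideanSpace ℝ (Fin d),
          LinearIndependent ℝ v ∧
            ∀ i, ∀ t ∈ Λ, t + v i ∈ Λ ∧ t - v i ∈ Λ) := by
  intro H
  obtain ⟨m, J, n', X, ⟨T, hT⟩, hno⟩ := hd
  -- normalisations
  rcases Nat.eq_zero_or_pos J with rfl | hJ
  · exact hno ⟨∅, fun b => b.elim0, 1, one_pos, fun i t ht => ht.elim⟩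
  rcases n' with _ | n
  · obtain ⟨⟨_, i⟩, _⟩ := hT ⟨0, hJ⟩ 0
    exact i.elim0
  obtain ⟨D, L, C, σ, hDJ, hDn, hDu, hL, hL1, hx⟩ :=
    exists_data hJ X (fun b => injective_of_tiles (hT b))
  -- existence of a tiling
  have ht1 := lift_tiles hDJ hDn hx hT
  obtain ⟨Λ₀, hΛ₀⟩ := D.tile_tiles _ ht1 (by
    intro t
    simp only [mem_ofPred_eq, hDu, Pi.add_apply]
    have : (fun j => t (Sum.inl j) + (Pi.single (Sum.inr false) (1 : ℤ) : Fin m ⊕ Bool → ℤ)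
        (Sum.inl j)) = fun j => t (Sum.inl j) := by
      funext j; simp
    rw [this])
  obtain ⟨eball⟩ := D.tile_ball
  -- transfer to Euclidean space
  set d : ℕ := Fintype.card (Option (Fin m ⊕ Bool)) with hd
  have hfr : Module.finrank ℝ (EuclideanSpace ℝ (Fin d)) = Module.finrank ℝ ((Fin m ⊕ Bool → ℝ) × ℝ) := by
    simp [hd]
  let φ : EuclideanSpace ℝ (Fin d) ≃L[ℝ] (Fin m ⊕ Bool → ℝ) × ℝ := ContinuousLinearEquiv.ofFinrankEq hfr
  set S : Set (EuclideanSpace ℝ (Fin d)) := φ.symm '' D.tile with hS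
  have memS : ∀ x, x ∈ S ↔ φ x ∈ D.tile := by
    intro x
    constructor
    · rintro ⟨y, hy, rfl⟩; simpa using hy
    · intro h; exact ⟨φ x, h, by simp⟩
  obtain ⟨Λ, hΛ, v, hv, hper⟩ := H d S (by
      have e1 : ↥S ≃ₜ ↥D.tile := (φ.symm.toHomeomorph.image D.tile).symm
      have e2 : ↥(Metric.closedBall (0 : (Fin m ⊕ Bool → ℝ) × ℝ) 1) ≃ₜ
          ↥(φ.symm '' (Metric.closedBall (0 : (Fin m ⊕ Bool → ℝ) × ℝ) 1)) :=
        φ.symm.toHomeomorph.image _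
      obtain ⟨e3⟩ := ball_of_convex (S := φ.symm '' (Metric.closedBall (0 : (Fin m ⊕ Bool → ℝ) × ℝ) 1))
        (Homeomorph.refl _) (by
          simpa using (convex_closedBall (0 : (Fin m ⊕ Bool → ℝ) × ℝ) 1).linear_image
            (φ.symm : ((Fin m ⊕ Bool → ℝ) × ℝ) →ₗ[ℝ] EuclideanSpace ℝ (Fin d)))
        ((isCompact_closedBall _ _).image φ.symm.continuous) (by
          have : (interior (Metric.closedBall (0 : (Fin m ⊕ Bool → ℝ) × ℝ) 1)).Nonempty :=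
            ⟨0, Metric.ball_subset_interior_closedBall (Metric.mem_ball_self one_pos)⟩
          have h3 := this.image φ.symm
          rwa [show φ.symm '' interior (Metric.closedBall (0 : (Fin m ⊕ Bool → ℝ) × ℝ) 1) =
            interior (φ.symm '' (Metric.closedBall (0 : (Fin m ⊕ Bool → ℝ) × ℝ) 1)) from
              φ.symm.toHomeomorph.image_interior _] at h3)
      exact ⟨((e1.trans eball).trans e2).trans e3⟩)
    ⟨φ.symm '' Λ₀, by
      have := ae_transfer (volume : Measure (EuclideanSpace ℝ (Fin d)))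
        (volume : Measure ((Fin m ⊕ Bool → ℝ) × ℝ)) φ hΛ₀
      filter_upwards [this] with x hx
      obtain ⟨t, ⟨h1, h2⟩, h3⟩ := hx
      refine ⟨φ.symm t, ⟨⟨t, h1, rfl⟩, ?_⟩, ?_⟩
      · rw [memS]; simpa using h2
      · rintro y ⟨⟨t', ht', rfl⟩, hy⟩
        rw [memS] at hy
        rw [h3 t' ⟨ht', by simpa using hy⟩]⟩
  -- back to the product space
  have hΛ' : ∀ᵐ p : (Fin m ⊕ Bool → ℝ) × ℝ, ∃! t, t ∈ φ '' Λ ∧ p - t ∈ D.tile := by
    have := ae_transfer (volume : Measure ((Fin m ⊕ Bool → ℝ) × ℝ))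
      (volume : Measure (EuclideanSpace ℝ (Fin d))) φ.symm hΛ
    filter_upwards [this] with x hx
    obtain ⟨t, ⟨h1, h2⟩, h3⟩ := hx
    rw [memS] at h2
    refine ⟨φ t, ⟨⟨t, h1, rfl⟩, by simpa using h2⟩, ?_⟩
    rintro y ⟨⟨t', ht', rfl⟩, hy⟩
    rw [h3 t' ⟨ht', by rw [memS]; simpa using hy⟩]
  obtain ⟨T', hT', N, hN, hNp⟩ := rigidStatement (Fin m ⊕ Bool) D (φ '' Λ) hΛ'
    (fun i => φ (v (Fintype.equivFin (Option (Fin m ⊕ Bool)) i))) (by
      have h1 := hv.map' (φ : EuclideanSpace ℝ (Fin d) →ₗ[ℝ] (Fin m ⊕ Bool → ℝ) × ℝ)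
        (LinearMap.ker_eq_bot.2 φ.injective)
      exact h1.comp _ (Fintype.equivFin (Option (Fin m ⊕ Bool))).injective)
    (by
      rintro i _ ⟨t, ht, rfl⟩
      have := hper (Fintype.equivFin (Option (Fin m ⊕ Bool)) i) t ht
      exact ⟨⟨_, this.1, by simp⟩, ⟨_, this.2, by simp⟩⟩)
  obtain ⟨h1, h2⟩ := unlift_tiles hDJ hDn hL hL1 hx hT' hNp
  exact hno ⟨_, h1, N, hN, h2⟩

end Pool.Agent.BallTile
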