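import Pool.Agent.Lib.MP_0960bd_co.Interface

/-!
# MP_0960bd_co : definitions for the geometric part (helper94)

Ambient space `(ι → ℝ) × ℝ` (sup norm); the last coordinate `s` is the stacking direction.
Block `b` (`b < J`) consists of the cells `x b i + [0,1]^ι` (`i ≤ n`) at height `s ∈ [2b, 2b+1]` and of
the tubes `tubeBase b i` (`i ≤ n`) at height `s ∈ [2b+1, 2b+2]`.  The tube `i = n` (the special tube) touches all
cells of block `b` and the cell `(b+1, n)`, the tube `i < n` only touches the cell `(b, i)`.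
The tile is `key '' body` for a lattice-equivariant homeomorphism `key`.
-/

set_option autoImplicit false

noncomputable section

namespace Pool.Agent.BallTile

open Set

/-- combinatorial data of the tile -/
structure GeoData (ι : Type) where
  /-- free direction (all blocks have coordinate `0`) -/
  u : ι
  /-- direction in which the cells of each block, and the blocks, are separated by gaps `≥ 2` -/
  t : ι
  hut : u ≠ t
  /-- cells of each block: indices `0, …, n` -/
  n : ℕ
  /-- number of blocks -/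
  J : ℕ
  hJ : 0 < J
  x : ℕ → ℕ → ι → ℤ
  hu : ∀ b i, x b i u = 0
  ht : ∀ b i, i < n → x b i t + 2 ≤ x b (i + 1) t
  ht' : ∀ b, x (b + 1) n t + 2 ≤ x b 0 t

variable {ι : Type} [Fintype ι] [DecidableEq ι]

/-- cast of an integer vector -/
def cast (z : ι → ℤ) : ι → ℝ := fun l => (z l : ℝ)

/-- clamp to `[0,1]` -/
def clamp (z : ℝ) : ℝ := max 0 (min 1 z)

/-- distance to the nearest integer -/
def nd (r : ℝ) : ℝ := ‖(r : UnitAddCircle)‖

namespace GeoData

variable (D : GeoData ι)

/-- nodes of the axis of the tubes in block `b`: `node b 0` is the position of the last cell of block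
`b+1`, `node b (i+1)` is the position of the cell `i` of block `b`. -/
def node (b : ℕ) : ℕ → ι → ℝ
  | 0 => cast (D.x (b + 1) D.n)
  | i + 1 => cast (D.x b i)

/-- axis of the tubes in block `b`; the parameter `z` runs in `[0, 2n+3]`, the axis rests at `node b k`
for `z ∈ [2k, 2k+1]`. -/
def axis (b : ℕ) (z : ℝ) : ι → ℝ :=
  D.node b 0 + ∑ k ∈ Finset.range (D.n + 1), clamp (z - (2 * k + 1)) • (D.node b (k + 1) - D.node b k)

/-- the offset of the tubes in direction `u` -/
def rho : ℝ := 1 / (4 * D.n + 6)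

/-- the parameter of the axis as a function of the `u`-coordinate -/
def zpar (r : ℝ) : ℝ := (2 * D.n + 3) * (r - D.rho)

/-- the special tube of block `b` (a sheared unit cube) -/
def tube0 (b : ℕ) : Set (ι → ℝ) :=
  {p | ∀ l, (p - D.axis b (D.zpar (p D.u))) l - (if l = D.u then D.rho else 0) ∈ Icc (0 : ℝ) 1}

/-- integer displacement of the tube `(b,i)` with respect to the special tube -/
def disp (b i : ℕ) : ι → ℤ :=
  D.x b i - D.x b D.n - (if i = D.n then 0 else Pi.single D.u 1)

/-- base of the tube `(b,i)` -/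
def tubeBase (b i : ℕ) : Set (ι → ℝ) := {p | p - cast (D.disp b i) ∈ D.tube0 b}

/-- base of the cell `(b,i)` -/
def cellBase (b i : ℕ) : Set (ι → ℝ) := {p | ∀ l, (p - cast (D.x b i)) l ∈ Icc (0 : ℝ) 1}

/-- the cell `(b,i)` -/
def cell (b i : ℕ) : Set ((ι → ℝ) × ℝ) := D.cellBase b i ×ˢ Icc (2 * b : ℝ) (2 * b + 1)

/-- the tube `(b,i)` -/
def tube (b i : ℕ) : Set ((ι → ℝ) × ℝ) := D.tubeBase b i ×ˢ Icc (2 * b + 1 : ℝ) (2 * b + 2)

/-- the union of all pieces -/
def body : Set ((ι → ℝ) × ℝ) :=
  {p | ∃ b i, b < D.J ∧ i ≤ D.n ∧ (p ∈ D.cell b i ∨ p ∈ D.tube b i)}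

/-- distance of `s` to `1/2 + 2J ℤ` -/
def nds (s : ℝ) : ℝ := ‖((s - 1 / 2 : ℝ) : AddCircle (2 * D.J : ℝ))‖

/-- lateral distance to the centres of the facets perpendicular to `e_i` -/
def lat (i : ι) (p : ι → ℝ) : ℝ := ‖(fun l => if l = i then (0 : ℝ) else nd (p l - 1 / 2))‖

/-- height of the dent/bump in direction `i` -/
def bump (i : ι) (q : (ι → ℝ) × ℝ) : ℝ :=
  max 0 (1 / 64 - 1 / 4 * max (lat i q.1) (D.nds q.2) - 1 / 2 * nd (q.1 i))

/-- the key map `ψ` -/
def key (q : (ι → ℝ) × ℝ) : (ι → ℝ) × ℝ := (fun i => q.1 i - D.bump i q, q.2)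

/-- the tile -/
def tile : Set ((ι → ℝ) × ℝ) := D.key '' D.body

end GeoData

end Pool.Agent.BallTile
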