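import Mathlib

/-!
# MP_0960bd_co : interfaces between the modules of the aperiodic topological ball tile

* module A (`SystemMain`): a finite system of boolean functions on `ℤ²` (periodicity / antiperiodicity
  requirements and one pointwise constraint) with a solution but without a periodic solution;
* module B (`SystemMain → DiscreteMain`): encoding by simultaneous tiling equations with blocks of
  equal cardinality;
* module G (`DiscreteMain →` frozen statement S07062): geometry.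
-/

set_option autoImplicit false

namespace Pool.Agent.BallTile

/-- `b` solves the system `(N, I, Ω)` : `N` boolean unknown functions on `ℤ²`, a finite set `I` of
requirements `b j (x + v) = b j x xor e` and a pointwise constraint `Ω`. -/
def SysSol (N : ℕ) (I : Finset (Fin N × (ℤ × ℤ) × Bool)) (Ω : Finset (Fin N → Bool))
    (b : Fin N → ℤ × ℤ → Bool) : Prop :=
  (∀ p ∈ I, ∀ x, b p.1 (x + p.2.1) = xor (b p.1 x) p.2.2) ∧ ∀ x, (fun j => b j x) ∈ Ω

/-- Module A. -/
def SystemMain : Prop :=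
  ∃ (N : ℕ) (I : Finset (Fin N × (ℤ × ℤ) × Bool)) (Ω : Finset (Fin N → Bool)),
    (∃ b, SysSol N I Ω b) ∧
    ¬ ∃ b, SysSol N I Ω b ∧
      ∃ M : ℤ, 0 < M ∧ ∀ j x, b j (x + (M, 0)) = b j x ∧ b j (x + (0, M)) = b j x

/-- `T ⊕ X = ℤ^m` for the block `X = {X 0, …, X (n-1)}`. -/
def Tiles {m n : ℕ} (T : Set (Fin m → ℤ)) (X : Fin n → (Fin m → ℤ)) : Prop :=
  ∀ z : Fin m → ℤ, ∃! p : (Fin m → ℤ) × Fin n, p.1 ∈ T ∧ p.1 + X p.2 = z

/-- The discrete theorem (modules A and B together). -/
def DiscreteMain : Prop :=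
  ∃ (m J n : ℕ) (X : Fin J → Fin n → (Fin m → ℤ)),
    (∃ T, ∀ b, Tiles T (X b)) ∧
    ¬ ∃ T, (∀ b, Tiles T (X b)) ∧
      ∃ N : ℤ, 0 < N ∧ ∀ i, ∀ t ∈ T, t + Pi.single i N ∈ T ∧ t - Pi.single i N ∈ T

end Pool.Agent.BallTile
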