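import Pool.Agent.Lib.MP_0960bd_co.Sys

/-!
# MP_0960bd_co, module A, part 2 (helper95): the 2-adic model of the functional system
-/

set_option autoImplicit false

namespace Pool.Agent.BallTile.Sys

/-- 2-adic valuation modulo 3 -/
def cl (X : ℤ) : ZMod 3 := (padicValInt 2 X : ZMod 3)

/-- is the odd part `≡ 3` modulo 4? -/
def db (X : ℤ) : Bool := decide ((X / 2 ^ (padicValInt 2 X)) % 4 = 3)

theorem decomp (X : ℤ) (hX : X ≠ 0) : ∃ (v : ℕ) (m : ℤ), X = 2 ^ v * m ∧ m % 2 = 1 := by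
  obtain ⟨k, m, hm, h⟩ := Nat.exists_eq_two_pow_mul_odd (n := X.natAbs) (by simpa using hX)
  have hm' : m % 2 = 1 := Nat.odd_iff.1 hm
  rcases Int.natAbs_eq X with h' | h'
  · refine ⟨k, m, ?_, by omega⟩
    rw [h', h]; push_cast; ring
  · refine ⟨k, -m, ?_, by omega⟩
    rw [h', h]; push_cast; ring

theorem val_eq (v : ℕ) (m : ℤ) (hm : m % 2 = 1) : padicValInt 2 (2 ^ v * m) = v := by
  have hm0 : m ≠ 0 := by rintro rfl; simp at hm
  have hm1 : ¬ 2 ∣ m.natAbs := by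
    intro h
    omega
  unfold padicValInt
  rw [Int.natAbs_mul, Int.natAbs_pow, padicValNat.mul (by positivity) (by simpa using hm0)]
  rw [padicValNat.eq_zero_of_not_dvd hm1]
  simp

theorem cl_eq (v : ℕ) (m : ℤ) (hm : m % 2 = 1) : cl (2 ^ v * m) = v := by
  unfold cl
  rw [val_eq v m hm]

theorem db_eq (v : ℕ) (m : ℤ) (hm : m % 2 = 1) : db (2 ^ v * m) = decide (m % 4 = 3) := by
  unfold db
  rw [val_eq v m hm, Int.mul_ediv_cancel_left _ (by positivity)]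

theorem coreA (u Y Z W : ℤ) (hu : u % 4 = 1) (hY : Y ≠ 0) (hZ : Z ≠ 0)
    (hW : W = -(u * Y + Z)) (h1 : cl Y = cl Z) (h2 : db Y = db Z) :
    cl W = cl Y + 1 ∨ (cl W = cl Y ∧ db W ≠ db Y) := by
  obtain ⟨y, m, rfl, hm⟩ := decomp Y hY
  obtain ⟨z, n, rfl, hn⟩ := decomp Z hZ
  rw [cl_eq y m hm, cl_eq z n hn, ZMod.natCast_eq_natCast_iff'] at h1
  rw [db_eq y m hm, db_eq z n hn, decide_eq_decide] at h2
  rw [cl_eq y m hm, db_eq y m hm]
  obtain ⟨t, ht⟩ : ∃ t, u = 4 * t + 1 := ⟨u / 4, by omega⟩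
  rcases lt_trichotomy y z with h | h | h
  · obtain ⟨c, hc⟩ : ∃ c, z = y + 3 + c := ⟨z - (y + 3), by omega⟩
    right
    have e : W = 2 ^ y * (-m - 4 * (t * m) - 8 * (2 ^ c * n)) := by
      rw [hW, hc, ht]; ring
    rw [e]
    generalize t * m = k
    generalize (2 ^ c * n : ℤ) = K
    have ho : (-m - 4 * k - 8 * K) % 2 = 1 := by omega
    rw [cl_eq _ _ ho, db_eq _ _ ho]
    refine ⟨rfl, ?_⟩
    rw [ne_eq, decide_eq_decide]
    omega
  · left
    subst h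
    have e : W = 2 ^ y * (-m - 4 * (t * m) - n) := by
      rw [hW, ht]; ring
    generalize t * m = k at e
    obtain ⟨l, hl, hl'⟩ : ∃ l, -m - 4 * k - n = 2 * l ∧ l % 2 = 1 :=
      ⟨(-m - 4 * k - n) / 2, by omega, by omega⟩
    have e' : W = 2 ^ (y + 1) * l := by
      rw [e, hl]; ring
    rw [e', cl_eq _ _ hl']
    push_cast; ring
  · obtain ⟨c, hc⟩ : ∃ c, y = z + 3 + c := ⟨y - (z + 3), by omega⟩
    right
    have e : W = 2 ^ z * (-n - 8 * (2 ^ c * m * u)) := by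
      rw [hW, hc]; ring
    rw [e]
    generalize (2 ^ c * m * u : ℤ) = K
    have ho : (-n - 8 * K) % 2 = 1 := by omega
    rw [cl_eq _ _ ho, db_eq _ _ ho]
    refine ⟨?_, ?_⟩
    · rw [ZMod.natCast_eq_natCast_iff']
      omega
    · rw [ne_eq, decide_eq_decide]
      omega

theorem coreBii (X Y : ℤ) (hX : X ≠ 0) (hY : Y ≠ 0)
    (h1 : cl Y = cl X) (h2 : cl (X + 4 * Y) = cl X) : db (X + 4 * Y) = db X := by
  obtain ⟨x, l, rfl, hl⟩ := decomp X hX
  obtain ⟨y, m, rfl, hm⟩ := decomp Y hY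
  rw [cl_eq x l hl, cl_eq y m hm, ZMod.natCast_eq_natCast_iff'] at h1
  rw [cl_eq x l hl] at h2
  rw [db_eq x l hl]
  rcases le_or_gt x y with h | h
  · obtain ⟨c, hc⟩ : ∃ c, y = x + c := ⟨y - x, by omega⟩
    have e : (2 ^ x * l + 4 * (2 ^ y * m) : ℤ) = 2 ^ x * (l + 4 * (2 ^ c * m)) := by
      rw [hc]; ring
    rw [e]
    generalize (2 ^ c * m : ℤ) = K
    have ho : (l + 4 * K) % 2 = 1 := by omega
    rw [db_eq _ _ ho, decide_eq_decide]
    omega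
  · exfalso
    obtain ⟨c, hc⟩ : ∃ c, x = y + 3 + c := ⟨x - (y + 3), by omega⟩
    have e : (2 ^ x * l + 4 * (2 ^ y * m) : ℤ) = 2 ^ (y + 2) * (m + 2 * (2 ^ c * l)) := by
      rw [hc]; ring
    rw [e] at h2
    generalize (2 ^ c * l : ℤ) = K at h2
    have ho : (m + 2 * K) % 2 = 1 := by omega
    rw [cl_eq _ _ ho, ZMod.natCast_eq_natCast_iff'] at h2
    omega

theorem coreBi (X Y Z : ℤ) (hX : X ≠ 0) (hY : Y ≠ 0) (hZ : Z ≠ 0) (hs : X = - Y - Z)
    (h1 : cl Y + 1 = cl X) (h2 : cl Z + 1 = cl X) (h3 : cl (X + 4 * Y) = cl X) :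
    db (X + 4 * Y) ≠ db X := by
  obtain ⟨x, l, rfl, hl⟩ := decomp X hX
  obtain ⟨y, m, rfl, hm⟩ := decomp Y hY
  obtain ⟨z, n, rfl, hn⟩ := decomp Z hZ
  have g1 : ((y + 1 : ℕ) : ZMod 3) = (x : ℕ) := by
    rw [cl_eq x l hl, cl_eq y m hm] at h1
    push_cast; exact h1
  have g2 : ((z + 1 : ℕ) : ZMod 3) = (x : ℕ) := by
    rw [cl_eq x l hl, cl_eq z n hn] at h2
    push_cast; exact h2
  rw [ZMod.natCast_eq_natCast_iff'] at g1 g2
  have g3 : cl (2 ^ x * l) = (x : ℕ) := cl_eq x l hl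
  rw [db_eq x l hl]
  rcases lt_trichotomy y z with h | h | h
  · exfalso
    obtain ⟨c, hc⟩ : ∃ c, z = y + 1 + c := ⟨z - (y + 1), by omega⟩
    have e : (2 ^ x * l : ℤ) = 2 ^ y * (-m - 2 * (2 ^ c * n)) := by
      rw [hs, hc]; ring
    rw [e] at g3
    generalize (2 ^ c * n : ℤ) = K at g3
    have ho : (-m - 2 * K) % 2 = 1 := by omega
    rw [cl_eq _ _ ho, ZMod.natCast_eq_natCast_iff'] at g3
    omega
  · subst h
    rcases lt_trichotomy x (y + 1) with h' | h' | h'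
    · exfalso
      obtain ⟨c, hc⟩ : ∃ c, y = x + c := ⟨y - x, by omega⟩
      have e : (2 ^ x * l : ℤ) = 2 ^ x * (2 ^ c * (- m - n)) := by
        rw [hs, hc]; ring
      have e' : l = 2 ^ c * (- m - n) := mul_left_cancel₀ (by positivity) e
      obtain ⟨w, hw⟩ : ∃ w, -m - n = 2 * w := ⟨(-m - n) / 2, by omega⟩
      rw [hw] at e'
      have : l = 2 * (2 ^ c * w) := by rw [e']; ring
      omega
    · have e : (2 ^ x * l + 4 * (2 ^ y * m) : ℤ) = 2 ^ x * (l + 2 * m) := by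
        rw [h']; ring
      have ho : (l + 2 * m) % 2 = 1 := by omega
      rw [e, db_eq _ _ ho, ne_eq, decide_eq_decide]
      omega
    · exfalso
      obtain ⟨c, hc⟩ : ∃ c, x = y + 3 + c := ⟨x - (y + 3), by omega⟩
      have e : (2 ^ x * l + 4 * (2 ^ y * m) : ℤ) = 2 ^ (y + 2) * (m + 2 * (2 ^ c * l)) := by
        rw [hc]; ring
      rw [g3, e] at h3
      generalize (2 ^ c * l : ℤ) = K at h3
      have ho : (m + 2 * K) % 2 = 1 := by omega
      rw [cl_eq _ _ ho, ZMod.natCast_eq_natCast_iff'] at h3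
      omega
  · exfalso
    obtain ⟨c, hc⟩ : ∃ c, y = z + 1 + c := ⟨y - (z + 1), by omega⟩
    have e : (2 ^ x * l : ℤ) = 2 ^ z * (-n - 2 * (2 ^ c * m)) := by
      rw [hs, hc]; ring
    rw [e] at g3
    generalize (2 ^ c * m : ℤ) = K at g3
    have ho : (-n - 2 * K) % 2 = 1 := by omega
    rw [cl_eq _ _ ho, ZMod.natCast_eq_natCast_iff'] at g3
    omega

end Pool.Agent.BallTile.Sys
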