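import Pool.Agent.Lib.MP_0960bd_co.Contact
import Pool.Agent.Lib.MP_0960bd_co.Attach

/-!
# MP_0960bd_co : the pieces of the body, their intersections, attaching them (helper94)
-/

set_option autoImplicit false
set_option linter.unusedSectionVars false

namespace Pool.Agent.BallTile

open Set Metric

variable {ι : Type} [Fintype ι] [DecidableEq ι]

namespace GeoData

variable (D : GeoData ι)

theorem node_succ (b i : ℕ) : D.node b (i + 1) = cast (D.x b i) := rfl

theorem cellBase_eq_node (b i : ℕ) : D.cellBase b i = box (D.node b (i + 1)) := rfl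

theorem cellBase_eq_node_zero (b : ℕ) : D.cellBase (b + 1) D.n = box (D.node b 0) := rfl

/-- in the cube range `0 ≤ p u ≤ 1`, a leaf is a straight column over its cell -/
theorem leaf_straight {b i : ℕ} (hi : i < D.n) {p : ι → ℝ} (hp : p ∈ D.tubeBase b i)
    (h0 : 0 ≤ p D.u) :
    p D.u ≤ D.rho ∧ ∀ l, l ≠ D.u → p l - (D.x b i l : ℝ) ∈ Icc (0 : ℝ) 1 := by
  rw [mem_tubeBase] at hp
  obtain ⟨h1, h2⟩ := hp
  have hd : D.du i = -1 := by simp [du, hi.ne]
  rw [hd] at h1 h2
  refine ⟨by linarith [h1.2], fun l hl => ?_⟩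
  have hz : 2 * (D.n : ℝ) + 2 ≤ D.zpar (p D.u - -1) := by
    have := D.zpar_mono (show (1 : ℝ) ≤ p D.u - -1 by linarith)
    rw [D.zpar_one] at this
    linarith
  have h3 := h2 l hl
  rw [D.axis_rest_last hz, D.node_succ] at h3
  simp only [cast] at h3
  convert h3 using 1
  ring

/-- contact of a leaf with its cell -/
theorem leaf_contact_eq {b i : ℕ} (hi : i < D.n) :
    D.tubeBase b i ∩ D.cellBase b i =
      {p : ι → ℝ | p D.u ∈ Icc 0 D.rho ∧ ∀ l, l ≠ D.u → p l - (D.x b i l : ℝ) ∈ Icc (0 : ℝ) 1} := by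
  ext p
  have hd : D.du i = -1 := by simp [du, hi.ne]
  constructor
  · rintro ⟨h1, h2⟩
    have hu : 0 ≤ p D.u := by
      have := (h2 D.u).1
      simpa [cast, D.hu] using this
    obtain ⟨h3, h4⟩ := D.leaf_straight hi h1 hu
    exact ⟨⟨hu, h3⟩, h4⟩
  · rintro ⟨h1, h2⟩
    have hρ := D.rho_lt
    refine ⟨?_, ?_⟩
    · rw [mem_tubeBase, hd]
      refine ⟨⟨by linarith [h1.1], by linarith [h1.2]⟩, fun l hl => ?_⟩
      have hz : 2 * (D.n : ℝ) + 2 ≤ D.zpar (p D.u - -1) := by
        have := D.zpar_mono (show (1 : ℝ) ≤ p D.u - -1 by linarith [h1.1])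
        rw [D.zpar_one] at this
        linarith
      rw [D.axis_rest_last hz, D.node_succ]
      simp only [cast]
      convert h2 l hl using 1
      ring
    · intro l
      by_cases hl : l = D.u
      · subst hl
        simp only [Pi.sub_apply, cast, D.hu, Int.cast_zero, sub_zero]
        exact ⟨h1.1, by linarith [h1.2]⟩
      · exact h2 l hl

theorem convex_prodlike (u : ι) (a b : ℝ) (m : ι → ℝ) :
    Convex ℝ {p : ι → ℝ | p u ∈ Icc a b ∧ ∀ l, l ≠ u → p l - m l ∈ Icc (0 : ℝ) 1} := by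
  intro p hp q hq c d hc hd hcd
  refine ⟨convex_Icc a b hp.1 hq.1 hc hd hcd, fun l hl => ?_⟩
  have := convex_Icc (0 : ℝ) 1 (hp.2 l hl) (hq.2 l hl) hc hd hcd
  simp only [smul_eq_mul, Pi.add_apply, Pi.smul_apply] at this ⊢
  have hm : m l = c * m l + d * m l := by rw [← add_mul, hcd, one_mul]
  convert this using 1
  nth_rewrite 1 [hm]
  ring

theorem convex_leaf_contact {b i : ℕ} (hi : i < D.n) :
    Convex ℝ (D.shr b (D.du i) '' (D.tubeBase b i ∩ D.cellBase b i)) := by
  have : D.shr b (D.du i) '' (D.tubeBase b i ∩ D.cellBase b i) =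
      {p : ι → ℝ | p D.u ∈ Icc 0 D.rho ∧ ∀ l, l ≠ D.u →
        p l - (D.x b i l - D.x b D.n l : ℝ) ∈ Icc (0 : ℝ) 1} := by
    have hd : D.du i = -1 := by simp [du, hi.ne]
    rw [D.leaf_contact_eq hi, hd, ← Homeomorph.preimage_symm]
    ext p
    simp only [mem_preimage, mem_ofPred_eq, shear_symm_apply, Pi.add_apply, D.axisU, add_zero]
    refine and_congr_right fun h1 => forall_congr' fun l => forall_congr' fun hl => ?_
    have hz : 2 * (D.n : ℝ) + 2 ≤ D.zpar (p D.u - -1) := by
      have := D.zpar_mono (show (1 : ℝ) ≤ p D.u - -1 by linarith [h1.1])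
      rw [D.zpar_one] at this
      linarith
    rw [D.axis_rest_last hz, D.node_succ]
    simp only [cast]
    constructor <;> intro h <;> convert h using 1 <;> ring
  rw [this]
  exact convex_prodlike D.u 0 D.rho (fun l => (D.x b i l - D.x b D.n l : ℝ))

theorem interior_leaf_contact {b i : ℕ} (hi : i < D.n) :
    (interior (D.tubeBase b i ∩ D.cellBase b i)).Nonempty := by
  rw [D.leaf_contact_eq hi]
  have hρ := D.rho_pos
  set O : Set (ι → ℝ) := {p : ι → ℝ | p D.u ∈ Ioo 0 D.rho} ∩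
    {p : ι → ℝ | ∀ l, l ≠ D.u → p l - (D.x b i l : ℝ) ∈ Ioo (0 : ℝ) 1} with hO
  have Oo : IsOpen O := by
    apply IsOpen.inter
    · exact isOpen_Ioo.preimage (continuous_apply _)
    · simp only [ofPred_forall]
      apply isOpen_iInter_of_finite
      intro l
      apply isOpen_iInter_of_finite
      intro _
      exact isOpen_Ioo.preimage ((continuous_apply l).sub continuous_const)
  have Osub : O ⊆ {p : ι → ℝ | p D.u ∈ Icc 0 D.rho ∧ ∀ l, l ≠ D.u → p l - (D.x b i l : ℝ) ∈ Icc (0 : ℝ) 1} := by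
    rintro p ⟨h1, h3⟩
    exact ⟨Ioo_subset_Icc_self h1, fun l hl => Ioo_subset_Icc_self (h3 l hl)⟩
  have One : O.Nonempty := by
    refine ⟨fun l => if l = D.u then D.rho / 2 else D.x b i l + 1 / 2, ?_, ?_⟩
    · simp only [mem_ofPred_eq, if_true]
      constructor <;> linarith
    · intro l hl
      simp only [if_neg hl]
      constructor <;> linarith
  exact One.mono (interior_maximal Osub Oo)

/-! ### intersections of pieces -/

theorem cell_cell {b b' i j : ℕ} (hi : i ≤ D.n) (hj : j ≤ D.n)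
    (h : (D.cell b i ∩ D.cell b' j).Nonempty) : b = b' ∧ i = j := by
  obtain ⟨⟨p, s⟩, ⟨h1, h2⟩, ⟨h3, h4⟩⟩ := h
  simp only at h1 h2 h3 h4
  have hb : b = b' := by
    have e1 : (2 * b : ℝ) < 2 * b' + 2 := by linarith [h2.1, h4.2]
    have e2 : (2 * b' : ℝ) < 2 * b + 2 := by linarith [h2.2, h4.1]
    have e3 : 2 * b < 2 * b' + 2 := by exact_mod_cast e1
    have e4 : 2 * b' < 2 * b + 2 := by exact_mod_cast e2
    omega
  subst hb
  refine ⟨rfl, ?_⟩
  have e1 := h1 D.t
  have e2 := h3 D.t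
  simp only [Pi.sub_apply, cast] at e1 e2
  have key : ∀ a c : ℤ, a + 2 ≤ c → (p D.t - a ∈ Icc (0 : ℝ) 1) → (p D.t - c ∈ Icc (0 : ℝ) 1) →
      False := by
    intro a c hac ha hc
    have : (a : ℝ) + 2 ≤ c := by exact_mod_cast hac
    linarith [ha.2, hc.1]
  rcases lt_trichotomy i j with hij | hij | hij
  · exact (key _ _ (D.gap hij hj) e1 e2).elim
  · exact hij
  · exact (key _ _ (D.gap hij hi) e2 e1).elim

theorem tube_tube {b b' i j : ℕ} (hi : i ≤ D.n) (hj : j ≤ D.n)
    (h : (D.tube b i ∩ D.tube b' j).Nonempty) : b = b' ∧ i = j := by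
  obtain ⟨⟨p, s⟩, ⟨h1, h2⟩, ⟨h3, h4⟩⟩ := h
  simp only at h1 h2 h3 h4
  have hb : b = b' := by
    have e1 : (2 * b : ℝ) < 2 * b' + 2 := by linarith [h2.1, h4.2]
    have e2 : (2 * b' : ℝ) < 2 * b + 2 := by linarith [h2.2, h4.1]
    have e3 : 2 * b < 2 * b' + 2 := by exact_mod_cast e1
    have e4 : 2 * b' < 2 * b + 2 := by exact_mod_cast e2
    omega
  subst hb
  refine ⟨rfl, ?_⟩
  clear h2 h4
  -- leaf against special tube
  have key1 : ∀ i < D.n, p ∈ D.tubeBase b i → p ∈ D.tubeBase b D.n → False := by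
    intro i hi hp hq
    have hρ := D.rho_pos
    rw [mem_tubeBase_last] at hq
    obtain ⟨q1, q2⟩ := hq
    obtain ⟨l1, l2⟩ := D.leaf_straight hi hp (by linarith [q1.1])
    have hu : p D.u = D.rho := le_antisymm l1 (by linarith [q1.1])
    have e1 := q2 D.t D.hut.symm
    have e2 := l2 D.t D.hut.symm
    rw [hu, D.zpar_rho, D.axis_rest_zero (by norm_num)] at e1
    simp only [node, cast] at e1
    have e3 := D.gap' (b := b) (i := D.n) (j := i) le_rfl hi.le
    have e4 : (D.x (b + 1) D.n D.t : ℝ) + 2 ≤ D.x b i D.t := by exact_mod_cast e3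
    linarith [e1.2, e2.1]
  -- two leaves (or the same displacement)
  have key2 : ∀ i j, i < j → j < D.n → p ∈ D.tubeBase b i → p ∈ D.tubeBase b j → False := by
    intro i j hij hj hp hq
    rw [mem_tubeBase] at hp hq
    have hd1 : D.du i = -1 := by simp [du, (hij.trans hj).ne]
    have hd2 : D.du j = -1 := by simp [du, hj.ne]
    rw [hd1] at hp
    rw [hd2] at hq
    have e1 := hp.2 D.t D.hut.symm
    have e2 := hq.2 D.t D.hut.symm
    have e3 := D.gap (b := b) hij hj.le
    have e4 : (D.x b i D.t : ℝ) + 2 ≤ D.x b j D.t := by exact_mod_cast e3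
    linarith [e1.2, e2.1]
  rcases lt_trichotomy i j with hij | hij | hij
  · rcases Nat.lt_or_ge j D.n with hj' | hj'
    · exact (key2 i j hij hj' h1 h3).elim
    · have : j = D.n := by omega
      subst this
      exact (key1 i hij h1 h3).elim
  · exact hij
  · rcases Nat.lt_or_ge i D.n with hi' | hi'
    · exact (key2 j i hij hi' h3 h1).elim
    · have : i = D.n := by omega
      subst this
      exact (key1 j hij h3 h1).elim

theorem cell_tube {b b' i j : ℕ} (hi : i ≤ D.n) (hj : j ≤ D.n)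
    (h : (D.cell b i ∩ D.tube b' j).Nonempty) :
    (b = b' ∧ (j = D.n ∨ j = i)) ∨ (b = b' + 1 ∧ i = D.n ∧ j = D.n) := by
  obtain ⟨⟨p, s⟩, ⟨h1, h2⟩, ⟨h3, h4⟩⟩ := h
  simp only at h1 h2 h3 h4
  have hb : b = b' ∨ b = b' + 1 := by
    have e1 : (2 * b : ℝ) ≤ 2 * b' + 2 := by linarith [h2.1, h4.2]
    have e2 : (2 * b' + 1 : ℝ) ≤ 2 * b + 1 := by linarith [h2.2, h4.1]
    have e3 : 2 * b ≤ 2 * b' + 2 := by exact_mod_cast e1
    have e4 : 2 * b' + 1 ≤ 2 * b + 1 := by exact_mod_cast e2
    omega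
  clear h2 h4
  have hu : 0 ≤ p D.u := by
    have := (h1 D.u).1
    simpa [cast, D.hu] using this
  have ht : p D.t - D.x b i D.t ∈ Icc (0 : ℝ) 1 := h1 D.t
  rcases hb with rfl | rfl
  · left
    refine ⟨rfl, ?_⟩
    by_cases hjn : j = D.n
    · exact Or.inl hjn
    · right
      have hj' : j < D.n := by omega
      obtain ⟨l1, l2⟩ := D.leaf_straight hj' h3 hu
      have e2 := l2 D.t D.hut.symm
      rcases lt_trichotomy i j with hij | hij | hij
      · have e3 := D.gap (b := b) hij hj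
        have e4 : (D.x b i D.t : ℝ) + 2 ≤ D.x b j D.t := by exact_mod_cast e3
        linarith [ht.2, e2.1]
      · exact hij.symm
      · have e3 := D.gap (b := b) hij hi
        have e4 : (D.x b j D.t : ℝ) + 2 ≤ D.x b i D.t := by exact_mod_cast e3
        linarith [ht.1, e2.2]
  · right
    refine ⟨rfl, ?_⟩
    by_cases hjn : j = D.n
    · refine ⟨?_, hjn⟩
      subst hjn
      by_contra hin
      have hi' : i < D.n := by omega
      rw [mem_tubeBase_last] at h3
      have e1 := h3.2 D.t D.hut.symm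
      have e2 := D.node_zero_le_axis b' (D.zpar (p D.u))
      simp only [node, cast] at e2
      have e3 := D.gap (b := b' + 1) hi' le_rfl
      have e4 : (D.x (b' + 1) i D.t : ℝ) + 2 ≤ D.x (b' + 1) D.n D.t := by exact_mod_cast e3
      linarith [ht.2, e1.1]
    · exfalso
      have hj' : j < D.n := by omega
      obtain ⟨l1, l2⟩ := D.leaf_straight hj' h3 hu
      have e2 := l2 D.t D.hut.symm
      have e3 := D.gap' (b := b') hi hj
      have e4 : (D.x (b' + 1) i D.t : ℝ) + 2 ≤ D.x b' j D.t := by exact_mod_cast e3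
      linarith [ht.2, e2.1]

/-! ### attaching pieces -/

/-- `C` can be attached to any closed set containing `A` and meeting `C` only in `A` -/
def Att (A C : Set ((ι → ℝ) × ℝ)) : Prop :=
  ∀ U : Set ((ι → ℝ) × ℝ), IsClosed U → A ⊆ U → U ∩ C ⊆ A → Nonempty (↥(U ∪ C) ≃ₜ ↥U)

theorem att_cell_below {b i : ℕ} (hi : i ≤ D.n) : Att (D.tube b D.n) (D.cell b i) := by
  intro U hU hA hUC
  have h : (2 * b : ℝ) < 2 * b + 1 := by linarith
  refine attach_below (K := D.tubeBase b D.n ∩ D.cellBase b i) hU h one_pos (Homeomorph.refl _)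
    ?_ (D.isCompact_cellBase b i) ?_ ?_ ?_ inter_subset_right ?_ ?_
  · simpa using D.convex_cellBase b i
  · rw [cellBase_eq_node]
    simpa using D.convex_contact (b := b) (k := i + 1) (by omega)
  · exact ((D.isCompact_tubeBase b D.n).inter (D.isCompact_cellBase b i)).isClosed
  · rw [cellBase_eq_node]
    exact D.interior_contact (b := b) (k := i + 1) (by omega)
  · intro q hq
    have h1 := hUC hq
    refine ⟨⟨h1.1, hq.2.1⟩, ?_⟩
    exact le_antisymm hq.2.2.2 h1.2.1
  · intro q hq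
    apply hA
    refine ⟨hq.1.1, hq.2.1, ?_⟩
    have := hq.2.2
    linarith

theorem att_cell_above (b : ℕ) : Att (D.tube b D.n) (D.cell (b + 1) D.n) := by
  intro U hU hA hUC
  have h : (2 * b + 2 : ℝ) < 2 * b + 3 := by linarith
  have e : D.cell (b + 1) D.n = D.cellBase (b + 1) D.n ×ˢ Icc (2 * b + 2 : ℝ) (2 * b + 3) := by
    unfold cell
    push_cast
    congr 2 <;> ring
  rw [e] at hUC ⊢
  refine attach_above (K := D.tubeBase b D.n ∩ D.cellBase (b + 1) D.n) hU h one_pos
    (Homeomorph.refl _) ?_ (D.isCompact_cellBase _ _) ?_ ?_ ?_ inter_subset_right ?_ ?_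
  · simpa using D.convex_cellBase (b + 1) D.n
  · rw [cellBase_eq_node_zero]
    simpa using D.convex_contact (b := b) (k := 0) (by omega)
  · exact ((D.isCompact_tubeBase b D.n).inter (D.isCompact_cellBase _ _)).isClosed
  · rw [cellBase_eq_node_zero]
    exact D.interior_contact (b := b) (k := 0) (by omega)
  · intro q hq
    have h1 := hUC hq
    refine ⟨⟨h1.1, hq.2.1⟩, ?_⟩
    exact le_antisymm h1.2.2 hq.2.2.1
  · intro q hq
    apply hA
    refine ⟨hq.1.1, ?_, hq.2.2⟩
    have := hq.2.1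
    linarith

theorem att_tube {b i : ℕ} (hi : i ≤ D.n) : Att (D.cell b i) (D.tube b i) := by
  intro U hU hA hUC
  have h : (2 * b + 1 : ℝ) < 2 * b + 2 := by linarith
  refine attach_above (K := D.tubeBase b i ∩ D.cellBase b i) hU h one_pos
    (D.shr b (D.du i)) (D.convex_shear_tubeBase b i) (D.isCompact_tubeBase _ _) ?_ ?_ ?_
    inter_subset_left ?_ ?_
  · rcases Nat.lt_or_ge i D.n with h' | h'
    · exact D.convex_leaf_contact h'
    · have : i = D.n := by omega
      subst this
      rw [cellBase_eq_node]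
      exact D.convex_shear_contact (b := b) (k := D.n + 1) le_rfl
  · exact ((D.isCompact_tubeBase b i).inter (D.isCompact_cellBase _ _)).isClosed
  · rcases Nat.lt_or_ge i D.n with h' | h'
    · exact D.interior_leaf_contact h'
    · have : i = D.n := by omega
      subst this
      rw [cellBase_eq_node]
      exact D.interior_contact (b := b) (k := D.n + 1) le_rfl
  · intro q hq
    have h1 := hUC hq
    refine ⟨⟨hq.2.1, h1.1⟩, ?_⟩
    exact le_antisymm h1.2.2 hq.2.2.1
  · intro q hq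
    apply hA
    refine ⟨hq.1.2, ?_, hq.2.2⟩
    have := hq.2.1
    linarith

end GeoData

end Pool.Agent.BallTile
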