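import Pool.Agent.Lib.MP_0960bd_co.Key

/-!
# MP_0960bd_co : general facts on a.e. exact covers by translates of a regular compact set
-/

set_option autoImplicit false
set_option linter.unusedSectionVars false

noncomputable section

namespace Pool.Agent.BallTile

open Set MeasureTheory Metric
open scoped Pointwise

section Cover

variable {E : Type*} [NormedAddCommGroup E] [ProperSpace E] [MeasurableSpace E]
  (μ : Measure E) [μ.IsOpenPosMeasure]

/-- a bounded `ε`-separated set is finite -/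
theorem finite_of_sep {S : Set E} (hb : Bornology.IsBounded S) {ε : ℝ} (hε : 0 < ε)
    (hs : ∀ x ∈ S, ∀ y ∈ S, x ≠ y → ε ≤ dist x y) : S.Finite := by
  have htb : TotallyBounded S := (hb.isCompact_closure.totallyBounded).subset subset_closure
  obtain ⟨t, htf, ht⟩ := (Metric.totallyBounded_iff.1 htb) (ε / 2) (by positivity)
  choose! f hf using fun x (hx : x ∈ S) => (by simpa using ht hx : ∃ y ∈ t, dist x y < ε / 2)
  refine htf.of_injOn (f := f) (fun x hx => (hf x hx).1) ?_
  intro x hx y hy hxy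
  by_contra hne
  have h1 := (hf x hx).2
  have h2 := (hf y hy).2
  have hxy' : f x = f y := hxy
  rw [← hxy'] at h2
  have h3 := hs x hx y hy hne
  have h4 := dist_triangle_right x y (f x)
  linarith

variable {Θ : Set E} (hreg : Θ ⊆ closure (interior Θ)) {Λ : Set E}
  (hΛ : ∀ᵐ p ∂μ, ∃! t, t ∈ Λ ∧ p - t ∈ Θ)

include hreg hΛ

/-- R2: no interior overlap -/
theorem cover_disj {t t' : E} (ht : t ∈ Λ) (ht' : t' ∈ Λ) (hne : t ≠ t') {p : E}
    (hp : p - t ∈ interior Θ) : p - t' ∉ Θ := by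
  intro hp'
  set U : Set E := {y | y + t' - t ∈ interior Θ} with hU
  have hUo : IsOpen U := isOpen_interior.preimage (by fun_prop)
  have hpU : p - t' ∈ U := by
    simp only [hU, mem_ofPred_eq]
    have : p - t' + t' - t = p - t := by abel
    rw [this]; exact hp
  obtain ⟨y, hyU, hyI⟩ := mem_closure_iff.1 (hreg hp') U hUo hpU
  set W : Set E := {x | x - t ∈ interior Θ} ∩ {x | x - t' ∈ interior Θ} with hW
  have hWo : IsOpen W :=
    (isOpen_interior.preimage (by fun_prop)).inter (isOpen_interior.preimage (by fun_prop))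
  have hWne : W.Nonempty := by
    refine ⟨y + t', ?_, ?_⟩
    · exact hyU
    · simp only [mem_ofPred_eq]
      have : y + t' - t' = y := by abel
      rw [this]; exact hyI
  have hpos := hWo.measure_pos μ hWne
  have hnull : μ W = 0 := by
    refine measure_mono_null ?_ (ae_iff.1 hΛ)
    intro x hx
    simp only [mem_ofPred_eq]
    rintro ⟨s, _, hs⟩
    have h1 := hs t ⟨ht, interior_subset hx.1⟩
    have h2 := hs t' ⟨ht', interior_subset hx.2⟩
    exact hne (h1.trans h2.symm)
  exact absurd hnull hpos.ne'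

/-- R3: local finiteness -/
theorem cover_finite (hc : IsCompact Θ) (hne : Θ.Nonempty) {B : Set E}
    (hB : Bornology.IsBounded B) : {t | t ∈ Λ ∧ ∃ p ∈ B, p - t ∈ Θ}.Finite := by
  obtain ⟨x, hx⟩ := hne
  obtain ⟨c, _, hc'⟩ := mem_closure_iff.1 (hreg hx) univ isOpen_univ (mem_univ _)
  obtain ⟨ε, hε, hball⟩ := Metric.isOpen_iff.1 isOpen_interior c hc'
  refine finite_of_sep ?_ hε ?_
  · have hsub : {t | t ∈ Λ ∧ ∃ p ∈ B, p - t ∈ Θ} ⊆ B - Θ := by
      rintro t ⟨_, p, hp, hpt⟩
      exact ⟨p, hp, p - t, hpt, by simp⟩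
    exact (hB.sub hc.isBounded).subset hsub
  · rintro t ⟨ht, _⟩ t' ⟨ht', _⟩ htt
    by_contra hlt
    push Not at hlt
    refine cover_disj μ hreg hΛ ht ht' htt (p := t' + c) ?_ ?_
    · apply hball
      rw [mem_ball, dist_eq_norm]
      have : t' + c - t - c = t' - t := by abel
      rw [this, ← dist_eq_norm, dist_comm]
      exact hlt
    · have : t' + c - t' = c := by abel
      rw [this]; exact interior_subset hc'

/-- closedness of unions of subfamilies, in the form of limits -/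
theorem cover_limit (hc : IsCompact Θ) (hne : Θ.Nonempty) (P : E → Prop) {p : E}
    (h : ∀ U : Set E, IsOpen U → p ∈ U → ∃ x ∈ U, ∃ t ∈ Λ, P t ∧ x - t ∈ Θ) :
    ∃ t ∈ Λ, P t ∧ p - t ∈ Θ := by
  have hfin := cover_finite μ hreg hΛ hc hne (B := ball p 1) isBounded_ball
  set F : Set E := {t | t ∈ Λ ∧ ∃ x ∈ ball p 1, x - t ∈ Θ} ∩ {t | P t} with hF
  have hFf : F.Finite := hfin.subset inter_subset_left
  have hcl : IsClosed (⋃ t ∈ F, {x : E | x - t ∈ Θ}) :=
    hFf.isClosed_biUnion fun t _ => hc.isClosed.preimage (by fun_prop)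
  by_contra hcon
  push Not at hcon
  have hpn : p ∉ ⋃ t ∈ F, {x : E | x - t ∈ Θ} := by
    simp only [mem_iUnion, mem_ofPred_eq, not_exists]
    intro t htF htp
    exact hcon t htF.1.1 htF.2 htp
  obtain ⟨x, hx, t, ht, hPt, hxt⟩ := h ((⋃ t ∈ F, {x : E | x - t ∈ Θ})ᶜ ∩ ball p 1)
    (hcl.isOpen_compl.inter isOpen_ball) ⟨hpn, mem_ball_self one_pos⟩
  apply hx.1
  simp only [mem_iUnion, mem_ofPred_eq]
  exact ⟨t, ⟨⟨ht, x, hx.2, hxt⟩, hPt⟩, hxt⟩

/-- R4: the translates cover everything -/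
theorem cover_all (hc : IsCompact Θ) (hne : Θ.Nonempty) (p : E) : ∃ t ∈ Λ, p - t ∈ Θ := by
  have key : ∀ U : Set E, IsOpen U → p ∈ U → ∃ x ∈ U, ∃ t ∈ Λ, True ∧ x - t ∈ Θ := by
    intro U hU hpU
    by_contra hcon
    push Not at hcon
    have hnull : μ U = 0 := by
      refine measure_mono_null ?_ (ae_iff.1 hΛ)
      intro x hx
      simp only [mem_ofPred_eq]
      rintro ⟨s, hs, _⟩
      exact hcon x hx s hs.1 trivial hs.2
    exact absurd hnull (hU.measure_pos μ ⟨p, hpU⟩).ne'
  obtain ⟨t, ht, _, h⟩ := cover_limit μ hreg hΛ hc hne (fun _ => True) key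
  exact ⟨t, ht, h⟩

end Cover

end Pool.Agent.BallTile
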