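import Pool.Agent.Lib.MP_0960bd_co.Rigid1

/-!
# MP_0960bd_co : topology of the body (compact, regular closed) and of the tile
-/

set_option autoImplicit false
set_option linter.unusedSectionVars false

noncomputable section

namespace Pool.Agent.BallTile

open Set MeasureTheory Metric

namespace GeoData

variable {ι : Type} [Fintype ι] [DecidableEq ι] (D : GeoData ι)

theorem node_u (b k : ℕ) : D.node b k D.u = 0 := by
  cases k with
  | zero => simp [node, cast, D.hu]
  | succ k => simp [node, cast, D.hu]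

theorem axis_u (b : ℕ) (z : ℝ) : D.axis b z D.u = 0 := by
  simp [axis, node_u]

theorem continuous_clamp : Continuous clamp := by
  unfold clamp; fun_prop

theorem continuous_axis (b : ℕ) : Continuous (D.axis b) := by
  unfold axis
  refine continuous_const.add (continuous_finset_sum _ fun k _ => ?_)
  exact (continuous_clamp.comp (by fun_prop)).smul continuous_const

theorem continuous_zpar : Continuous D.zpar := by
  unfold zpar; fun_prop

/-- the shear which straightens the special tube of block `b` -/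
def shear (b : ℕ) : (ι → ℝ) ≃ₜ (ι → ℝ) where
  toFun p := p - D.axis b (D.zpar (p D.u)) - Pi.single D.u D.rho
  invFun q := q + Pi.single D.u D.rho + D.axis b (D.zpar (q D.u + D.rho))
  left_inv p := by
    have h : (p - D.axis b (D.zpar (p D.u)) - (Pi.single D.u D.rho : ι → ℝ)) D.u + D.rho
        = p D.u := by
      simp [axis_u]
    simp only [h]
    abel
  right_inv q := by
    have h : (q + (Pi.single D.u D.rho : ι → ℝ) + D.axis b (D.zpar (q D.u + D.rho))) D.u =
        q D.u + D.rho := by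
      simp [axis_u]
    simp only [h]
    abel
  continuous_toFun := by
    refine (continuous_id.sub ?_).sub continuous_const
    exact (D.continuous_axis b).comp (D.continuous_zpar.comp (continuous_apply _))
  continuous_invFun := by
    refine (continuous_id.add continuous_const).add ?_
    exact (D.continuous_axis b).comp
      (D.continuous_zpar.comp ((continuous_apply _).add continuous_const))

theorem tube0_eq (b : ℕ) : D.tube0 b = D.shear b ⁻¹' (Icc 0 1) := by
  ext p
  simp only [tube0, mem_ofPred_eq, mem_preimage, mem_Icc, Pi.le_def, ← forall_and]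
  refine forall_congr' fun l => ?_
  have : D.shear b p l =
      (p - D.axis b (D.zpar (p D.u))) l - (if l = D.u then D.rho else 0) := by
    simp [shear, Pi.single_apply]
  rw [this]
  simp

theorem cellBase_eq (b i : ℕ) : D.cellBase b i =
    (Homeomorph.subRight (cast (D.x b i))) ⁻¹' (Icc 0 1) := by
  ext p
  simp only [cellBase, mem_ofPred_eq, mem_preimage, mem_Icc, Pi.le_def, ← forall_and]
  rfl

theorem tubeBase_eq (b i : ℕ) : D.tubeBase b i =
    ((Homeomorph.subRight (cast (D.disp b i))).trans (D.shear b)) ⁻¹' (Icc 0 1) := by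
  ext p
  simp only [tubeBase, mem_ofPred_eq, tube0_eq]
  rfl

/-- regular closed + compact -/
structure RC {α : Type*} [TopologicalSpace α] (s : Set α) : Prop where
  compact : IsCompact s
  regular : s ⊆ closure (interior s)

theorem RC.preimage {α β : Type*} [TopologicalSpace α] [TopologicalSpace β] (h : α ≃ₜ β)
    {s : Set β} (hs : RC s) : RC (h ⁻¹' s) := by
  refine ⟨h.isCompact_preimage.2 hs.compact, ?_⟩
  rw [← h.preimage_interior, ← h.preimage_closure]
  exact preimage_mono hs.regular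

theorem RC.image {α β : Type*} [TopologicalSpace α] [TopologicalSpace β] (h : α ≃ₜ β)
    {s : Set α} (hs : RC s) : RC (h '' s) := by
  refine ⟨hs.compact.image h.continuous, ?_⟩
  rw [← h.image_interior, ← h.image_closure]
  exact image_mono hs.regular

theorem RC.prod {α β : Type*} [TopologicalSpace α] [TopologicalSpace β]
    {s : Set α} {t : Set β} (hs : RC s) (ht : RC t) : RC (s ×ˢ t) := by
  refine ⟨hs.compact.prod ht.compact, ?_⟩
  rw [interior_prod_eq, closure_prod_eq]
  exact prod_mono hs.regular ht.regular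

theorem RC_Icc_real {a b : ℝ} (h : a < b) : RC (Icc a b) := by
  refine ⟨isCompact_Icc, ?_⟩
  rw [interior_Icc, closure_Ioo h.ne]

theorem RC_Icc_pi : RC (Icc (0 : ι → ℝ) 1) := by
  refine ⟨isCompact_Icc, ?_⟩
  have hconv : Convex ℝ (Icc (0 : ι → ℝ) 1) := convex_Icc _ _
  have hne : (interior (Icc (0 : ι → ℝ) 1)).Nonempty := by
    rw [← Set.pi_univ_Icc, interior_pi_set (Set.toFinite _)]
    refine ⟨fun _ => 1 / 2, ?_⟩
    intro i _
    simp only [interior_Icc]
    constructor <;> norm_num
  rw [hconv.closure_interior_eq_closure_of_nonempty_interior hne]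
  exact subset_closure

theorem RC_cell (b i : ℕ) : RC (D.cell b i) := by
  unfold cell
  rw [cellBase_eq]
  exact (RC_Icc_pi.preimage _).prod (RC_Icc_real (by linarith))

theorem RC_tube (b i : ℕ) : RC (D.tube b i) := by
  unfold tube
  rw [tubeBase_eq]
  exact (RC_Icc_pi.preimage _).prod (RC_Icc_real (by linarith))

theorem body_eq : D.body = ⋃ q ∈ Finset.range D.J ×ˢ Finset.range (D.n + 1),
    (D.cell q.1 q.2 ∪ D.tube q.1 q.2) := by
  ext p
  simp only [body, mem_ofPred_eq, mem_iUnion, Finset.mem_product, Finset.mem_range, mem_union,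
    Prod.exists, exists_prop, Nat.lt_succ_iff]
  constructor
  · rintro ⟨b, i, hb, hi, h⟩; exact ⟨b, i, ⟨hb, hi⟩, h⟩
  · rintro ⟨b, i, ⟨hb, hi⟩, h⟩; exact ⟨b, i, hb, hi, h⟩

theorem cell_subset_body {b i : ℕ} (hb : b < D.J) (hi : i ≤ D.n) : D.cell b i ⊆ D.body :=
  fun _ hp => ⟨b, i, hb, hi, Or.inl hp⟩

theorem tube_subset_body {b i : ℕ} (hb : b < D.J) (hi : i ≤ D.n) : D.tube b i ⊆ D.body :=
  fun _ hp => ⟨b, i, hb, hi, Or.inr hp⟩

theorem RC_body : RC D.body := by
  refine ⟨?_, ?_⟩
  · rw [body_eq]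
    exact Finset.isCompact_biUnion _ fun q _ => (D.RC_cell _ _).compact.union
      (D.RC_tube _ _).compact
  · rintro p ⟨b, i, hb, hi, h | h⟩
    · exact closure_mono (interior_mono (D.cell_subset_body hb hi)) ((D.RC_cell b i).regular h)
    · exact closure_mono (interior_mono (D.tube_subset_body hb hi)) ((D.RC_tube b i).regular h)

/-- the key homeomorphism -/
def keyH : ((ι → ℝ) × ℝ) ≃ₜ ((ι → ℝ) × ℝ) := Classical.choose D.exists_keyHomeo

theorem keyH_apply (q : (ι → ℝ) × ℝ) : D.keyH q = D.key q :=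
  Classical.choose_spec D.exists_keyHomeo q

theorem tile_eq : D.tile = D.keyH '' D.body := by
  unfold tile
  exact image_congr fun q _ => (D.keyH_apply q).symm

theorem RC_tile : RC D.tile := by
  rw [tile_eq]
  exact D.RC_body.image _

theorem key_injective : Function.Injective D.key := by
  intro a b h
  apply D.keyH.injective
  rw [keyH_apply, keyH_apply, h]

theorem key_mem_tile_iff {p : (ι → ℝ) × ℝ} : D.key p ∈ D.tile ↔ p ∈ D.body := by
  constructor
  · rintro ⟨q, hq, h⟩
    rwa [← D.key_injective h]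
  · intro h; exact ⟨p, h, rfl⟩

theorem key_mem_interior_tile {p : (ι → ℝ) × ℝ} (hp : p ∈ interior D.body) :
    D.key p ∈ interior D.tile := by
  rw [tile_eq, ← D.keyH.image_interior]
  exact ⟨p, hp, D.keyH_apply p⟩

theorem body_nonempty : D.body.Nonempty := by
  refine ⟨(cast (D.x 0 0), 0), D.cell_subset_body D.hJ (Nat.zero_le _) ?_⟩
  refine ⟨?_, ?_⟩
  · intro l; simp
  · simp

theorem tile_nonempty : D.tile.Nonempty := by
  rw [tile]; exact D.body_nonempty.image _

/-- the centre of the cell `(b,i)` is an interior point of the body -/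
theorem center_mem_interior_body {b i : ℕ} (hb : b < D.J) (hi : i ≤ D.n) :
    ((cast (D.x b i) + fun _ => (1 / 2 : ℝ)), (2 * b + 1 / 2 : ℝ)) ∈ interior D.body := by
  refine interior_mono (D.cell_subset_body hb hi) ?_
  unfold cell
  rw [interior_prod_eq, interior_Icc, cellBase_eq, ← Homeomorph.preimage_interior,
    ← Set.pi_univ_Icc, interior_pi_set (Set.toFinite _)]
  refine ⟨?_, ?_⟩
  · intro l _
    simp only [interior_Icc]
    constructor <;> simp <;> norm_num
  · constructor <;> simp <;> norm_num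

/- ### heights -/

theorem body_height {p : (ι → ℝ) × ℝ} (hp : p ∈ D.body) : 0 ≤ p.2 ∧ p.2 ≤ 2 * D.J := by
  obtain ⟨b, i, hb, hi, h | h⟩ := hp
  · have h1 := h.2.1
    have h2 := h.2.2
    have hb' : (b : ℝ) + 1 ≤ D.J := by exact_mod_cast hb
    constructor
    · have : (0 : ℝ) ≤ b := by positivity
      linarith
    · linarith
  · have h1 := h.2.1
    have h2 := h.2.2
    have hb' : (b : ℝ) + 1 ≤ D.J := by exact_mod_cast hb
    constructor
    · have : (0 : ℝ) ≤ b := by positivity
      linarith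
    · linarith

theorem body_low {p : (ι → ℝ) × ℝ} (hp : p ∈ D.body) (h1 : p.2 < 1) :
    ∃ j ≤ D.n, p.1 ∈ D.cellBase 0 j := by
  obtain ⟨b, i, hb, hi, h | h⟩ := hp
  · have h2 := h.2.1
    have : b = 0 := by
      by_contra hne
      have : (1 : ℝ) ≤ b := by exact_mod_cast Nat.one_le_iff_ne_zero.2 hne
      linarith
    subst this
    exact ⟨i, hi, h.1⟩
  · have h2 := h.2.1
    have : (0 : ℝ) ≤ b := by positivity
    linarith

theorem mem_body_low {p : (ι → ℝ) × ℝ} {j : ℕ} (hj : j ≤ D.n) (h0 : 0 ≤ p.2) (h1 : p.2 ≤ 1)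
    (h : p.1 ∈ D.cellBase 0 j) : p ∈ D.body := by
  refine D.cell_subset_body D.hJ hj ⟨h, ?_⟩
  constructor
  · simpa using h0
  · simpa using h1

theorem move_s {p : (ι → ℝ) × ℝ} (hp : p ∈ D.body) :
    ∃ σ : ℝ, (σ = 1 ∨ σ = -1) ∧ ∀ δ : ℝ, 0 ≤ δ → δ ≤ 1 / 2 → p + (0, σ * δ) ∈ D.body := by
  have gen : ∀ (c : ℝ), c ≤ p.2 → p.2 ≤ c + 1 →
      ∃ σ : ℝ, (σ = 1 ∨ σ = -1) ∧ ∀ δ : ℝ, 0 ≤ δ → δ ≤ 1 / 2 →
        c ≤ p.2 + σ * δ ∧ p.2 + σ * δ ≤ c + 1 := by
    intro c h1 h2
    by_cases h : p.2 ≤ c + 1 / 2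
    · exact ⟨1, Or.inl rfl, fun δ h3 h4 => ⟨by linarith, by linarith⟩⟩
    · push Not at h
      exact ⟨-1, Or.inr rfl, fun δ h3 h4 => ⟨by linarith, by linarith⟩⟩
  obtain ⟨b, i, hb, hi, h | h⟩ := hp
  · obtain ⟨σ, hσ, hh⟩ := gen (2 * b) h.2.1 h.2.2
    refine ⟨σ, hσ, fun δ h3 h4 => D.cell_subset_body hb hi ⟨?_, ?_⟩⟩
    · simpa using h.1
    · exact hh δ h3 h4
  · obtain ⟨σ, hσ, hh⟩ := gen (2 * b + 1) h.2.1 (by linarith [h.2.2])
    refine ⟨σ, hσ, fun δ h3 h4 => D.tube_subset_body hb hi ⟨?_, ?_⟩⟩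
    · simpa using h.1
    · have := hh δ h3 h4
      exact ⟨this.1, by have := this.2; simp only [Prod.snd_add]; linarith⟩

end GeoData

end Pool.Agent.BallTile
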