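import Pool.Agent.Lib.MP_0960bd_co.Rigid2

/-!
# MP_0960bd_co : local structure of the tile at the facet centres and the alignment step (R5)
-/

set_option autoImplicit false
set_option linter.unusedSectionVars false

noncomputable section

namespace Pool.Agent.BallTile

open Set MeasureTheory Metric

theorem nd_of_abs_le {r : ℝ} (h : |r| ≤ 1 / 2) : nd r = |r| := by
  unfold nd
  rw [AddCircle.norm_coe_eq_abs_iff (1 : ℝ) one_ne_zero]
  simpa using h

theorem nd_int_add {r : ℝ} (k : ℤ) (h : |r| ≤ 1 / 2) : nd (k + r) = |r| := by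
  rw [add_comm, nd_add_int, nd_of_abs_le h]

theorem nd_half (k : ℤ) : nd (k + 1 / 2) = 1 / 2 := by
  rw [nd_int_add k (by rw [abs_of_pos] <;> norm_num), abs_of_pos] 
  norm_num

theorem nd_eq_zero {r : ℝ} (h : nd r = 0) : ∃ k : ℤ, r = k := by
  unfold nd at h
  rw [norm_eq_zero, AddCircle.coe_eq_zero_iff] at h
  obtain ⟨n, hn⟩ := h
  exact ⟨n, by rw [← hn]; simp⟩

variable {ι : Type} [Fintype ι] [DecidableEq ι]

/-- the unit vector `e_i` of `(ι → ℝ) × ℝ` -/
def ei (i : ι) : (ι → ℝ) × ℝ := ((Pi.single i (1 : ℝ) : ι → ℝ), (0 : ℝ))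

/-- embedding of integer vectors -/
def emb (z : ι → ℤ) : (ι → ℝ) × ℝ := (cast z, 0)

/-- the lateral size of a vector with respect to direction `i` -/
def latv (i : ι) (y : (ι → ℝ) × ℝ) : ℝ :=
  max ‖(fun l => if l = i then (0 : ℝ) else y.1 l)‖ |y.2|

theorem latv_nonneg (i : ι) (y : (ι → ℝ) × ℝ) : 0 ≤ latv i y :=
  le_max_of_le_left (norm_nonneg _)

theorem continuous_latv (i : ι) : Continuous (latv i) := by
  unfold latv
  refine Continuous.max ?_ (by fun_prop)
  refine continuous_norm.comp (continuous_pi fun l => ?_)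
  by_cases h : l = i
  · simp only [h, if_true]; exact continuous_const
  · simp only [h, if_false]; fun_prop

theorem latv_le_norm (i : ι) (y : (ι → ℝ) × ℝ) : latv i y ≤ ‖y‖ := by
  unfold latv
  refine max_le ?_ ?_
  · rw [pi_norm_le_iff_of_nonneg (norm_nonneg _)]
    intro l
    by_cases h : l = i
    · simp [h]
    · simp only [h, if_false]
      exact (norm_le_pi_norm y.1 l).trans (norm_fst_le y)
  · rw [← Real.norm_eq_abs]; exact norm_snd_le y

theorem abs_fst_le_norm (i : ι) (y : (ι → ℝ) × ℝ) : |y.1 i| ≤ ‖y‖ := by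
  rw [← Real.norm_eq_abs]
  exact (norm_le_pi_norm y.1 i).trans (norm_fst_le y)

theorem norm_le_max_latv (i : ι) (y : (ι → ℝ) × ℝ) {r : ℝ} (h1 : latv i y ≤ r)
    (h2 : |y.1 i| ≤ r) : ‖y‖ ≤ r := by
  have hr : 0 ≤ r := (latv_nonneg i y).trans h1
  rw [Prod.norm_def]
  unfold latv at h1
  refine max_le ?_ ?_
  · rw [pi_norm_le_iff_of_nonneg hr]
    intro l
    by_cases h : l = i
    · rw [h]; exact h2
    · have h3 := (le_max_left _ _).trans h1
      have h4 := norm_le_pi_norm (fun l => if l = i then (0 : ℝ) else y.1 l) l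
      simp only [h, if_false] at h4
      exact h4.trans h3
  · exact (le_max_right _ _).trans h1

/-- facet centres (perpendicular to `e_i`, at height `1/2`) of integer cubes -/
def IsFc (i : ι) (c : (ι → ℝ) × ℝ) : Prop :=
  (∀ l, l ≠ i → ∃ k : ℤ, c.1 l = k + 1 / 2) ∧ (∃ k : ℤ, c.1 i = k) ∧ c.2 = 1 / 2

namespace GeoData

variable (D : GeoData ι)

theorem one_le_J : (1 : ℝ) ≤ D.J := by exact_mod_cast D.hJ

theorem nds_half_add {r : ℝ} (h : |r| ≤ 1 / 2) : D.nds (1 / 2 + r) = |r| := by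
  unfold nds
  have : (1 / 2 + r - 1 / 2 : ℝ) = r := by ring
  have h1 := D.one_le_J
  have h2 : (0 : ℝ) < 2 * D.J := by linarith
  rw [this, AddCircle.norm_coe_eq_abs_iff (2 * D.J : ℝ) h2.ne', abs_of_pos h2]
  linarith

theorem lat_fc {i : ι} {c y : (ι → ℝ) × ℝ} (hc : IsFc i c) (hy : ‖y‖ ≤ 1 / 2) :
    lat i (c + y).1 = ‖(fun l => if l = i then (0 : ℝ) else y.1 l)‖ := by
  unfold lat
  have : (fun l => if l = i then (0 : ℝ) else nd ((c + y).1 l - 1 / 2)) =
      fun l => |if l = i then (0 : ℝ) else y.1 l| := by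
    funext l
    by_cases h : l = i
    · simp [h]
    · simp only [h, if_false]
      obtain ⟨k, hk⟩ := hc.1 l h
      have : (c + y).1 l - 1 / 2 = k + y.1 l := by
        simp [hk]; ring
      rw [this, nd_int_add k ((abs_fst_le_norm l y).trans hy)]
  rw [this]
  have h2 := Pi.norm_def (f := fun l => |if l = i then (0 : ℝ) else y.1 l|)
  have h3 := Pi.norm_def (f := fun l => if l = i then (0 : ℝ) else y.1 l)
  rw [h2, h3]
  congr 1
  refine Finset.sup_congr rfl fun l _ => ?_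
  ext
  simp

theorem bump_fc {i : ι} {c y : (ι → ℝ) × ℝ} (hc : IsFc i c) (hy : ‖y‖ ≤ 1 / 64) :
    D.bump i (c + y) = 1 / 64 - 1 / 4 * latv i y - 1 / 2 * |y.1 i| := by
  have hy' : ‖y‖ ≤ 1 / 2 := hy.trans (by norm_num)
  obtain ⟨k, hk⟩ := hc.2.1
  have h1 : lat i (c + y).1 = ‖(fun l => if l = i then (0 : ℝ) else y.1 l)‖ := lat_fc hc hy'
  have h2 : D.nds (c + y).2 = |y.2| := by
    have : (c + y).2 = 1 / 2 + y.2 := by simp [hc.2.2]
    rw [this]
    refine D.nds_half_add ?_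
    rw [← Real.norm_eq_abs]
    exact (norm_snd_le y).trans hy'
  have h3 : nd ((c + y).1 i) = |y.1 i| := by
    have : (c + y).1 i = k + y.1 i := by simp [hk]
    rw [this, nd_int_add k ((abs_fst_le_norm i y).trans hy')]
  unfold bump
  rw [h1, h2, h3]
  change max 0 (1 / 64 - 1 / 4 * latv i y - 1 / 2 * |y.1 i|) = _
  refine max_eq_right ?_
  have h4 := latv_le_norm i y
  have h5 := abs_fst_le_norm i y
  linarith

theorem bump_fc_ne {i l : ι} (hl : l ≠ i) {c y : (ι → ℝ) × ℝ} (hc : IsFc i c)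
    (hy : ‖y‖ ≤ 1 / 64) : D.bump l (c + y) = 0 := by
  obtain ⟨k, hk⟩ := hc.2.1
  have h1 : 1 / 2 - 1 / 64 ≤ lat l (c + y).1 := by
    unfold lat
    have h2 := norm_le_pi_norm (fun m => if m = l then (0 : ℝ) else nd ((c + y).1 m - 1 / 2)) i
    simp only [hl.symm, if_false] at h2
    refine le_trans ?_ h2
    rw [Real.norm_eq_abs, abs_of_nonneg (nd_nonneg _)]
    have h3 := abs_nd_sub_le (((k - 1 : ℤ) : ℝ) + 1 / 2) ((c + y).1 i - 1 / 2)
    rw [nd_half] at h3
    have h4 : ((k - 1 : ℤ) : ℝ) + 1 / 2 - ((c + y).1 i - 1 / 2) = - y.1 i := by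
      simp [hk]; ring
    rw [h4, abs_neg] at h3
    have h5 := (abs_fst_le_norm i y).trans hy
    have h6 := (abs_le.1 (h3.trans h5)).2
    linarith
  unfold bump
  refine max_eq_left ?_
  have h2 := nd_nonneg ((c + y).1 l)
  have h3 : lat l (c + y).1 ≤ max (lat l (c + y).1) (D.nds (c + y).2) := le_max_left _ _
  linarith

theorem key_fc {i : ι} {c y : (ι → ℝ) × ℝ} (hc : IsFc i c) (hy : ‖y‖ ≤ 1 / 64) :
    D.key (c + y) = c + y - (1 / 64 - 1 / 4 * latv i y - 1 / 2 * |y.1 i|) • ei i := by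
  unfold key
  ext l
  · by_cases hl : l = i
    · subst hl
      change (c + y).1 l - D.bump l (c + y) = _
      rw [D.bump_fc hc hy]
      simp [ei]
    · change (c + y).1 l - D.bump l (c + y) = _
      rw [D.bump_fc_ne hl hc hy]
      simp [ei, hl]
  · simp [ei]

theorem latv_zero (i : ι) : latv i (0 : (ι → ℝ) × ℝ) = 0 := by
  unfold latv
  have : (fun l => if l = i then (0 : ℝ) else (0 : (ι → ℝ) × ℝ).1 l) = 0 := by
    funext l; simp
  rw [this]; simp

theorem key_fc0 {i : ι} {c : (ι → ℝ) × ℝ} (hc : IsFc i c) :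
    D.key c = c - (1 / 64 : ℝ) • ei i := by
  have := D.key_fc (y := 0) hc (by simp)
  simpa [latv_zero] using this

/-- centre of the upper facet of the cell `(0,j)` -/
def cp (j : ℕ) (i : ι) : (ι → ℝ) × ℝ :=
  ((fun l => (D.x 0 j l : ℝ) + if l = i then 1 else 1 / 2), 1 / 2)

/-- centre of the lower facet of the cell `(0,j)` -/
def cm (j : ℕ) (i : ι) : (ι → ℝ) × ℝ :=
  ((fun l => (D.x 0 j l : ℝ) + if l = i then 0 else 1 / 2), 1 / 2)

theorem isFc_cp (j : ℕ) (i : ι) : IsFc i (D.cp j i) := by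
  refine ⟨fun l hl => ⟨D.x 0 j l, by simp [cp, hl]⟩, ⟨D.x 0 j i + 1, by simp [cp]⟩, rfl⟩

theorem isFc_cm (j : ℕ) (i : ι) : IsFc i (D.cm j i) := by
  refine ⟨fun l hl => ⟨D.x 0 j l, by simp [cm, hl]⟩, ⟨D.x 0 j i, by simp [cm]⟩, rfl⟩

theorem x_t_lt {b j j' : ℕ} (h : j < j') (hj' : j' ≤ D.n) :
    D.x b j D.t + 2 ≤ D.x b j' D.t := by
  induction j', h using Nat.le_induction with
  | base => exact D.ht b j (by omega)
  | succ k hk ih =>
    have h1 := ih (by omega)
    have h2 := D.ht b k (by omega)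
    omega

theorem x_t_ne {b j j' : ℕ} (h : j ≠ j') (hj : j ≤ D.n) (hj' : j' ≤ D.n) :
    D.x b j D.t + 2 ≤ D.x b j' D.t ∨ D.x b j' D.t + 2 ≤ D.x b j D.t := by
  rcases Nat.lt_or_gt_of_ne h with h | h
  · exact Or.inl (D.x_t_lt h hj')
  · exact Or.inr (D.x_t_lt h hj)

theorem mem_cellBase_iff {b j : ℕ} {p : ι → ℝ} : p ∈ D.cellBase b j ↔
    ∀ l, (D.x b j l : ℝ) ≤ p l ∧ p l ≤ D.x b j l + 1 := by
  unfold cellBase
  simp only [mem_ofPred_eq, mem_Icc, Pi.sub_apply, cast]
  refine forall_congr' fun l => ?_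
  constructor
  · rintro ⟨h1, h2⟩; constructor <;> linarith
  · rintro ⟨h1, h2⟩; constructor <;> linarith

/-- near the centre of an upper facet the body is a half space -/
theorem cp_add_mem_body {j : ℕ} (hj : j ≤ D.n) {i : ι} {y : (ι → ℝ) × ℝ} (hy : ‖y‖ ≤ 1 / 8) :
    D.cp j i + y ∈ D.body ↔ y.1 i ≤ 0 := by
  have hyl : ∀ l, |y.1 l| ≤ 1 / 8 := fun l => (abs_fst_le_norm l y).trans hy
  have hys : |y.2| ≤ 1 / 8 := by rw [← Real.norm_eq_abs]; exact (norm_snd_le y).trans hy
  have hys' := abs_le.1 hys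
  constructor
  · intro h
    have h2 : (D.cp j i + y).2 < 1 := by
      simp only [cp, Prod.snd_add]; linarith
    obtain ⟨j', hj', hp⟩ := D.body_low h h2
    rw [mem_cellBase_iff] at hp
    have hjj : j' = j := by
      by_contra hne
      have hpt := hp D.t
      have hyt := abs_le.1 (hyl D.t)
      have hx : (D.cp j i + y).1 D.t = D.x 0 j D.t + (if D.t = i then 1 else 1 / 2) + y.1 D.t := by
        simp [cp]
      rw [hx] at hpt
      have hif : (1 / 2 : ℝ) ≤ (if D.t = i then 1 else 1 / 2) ∧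
          (if D.t = i then (1 : ℝ) else 1 / 2) ≤ 1 := by
        split_ifs <;> norm_num
      rcases D.x_t_ne (b := 0) hne hj' hj with h3 | h3
      · have h4 : (D.x 0 j' D.t : ℝ) + 2 ≤ D.x 0 j D.t := by exact_mod_cast h3
        linarith [hpt.1, hpt.2, hif.1, hif.2]
      · have h4 : (D.x 0 j D.t : ℝ) + 2 ≤ D.x 0 j' D.t := by exact_mod_cast h3
        linarith [hpt.1, hpt.2, hif.1, hif.2]
    subst hjj
    have hpi := (hp i).2
    simp only [cp, Prod.fst_add, Pi.add_apply, if_true] at hpi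
    linarith
  · intro h
    refine D.mem_body_low hj ?_ ?_ ?_
    · simp only [cp, Prod.snd_add]; linarith
    · simp only [cp, Prod.snd_add]; linarith
    · rw [mem_cellBase_iff]
      intro l
      have hyl' := abs_le.1 (hyl l)
      by_cases hl : l = i
      · subst hl
        simp only [cp, Prod.fst_add, Pi.add_apply, if_true]
        constructor <;> linarith
      · simp only [cp, Prod.fst_add, Pi.add_apply, hl, if_false]
        constructor <;> linarith

theorem near_in {j : ℕ} (hj : j ≤ D.n) {i : ι} {w : (ι → ℝ) × ℝ} (hw : ‖w‖ ≤ 1 / 200)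
    (h : w.1 i ≤ 1 / 4 * latv i w) : D.key (D.cp j i) + w ∈ D.tile := by
  set r : ℝ := 2 * (w.1 i - 1 / 4 * latv i w) with hr
  set y : (ι → ℝ) × ℝ := w + (r - w.1 i) • ei i with hy
  have hyi : y.1 i = r := by simp [hy, ei]
  have hlat : latv i y = latv i w := by
    unfold latv
    have h1 : (fun l => if l = i then (0 : ℝ) else y.1 l) =
        fun l => if l = i then (0 : ℝ) else w.1 l := by
      funext l
      by_cases hl : l = i
      · simp [hl]
      · simp [hl, hy, ei]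
    have h2 : y.2 = w.2 := by simp [hy, ei]
    rw [h1, h2]
  have hr0 : r ≤ 0 := by rw [hr]; linarith
  have hwi := abs_le.1 (abs_fst_le_norm i w)
  have hlw := latv_le_norm i w
  have hlw0 := latv_nonneg i w
  have hrabs : |r| ≤ 1 / 64 := by
    rw [abs_of_nonpos hr0, hr]
    linarith [hwi.1]
  have hyn : ‖y‖ ≤ 1 / 64 := by
    refine norm_le_max_latv i y ?_ ?_
    · rw [hlat]; linarith
    · rw [hyi]; exact hrabs
  have hb : D.cp j i + y ∈ D.body := by
    rw [D.cp_add_mem_body hj (hyn.trans (by norm_num)), hyi]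
    exact hr0
  have hk := D.key_fc (D.isFc_cp j i) hyn
  have : D.key (D.cp j i) + w = D.key (D.cp j i + y) := by
    rw [hk, D.key_fc0 (D.isFc_cp j i), hlat, hyi, abs_of_nonpos hr0, hy]
    have hco : -(1 / 64 : ℝ) = (r - w.1 i) - (1 / 64 - 1 / 4 * latv i w - 1 / 2 * (-r)) := by
      rw [hr]; ring
    linear_combination (norm := module) hco • (ei i : (ι → ℝ) × ℝ)
  rw [this, D.key_mem_tile_iff]
  exact hb

theorem near_out {j : ℕ} (hj : j ≤ D.n) {i : ι} {δ : ℝ} (h0 : 0 < δ) (h1 : δ ≤ 1 / 64) :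
    D.key (D.cp j i) + δ • ei i ∉ D.tile := by
  set y : (ι → ℝ) × ℝ := (2 / 3 * δ) • ei i with hy
  have hyi : y.1 i = 2 / 3 * δ := by simp [hy, ei]
  have hlat : latv i y = 0 := by
    unfold latv
    have h1 : (fun l => if l = i then (0 : ℝ) else y.1 l) = 0 := by
      funext l
      by_cases hl : l = i
      · simp [hl]
      · simp [hl, hy, ei]
    have h2 : y.2 = 0 := by simp [hy, ei]
    rw [h1, h2]; simp
  have hyn : ‖y‖ ≤ 1 / 64 := by
    refine norm_le_max_latv i y ?_ ?_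
    · rw [hlat]; norm_num
    · rw [hyi, abs_of_pos (by positivity)]; linarith
  have hk := D.key_fc (D.isFc_cp j i) hyn
  have : D.key (D.cp j i) + δ • ei i = D.key (D.cp j i + y) := by
    rw [hk, D.key_fc0 (D.isFc_cp j i), hlat, hyi, abs_of_pos (by positivity), hy]
    module
  rw [this, D.key_mem_tile_iff, D.cp_add_mem_body hj (hyn.trans (by norm_num)), hyi]
  push Not
  positivity

theorem near_int {j : ℕ} (hj : j ≤ D.n) {i : ι} {w : (ι → ℝ) × ℝ} (hw : ‖w‖ < 1 / 200)
    (h : w.1 i < 1 / 4 * latv i w) : D.key (D.cp j i) + w ∈ interior D.tile := by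
  rw [mem_interior]
  refine ⟨{q | ‖q - D.key (D.cp j i)‖ < 1 / 200 ∧
    (q - D.key (D.cp j i)).1 i < 1 / 4 * latv i (q - D.key (D.cp j i))}, ?_, ?_, ?_⟩
  · rintro q ⟨hq1, hq2⟩
    have := D.near_in hj hq1.le hq2.le
    simpa using this
  · have h1 : Continuous fun q : (ι → ℝ) × ℝ => ‖q - D.key (D.cp j i)‖ := by fun_prop
    have h2 : Continuous fun q : (ι → ℝ) × ℝ => (q - D.key (D.cp j i)).1 i := by fun_prop
    have h3 : Continuous fun q : (ι → ℝ) × ℝ => 1 / 4 * latv i (q - D.key (D.cp j i)) :=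
      continuous_const.mul ((continuous_latv i).comp (by fun_prop))
    exact (isOpen_lt h1 continuous_const).inter (isOpen_lt h2 h3)
  · refine ⟨?_, ?_⟩
    · rw [add_sub_cancel_left]; exact hw
    · rw [add_sub_cancel_left]; exact h

end GeoData

end Pool.Agent.BallTile
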