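import Pool.Agent.Lib.MP_0960bd_co.Rigid3

/-!
# MP_0960bd_co : the alignment step (R5)
-/

set_option autoImplicit false
set_option linter.unusedSectionVars false

noncomputable section

namespace Pool.Agent.BallTile

open Set MeasureTheory Metric

variable {ι : Type} [Fintype ι] [DecidableEq ι]

namespace GeoData

variable (D : GeoData ι)

theorem nds_small {s : ℝ} (h0 : 0 ≤ s) (h1 : s ≤ 2 * D.J) (h : D.nds s < 1 / 16) :
    |s - 1 / 2| < 1 / 16 := by
  have hJ := D.one_le_J
  unfold nds at h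
  rw [AddCircle.norm_eq] at h
  set m : ℤ := round ((2 * D.J : ℝ)⁻¹ * (s - 1 / 2)) with hm
  have h2 := abs_lt.1 h
  have hm0 : m = 0 := by
    rcases lt_trichotomy m 0 with hlt | heq | hgt
    · exfalso
      have : (m : ℝ) ≤ -1 := by exact_mod_cast Int.le_sub_one_of_lt hlt
      have h3 : (m : ℝ) * (2 * D.J) ≤ -1 * (2 * D.J) :=
        mul_le_mul_of_nonneg_right this (by linarith)
      linarith [h2.1, h2.2]
    · exact heq
    · exfalso
      have : (1 : ℝ) ≤ m := by exact_mod_cast hgt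
      have h3 : 1 * (2 * D.J : ℝ) ≤ (m : ℝ) * (2 * D.J) :=
        mul_le_mul_of_nonneg_right this (by linarith)
      linarith [h2.1, h2.2]
  rw [hm0] at h
  simpa using h

theorem nds_le_abs (s : ℝ) : D.nds s ≤ |s - 1 / 2| := by
  unfold nds
  have : ‖((s - 1 / 2 : ℝ) : AddCircle (2 * D.J : ℝ))‖ ≤ ‖s - 1 / 2‖ :=
    QuotientAddGroup.norm_mk_le_norm
  rwa [Real.norm_eq_abs] at this

theorem nds_eq_abs {s : ℝ} (h : |s - 1 / 2| ≤ 1 / 2) : D.nds s = |s - 1 / 2| := by
  have := D.nds_half_add h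
  rwa [show (1 / 2 + (s - 1 / 2) : ℝ) = s by ring] at this

/-- the local condition at a point of a neighbouring tile determines this point -/
theorem local_point {p0 : (ι → ℝ) × ℝ} (hp0 : p0 ∈ D.body) {i : ι}
    (star : ∀ y : (ι → ℝ) × ℝ, ‖y‖ ≤ 1 / 400 → p0 + y ∈ D.body →
      1 / 4 * |y.2| ≤ y.1 i - (D.bump i (p0 + y) - D.bump i p0)) :
    ∃ j ≤ D.n, p0 = D.cm j i := by
  -- vertical displacements
  have vert : ∀ σ : ℝ, (σ = 1 ∨ σ = -1) → p0 + (0, σ * (1 / 400)) ∈ D.body →
      1 / 1600 ≤ D.bump i p0 - D.bump i (p0 + (0, σ * (1 / 400))) := by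
    intro σ hσ hb
    have hσ1 : |σ * (1 / 400)| = 1 / 400 := by
      rcases hσ with h | h <;> rw [h] <;> norm_num
    have h1 := star (0, σ * (1 / 400)) ?_ hb
    · simp only [Pi.zero_apply] at h1
      rw [hσ1] at h1
      linarith
    · rw [Prod.norm_def]
      simp only [norm_zero, Real.norm_eq_abs]
      rw [hσ1]
      simp
  obtain ⟨σ, hσ, hmove⟩ := D.move_s hp0
  have hfirst := vert σ hσ (hmove _ (by norm_num) (by norm_num))
  have hbpos : 0 < D.bump i p0 := by
    have := D.bump_nonneg i (p0 + (0, σ * (1 / 400)))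
    linarith
  set M : ℝ := lat i p0.1 with hM
  set c : ℝ := nd (p0.1 i) with hc
  have hM0 : 0 ≤ M := lat_nonneg _ _
  have hc0 : 0 ≤ c := nd_nonneg _
  have hval : D.bump i p0 = 1 / 64 - 1 / 4 * max M (D.nds p0.2) - 1 / 2 * c := by
    unfold bump at hbpos ⊢
    rcases lt_max_iff.1 hbpos with h | h
    · exact absurd h (lt_irrefl _)
    · exact max_eq_right h.le
  have hnds : D.nds p0.2 < 1 / 16 := by
    have h1 : D.nds p0.2 ≤ max M (D.nds p0.2) := le_max_right _ _
    linarith
  obtain ⟨hs0, hs1⟩ := D.body_height hp0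
  have hs := D.nds_small hs0 hs1 hnds
  have hs' := abs_lt.1 hs
  have hndseq : D.nds p0.2 = |p0.2 - 1 / 2| := D.nds_eq_abs (by linarith)
  obtain ⟨j, hj, hcell⟩ := D.body_low hp0 (by linarith [hs'.2])
  have hmem : ∀ σ : ℝ, (σ = 1 ∨ σ = -1) → p0 + (0, σ * (1 / 400)) ∈ D.body := by
    intro σ hσ
    refine D.mem_body_low hj ?_ ?_ ?_
    · simp only [Prod.snd_add]
      rcases hσ with h | h <;> rw [h] <;> linarith [hs'.1, hs'.2]
    · simp only [Prod.snd_add]
      rcases hσ with h | h <;> rw [h] <;> linarith [hs'.1, hs'.2]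
    · simpa using hcell
  have hlow : ∀ σ : ℝ, (σ = 1 ∨ σ = -1) →
      max M |p0.2 - 1 / 2| + 1 / 400 ≤ max M |p0.2 + σ * (1 / 400) - 1 / 2| := by
    intro σ hσ
    have h1 := vert σ hσ (hmem σ hσ)
    have h2 : 1 / 64 - 1 / 4 * max M (D.nds (p0.2 + σ * (1 / 400))) - 1 / 2 * c ≤
        D.bump i (p0 + (0, σ * (1 / 400))) := by
      unfold bump
      refine le_trans (le_of_eq ?_) (le_max_right _ _)
      simp [hM, hc]
    have h3 : max M (D.nds (p0.2 + σ * (1 / 400))) ≤ max M |p0.2 + σ * (1 / 400) - 1 / 2| :=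
      max_le_max le_rfl (D.nds_le_abs _)
    rw [hval, hndseq] at h1
    linarith
  -- the height is `1/2`
  have hh : p0.2 = 1 / 2 := by
    by_contra hne
    have hpos : 0 < |p0.2 - 1 / 2| := abs_pos.2 (sub_ne_zero.2 hne)
    rcases lt_or_gt_of_ne hne with hlt | hgt
    · have h1 := hlow 1 (Or.inl rfl)
      have h2 : |p0.2 - 1 / 2| = 1 / 2 - p0.2 := by
        rw [abs_of_neg (by linarith)]; ring
      have h3 : |p0.2 + 1 * (1 / 400) - 1 / 2| < |p0.2 - 1 / 2| + 1 / 400 := by
        rw [h2, abs_lt]; constructor <;> linarith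
      have h4 : max M |p0.2 + 1 * (1 / 400) - 1 / 2| < max M |p0.2 - 1 / 2| + 1 / 400 := by
        refine max_lt ?_ ?_
        · linarith [le_max_left M |p0.2 - 1 / 2|]
        · linarith [le_max_right M |p0.2 - 1 / 2|]
      linarith
    · have h1 := hlow (-1) (Or.inr rfl)
      have h2 : |p0.2 - 1 / 2| = p0.2 - 1 / 2 := abs_of_pos (by linarith)
      have h3 : |p0.2 + (-1) * (1 / 400) - 1 / 2| < |p0.2 - 1 / 2| + 1 / 400 := by
        rw [h2, abs_lt]; constructor <;> linarith
      have h4 : max M |p0.2 + (-1) * (1 / 400) - 1 / 2| < max M |p0.2 - 1 / 2| + 1 / 400 := by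
        refine max_lt ?_ ?_
        · linarith [le_max_left M |p0.2 - 1 / 2|]
        · linarith [le_max_right M |p0.2 - 1 / 2|]
      linarith
  have hMz : M = 0 := by
    by_contra hne
    have hpos : 0 < M := lt_of_le_of_ne hM0 (Ne.symm hne)
    have h1 := hlow 1 (Or.inl rfl)
    rw [hh] at h1
    have h2 : |(1 / 2 : ℝ) - 1 / 2| = 0 := by norm_num
    have h3 : |(1 / 2 : ℝ) + 1 * (1 / 400) - 1 / 2| = 1 / 400 := by
      rw [abs_of_pos] <;> norm_num
    rw [h2, h3, max_eq_left hM0] at h1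
    rcases max_choice M (1 / 400 : ℝ) with h4 | h4 <;> rw [h4] at h1 <;> linarith
  rw [mem_cellBase_iff] at hcell
  -- lateral coordinates
  have hlatc : ∀ l, l ≠ i → p0.1 l = D.x 0 j l + 1 / 2 := by
    intro l hl
    have h1 := norm_le_pi_norm (fun l => if l = i then (0 : ℝ) else nd (p0.1 l - 1 / 2)) l
    have h2 : ‖(fun l => if l = i then (0 : ℝ) else nd (p0.1 l - 1 / 2))‖ = 0 := hMz
    rw [h2] at h1
    simp only [hl, if_false] at h1
    have h3 : nd (p0.1 l - 1 / 2) = 0 := by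
      rw [Real.norm_eq_abs] at h1
      exact abs_eq_zero.1 (le_antisymm h1 (abs_nonneg _))
    obtain ⟨k, hk⟩ := nd_eq_zero h3
    obtain ⟨h4, h5⟩ := hcell l
    have h6 : (D.x 0 j l : ℝ) < k + 1 := by linarith
    have h7 : (k : ℝ) < D.x 0 j l + 1 := by linarith
    have h8 : D.x 0 j l < k + 1 := by exact_mod_cast h6
    have h9 : k < D.x 0 j l + 1 := by exact_mod_cast h7
    have h10 : k = D.x 0 j l := by omega
    rw [h10] at hk
    linarith
  -- the normal coordinate
  have hnorm : p0.1 i = D.x 0 j i := by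
    by_contra hne
    have hgt : (D.x 0 j i : ℝ) < p0.1 i := lt_of_le_of_ne (hcell i).1 (Ne.symm hne)
    set δ : ℝ := min (1 / 400) (p0.1 i - D.x 0 j i) with hδ
    have hδ0 : 0 < δ := lt_min (by norm_num) (by linarith)
    have hδ1 : δ ≤ 1 / 400 := min_le_left _ _
    have hδ2 : δ ≤ p0.1 i - D.x 0 j i := min_le_right _ _
    have h1 := star ((-δ) • ei i) ?_ ?_
    · have h2 : ((-δ) • ei i : (ι → ℝ) × ℝ).2 = 0 := by simp [ei]
      have h3 : ((-δ) • ei i : (ι → ℝ) × ℝ).1 i = -δ := by simp [ei]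
      rw [h2, h3, abs_zero, mul_zero] at h1
      have h4 := D.abs_bump_sub_le i (p0 + (-δ) • ei i) p0 0 le_rfl ?_ ?_
      · have h5 : (p0 + (-δ) • ei i).1 i - p0.1 i = -δ := by simp [ei]
        rw [h5, abs_neg, abs_of_pos hδ0] at h4
        have h6 := (abs_le.1 h4).1
        linarith
      · intro l hl
        simp [ei, hl]
      · simp [ei]
    · refine norm_le_max_latv i _ ?_ ?_
      · have : latv i ((-δ) • ei i : (ι → ℝ) × ℝ) = 0 := by
          unfold latv
          have h1 : (fun l => if l = i then (0 : ℝ) else ((-δ) • ei i : (ι → ℝ) × ℝ).1 l) = 0 := by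
            funext l
            by_cases hl : l = i
            · simp [hl]
            · simp [hl, ei]
          rw [h1]; simp [ei]
        rw [this]; norm_num
      · have h3 : ((-δ) • ei i : (ι → ℝ) × ℝ).1 i = -δ := by simp [ei]
        rw [h3, abs_neg, abs_of_pos hδ0]; exact hδ1
    · refine D.mem_body_low hj ?_ ?_ ?_
      · simp only [Prod.snd_add, ei, Prod.smul_snd, smul_eq_mul, mul_zero, add_zero]; exact hs0
      · simp only [Prod.snd_add, ei, Prod.smul_snd, smul_eq_mul, mul_zero, add_zero]; linarith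
      · rw [mem_cellBase_iff]
        intro l
        by_cases hl : l = i
        · subst hl
          have h5 : (p0 + (-δ) • ei l).1 l = p0.1 l - δ := by simp [ei]; ring
          rw [h5]
          constructor <;> linarith [(hcell l).1, (hcell l).2]
        · have h5 : (p0 + (-δ) • ei i).1 l = p0.1 l := by simp [ei, hl]
          rw [h5]
          exact hcell l
  refine ⟨j, hj, ?_⟩
  ext l
  · by_cases hl : l = i
    · subst hl
      simp [cm, hnorm]
    · simp [cm, hl, hlatc l hl]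
  · simp [cm, hh]

theorem cp_eq (j : ℕ) (i : ι) : D.cp j i = D.cm j i + ei i := by
  ext l
  · by_cases hl : l = i
    · subst hl; simp [cp, cm, ei]
    · simp [cp, cm, ei, hl]
  · simp [cp, cm, ei]

theorem cm_sub (j j' : ℕ) (i : ι) :
    D.cm j i - D.cm j' i = emb (D.x 0 j) - emb (D.x 0 j') := by
  ext l
  · simp [cm, emb, cast]
  · simp [cm, emb]

/-- R5 -/
theorem key_step {Λ : Set ((ι → ℝ) × ℝ)}
    (hΛ : ∀ᵐ p : (ι → ℝ) × ℝ, ∃! t, t ∈ Λ ∧ p - t ∈ D.tile)
    {t : (ι → ℝ) × ℝ} (ht : t ∈ Λ) {j : ℕ} (hj : j ≤ D.n) (i : ι) :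
    ∃ t' ∈ Λ, ∃ j' ≤ D.n, t' + emb (D.x 0 j') = t + emb (D.x 0 j) + ei i := by
  have hRC := D.RC_tile
  set a : (ι → ℝ) × ℝ := t + D.key (D.cp j i) with ha
  -- a neighbouring tile contains `a`
  obtain ⟨t', ht', hne, hat'⟩ := cover_limit volume hRC.regular hΛ hRC.compact D.tile_nonempty
    (fun s => s ≠ t) (p := a) (by
      intro U hU haU
      have hcont : Continuous fun δ : ℝ => a + δ • ei i := by fun_prop
      have hopen : IsOpen ((fun δ : ℝ => a + δ • ei i) ⁻¹' U) := hU.preimage hcont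
      obtain ⟨ε, hε, hball⟩ := Metric.isOpen_iff.1 hopen 0 (by simpa using haU)
      set δ : ℝ := min (ε / 2) (1 / 64) with hδ
      have hδ0 : 0 < δ := lt_min (by positivity) (by norm_num)
      have hδU : a + δ • ei i ∈ U := by
        have : δ ∈ ball (0 : ℝ) ε := by
          rw [mem_ball, Real.dist_eq, sub_zero, abs_of_pos hδ0]
          exact lt_of_le_of_lt (min_le_left _ _) (by linarith)
        exact hball this
      obtain ⟨s, hs, hsa⟩ := cover_all volume hRC.regular hΛ hRC.compact D.tile_nonempty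
        (a + δ • ei i)
      refine ⟨a + δ • ei i, hδU, s, hs, ?_, hsa⟩
      rintro rfl
      apply D.near_out hj (i := i) hδ0 (min_le_right _ _)
      have : a + δ • ei i - s = D.key (D.cp j i) + δ • ei i := by
        rw [ha]; abel
      rwa [this] at hsa)
  -- the tile `t'` lies above
  have hup : ∀ w : (ι → ℝ) × ℝ, ‖w‖ < 1 / 200 → a - t' + w ∈ D.tile →
      1 / 4 * latv i w ≤ w.1 i := by
    intro w hw hwt
    by_contra hlt
    push Not at hlt
    have h1 := D.near_int hj hw hlt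
    have h2 : (a + w) - t ∈ interior D.tile := by
      have : (a + w) - t = D.key (D.cp j i) + w := by rw [ha]; abel
      rw [this]; exact h1
    refine cover_disj volume hRC.regular hΛ ht ht' (Ne.symm hne) h2 ?_
    have : a + w - t' = a - t' + w := by abel
    rw [this]; exact hwt
  obtain ⟨p0, hp0, hkey⟩ := hat'
  have star : ∀ y : (ι → ℝ) × ℝ, ‖y‖ ≤ 1 / 400 → p0 + y ∈ D.body →
      1 / 4 * |y.2| ≤ y.1 i - (D.bump i (p0 + y) - D.bump i p0) := by
    intro y hy hb
    set w := D.key (p0 + y) - D.key p0 with hw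
    have hwn : ‖w‖ < 1 / 200 := by
      have h1 := D.key_sub_key (p0 + y) p0
      have h2 : p0 + y - p0 = y := by abel
      rw [h2] at h1
      have h3 : w = (w - y) + y := by abel
      have h4 : ‖w‖ ≤ 3 / 4 * ‖y‖ + ‖y‖ := by
        rw [h3]; exact (norm_add_le _ _).trans (by linarith)
      linarith
    have hwt : a - t' + w ∈ D.tile := by
      have : a - t' + w = D.key (p0 + y) := by rw [hw, ← hkey]; abel
      rw [this]
      exact D.key_mem_tile_iff.2 hb
    have h1 := hup w hwn hwt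
    have h2 : w.1 i = y.1 i - (D.bump i (p0 + y) - D.bump i p0) := by
      simp [hw, key]; ring
    have h3 : |y.2| ≤ latv i w := by
      have : w.2 = y.2 := by simp [hw, key]
      rw [← this]; exact le_max_right _ _
    rw [h2] at h1
    linarith
  obtain ⟨j', hj', hcm⟩ := D.local_point hp0 star
  refine ⟨t', ht', j', hj', ?_⟩
  rw [hcm, D.key_fc0 (D.isFc_cm j' i)] at hkey
  rw [ha, D.key_fc0 (D.isFc_cp j i), D.cp_eq] at hkey
  have h1 := D.cm_sub j' j i
  have h2 : t' + D.cm j' i = t + D.cm j i + ei i := by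
    have h3 : t' + (D.cm j' i - (1 / 64 : ℝ) • ei i) =
        t' + (t + (D.cm j i + ei i - (1 / 64 : ℝ) • ei i) - t') := by rw [hkey]
    have h4 : t' + D.cm j' i = t' + (D.cm j' i - (1 / 64 : ℝ) • ei i) + (1 / 64 : ℝ) • ei i := by
      abel
    rw [h4, h3]; abel
  have h5 : t' + emb (D.x 0 j') = t' + D.cm j' i - (D.cm j i - emb (D.x 0 j)) := by
    have : emb (D.x 0 j') = (D.cm j' i - D.cm j i) + emb (D.x 0 j) := by rw [h1]; abel
    rw [this]; abel
  rw [h5, h2]; abel

end GeoData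

end Pool.Agent.BallTile
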