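import Pool.Agent.Lib.MP_0960bd_co.Interface

/-!
# MP_0960bd_co, module A, part 1 (helper95): the functional system has no periodic solution
-/

set_option autoImplicit false

namespace Pool.Agent.BallTile.Sys

/-- a colour: a class mod 3 and a bit -/
abbrev Color := ZMod 3 × Bool

/-- Implications between the colours -/
structure Imp (F G : Fin 3 → ℤ → Color) : Prop where
  AF : ∀ (α : Fin 3) (p q : ℤ) (a : ZMod 3) (s : Bool),
      F (α + 1) q = (a, s) → F (α + 2) (-p - q) = (a, s) →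
      (F α p).1 = a + 1 ∨ ((F α p).1 = a ∧ (F α p).2 ≠ s)
  AG : ∀ (α : Fin 3) (p q : ℤ) (a : ZMod 3) (s : Bool),
      F (α + 1) q = (a, s) → F (α + 2) (-p - q) = (a, s) →
      (G α (p + 4 * q)).1 = a + 1 ∨ ((G α (p + 4 * q)).1 = a ∧ (G α (p + 4 * q)).2 ≠ s)
  Bi : ∀ (α : Fin 3) (p q : ℤ) (a : ZMod 3), (F α p).1 = a → (G α (p + 4 * q)).1 = a →
      (F (α + 1) q).1 = a - 1 → (F (α + 2) (-p - q)).1 = a - 1 →
      (G α (p + 4 * q)).2 ≠ (F α p).2
  Bii : ∀ (α : Fin 3) (p q : ℤ) (a : ZMod 3), (F α p).1 = a → (G α (p + 4 * q)).1 = a →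
      (F (α + 1) q).1 = a → (G α (p + 4 * q)).2 = (F α p).2

/-- Level `k` information at the offset `r`. -/
structure Level (F G : Fin 3 → ℤ → Color) (k : ZMod 3) (r : Fin 3 → ℤ) : Prop where
  sum : r 0 + r 1 + r 2 = 0
  cF : ∀ α x, (F α (r α + (2 * x + 1))).1 = k
  dF : ∀ α x, (F α (r α + (2 * (x + 1) + 1))).2 ≠ (F α (r α + (2 * x + 1))).2
  cG : ∀ α x, (G α (r α + 4 * r (α + 1) + (2 * x + 1))).1 = k

theorem sum3 {r : Fin 3 → ℤ} (h : r 0 + r 1 + r 2 = 0) (α : Fin 3) :
    r α + r (α + 1) + r (α + 2) = 0 := by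
  fin_cases α
  · simpa using h
  · have : r 1 + r 2 + r 0 = 0 := by omega
    simpa using this
  · have : r 2 + r 0 + r 1 = 0 := by omega
    simpa using this

theorem alt (g : ℤ → Bool) (h : ∀ x, g (x + 1) ≠ g x) (x : ℤ) :
    g x = xor (g 0) (decide (x % 2 = 1)) := by
  have h' : ∀ x, g (x + 1) = !(g x) := by
    intro x
    have := h x
    revert this
    cases g (x + 1) <;> cases g x <;> simp
  have p1 : ∀ x : ℤ, decide ((x + 1) % 2 = 1) = !(decide (x % 2 = 1)) := by
    intro x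
    rcases Int.emod_two_eq_zero_or_one x with h | h
    · have : (x + 1) % 2 = 1 := by omega
      simp [h, this]
    · have : (x + 1) % 2 = 0 := by omega
      simp [h, this]
  induction x using Int.induction_on with
  | zero => simp
  | succ i ih =>
    rw [h', ih, p1]
    cases g 0 <;> cases decide ((i : ℤ) % 2 = 1) <;> rfl
  | pred i ih =>
    have e : (-(i : ℤ) - 1) + 1 = -i := by ring
    have h1 := h' (-(i : ℤ) - 1)
    rw [e, ih] at h1
    have h2 := p1 (-(i : ℤ) - 1)
    rw [e] at h2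
    rw [h2] at h1
    revert h1
    cases g (-(i : ℤ) - 1) <;> cases g 0 <;> cases decide ((-(i : ℤ) - 1) % 2 = 1) <;> simp

section Renorm

variable {F G : Fin 3 → ℤ → Color} {k : ZMod 3} {r : Fin 3 → ℤ}

theorem imp_renorm (hI : Imp F G) (hs : r 0 + r 1 + r 2 = 0) :
    Imp (fun α x => F α (r α + 2 * x)) (fun α y => G α (r α + 4 * r (α + 1) + 2 * y)) := by
  have e1 : ∀ (α : Fin 3) (p q : ℤ),
      r (α + 2) + 2 * (-p - q) = -(r α + 2 * p) - (r (α + 1) + 2 * q) := by
    intro α p q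
    have := sum3 hs α
    linarith
  have e2 : ∀ (α : Fin 3) (p q : ℤ),
      r α + 4 * r (α + 1) + 2 * (p + 4 * q) = (r α + 2 * p) + 4 * (r (α + 1) + 2 * q) := by
    intro α p q
    ring
  constructor
  · intro α p q a s h1 h2
    simp only [e1] at h2
    exact hI.AF α _ _ a s h1 h2
  · intro α p q a s h1 h2
    simp only [e1] at h2
    simp only [e2]
    exact hI.AG α _ _ a s h1 h2
  · intro α p q a h1 h2 h3 h4
    simp only [e1] at h4
    simp only [e2] at h2 ⊢
    exact hI.Bi α _ _ a h1 h2 h3 h4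
  · intro α p q a h1 h2 h3
    simp only [e2] at h2 ⊢
    exact hI.Bii α _ _ a h1 h2 h3

/-- the bits of the odd positions -/
theorem oddbit (hL : Level F G k r) (α : Fin 3) (x : ℤ) :
    (F α (r α + (2 * x + 1))).2 = xor (F α (r α + 1)).2 (decide (x % 2 = 1)) := by
  have := alt (fun x => (F α (r α + (2 * x + 1))).2) (hL.dF α) x
  simpa using this

/-- the sign `t α` -/
def tb (F : Fin 3 → ℤ → Color) (r : Fin 3 → ℤ) (α : Fin 3) : Bool :=
  xor (F (α + 1) (r (α + 1) + 1)).2 (F (α + 2) (r (α + 2) + 1)).2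

theorem pairEq (hL : Level F G k r) (α : Fin 3) (u y : ℤ) (hu : decide (u % 2 = 0) = tb F r α) :
    F (α + 1) (r (α + 1) + (2 * y + 1)) =
      (k, xor (F (α + 1) (r (α + 1) + 1)).2 (decide (y % 2 = 1))) ∧
    F (α + 2) (r (α + 2) + (2 * (-u - y - 1) + 1)) =
      (k, xor (F (α + 1) (r (α + 1) + 1)).2 (decide (y % 2 = 1))) := by
  constructor
  · ext1
    · exact hL.cF _ _
    · exact oddbit hL _ _
  · ext1
    · exact hL.cF _ _
    · rw [oddbit hL]
      unfold tb at hu
      have h3 : decide ((-u - y - 1) % 2 = 1) = xor (decide (u % 2 = 0)) (decide (y % 2 = 1)) := by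
        rcases Int.emod_two_eq_zero_or_one u with h | h <;>
        rcases Int.emod_two_eq_zero_or_one y with h' | h'
        · have : (-u - y - 1) % 2 = 1 := by omega
          simp [h, h', this]
        · have : (-u - y - 1) % 2 = 0 := by omega
          simp [h, h', this]
        · have : (-u - y - 1) % 2 = 0 := by omega
          simp [h, h', this]
        · have : (-u - y - 1) % 2 = 1 := by omega
          simp [h, h', this]
      rw [h3, hu]
      cases (F (α + 1) (r (α + 1) + 1)).2 <;> cases (F (α + 2) (r (α + 2) + 1)).2 <;>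
        cases (decide (y % 2 = 1)) <;> rfl

theorem keyF (hI : Imp F G) (hL : Level F G k r) (α : Fin 3) (u : ℤ)
    (hu : decide (u % 2 = 0) = tb F r α) : (F α (r α + 2 * u)).1 = k + 1 := by
  have hs := sum3 hL.sum α
  have e : ∀ y : ℤ, r (α + 2) + (2 * (-u - y - 1) + 1) =
      -(r α + 2 * u) - (r (α + 1) + (2 * y + 1)) := by
    intro y; linarith
  obtain ⟨a0, b0⟩ := pairEq hL α u 0 hu
  obtain ⟨a1, b1⟩ := pairEq hL α u 1 hu
  rw [e] at b0 b1
  have c0 := hI.AF α _ _ _ _ a0 b0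
  have c1 := hI.AF α _ _ _ _ a1 b1
  rcases c0 with c0 | ⟨_, c0⟩
  · exact c0
  · rcases c1 with c1 | ⟨_, c1⟩
    · exact c1
    · exfalso
      revert c0 c1
      cases (F α (r α + 2 * u)).2 <;> cases (F (α + 1) (r (α + 1) + 1)).2 <;> simp

theorem keyG (hI : Imp F G) (hL : Level F G k r) (α : Fin 3) (w : ℤ)
    (hw : decide (w % 2 = 0) = tb F r α) :
    (G α (r α + 4 * r (α + 1) + 2 * w)).1 = k + 1 := by
  have hs := sum3 hL.sum α
  -- `x_β = r β + (2 y + 1)`, `x_α = r α + 2 w - 4 (2 y + 1)`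
  have hpar : ∀ y : ℤ, decide ((w - 2 * (2 * y + 1)) % 2 = 0) = tb F r α := by
    intro y
    rw [← hw]
    congr 1
    apply propext
    constructor <;> intro h <;> omega
  have e : ∀ y : ℤ, r (α + 2) + (2 * (-(w - 2 * (2 * y + 1)) - y - 1) + 1) =
      -(r α + 2 * (w - 2 * (2 * y + 1))) - (r (α + 1) + (2 * y + 1)) := by
    intro y; linarith
  have e' : ∀ y : ℤ, (r α + 2 * (w - 2 * (2 * y + 1))) + 4 * (r (α + 1) + (2 * y + 1)) =
      r α + 4 * r (α + 1) + 2 * w := by
    intro y; ring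
  obtain ⟨a0, b0⟩ := pairEq hL α _ 0 (hpar 0)
  obtain ⟨a1, b1⟩ := pairEq hL α _ 1 (hpar 1)
  rw [e] at b0 b1
  have c0 := hI.AG α _ _ _ _ a0 b0
  have c1 := hI.AG α _ _ _ _ a1 b1
  rw [e'] at c0 c1
  rcases c0 with c0 | ⟨_, c0⟩
  · exact c0
  · rcases c1 with c1 | ⟨_, c1⟩
    · exact c1
    · exfalso
      revert c0 c1
      cases (G α (r α + 4 * r (α + 1) + 2 * w)).2 <;>
        cases (F (α + 1) (r (α + 1) + 1)).2 <;> simp

theorem altF (hI : Imp F G) (hL : Level F G k r) (α : Fin 3) (u : ℤ)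
    (hu : decide (u % 2 = 0) = tb F r α) :
    (F α (r α + 2 * (u + 2))).2 ≠ (F α (r α + 2 * u)).2 := by
  have hs := sum3 hL.sum α
  obtain ⟨ub, hub⟩ : ∃ ub : ℤ, decide (ub % 2 = 0) = tb F r (α + 1) := by
    cases h : tb F r (α + 1)
    · exact ⟨1, by simp⟩
    · exact ⟨0, by simp⟩
  have hu2 : decide ((u + 2) % 2 = 0) = tb F r α := by
    rw [← hu]
    congr 1
    apply propext
    constructor <;> intro h <;> omega
  have hw : decide ((u + 2 + 4 * ub) % 2 = 0) = tb F r α := by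
    rw [← hu]
    congr 1
    apply propext
    constructor <;> intro h <;> omega
  -- the point `(2(u+2), 2 ub)`
  have A1 := keyF hI hL α (u + 2) hu2
  have A2 := keyG hI hL α (u + 2 + 4 * ub) hw
  have A3 := keyF hI hL (α + 1) ub hub
  have A4 := keyF hI hL α u hu
  have e1 : (r α + 2 * (u + 2)) + 4 * (r (α + 1) + 2 * ub) =
      r α + 4 * r (α + 1) + 2 * (u + 2 + 4 * ub) := by ring
  have B1 := hI.Bii α (r α + 2 * (u + 2)) (r (α + 1) + 2 * ub) (k + 1) A1 (by rw [e1]; exact A2) A3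
  -- the point `(2u, 2 ub + 1)`
  have e2 : (r α + 2 * u) + 4 * (r (α + 1) + (2 * ub + 1)) =
      r α + 4 * r (α + 1) + 2 * (u + 2 + 4 * ub) := by ring
  have e3 : -(r α + 2 * u) - (r (α + 1) + (2 * ub + 1)) =
      r (α + 2) + (2 * (-u - ub - 1) + 1) := by linarith
  have B2 := hI.Bi α (r α + 2 * u) (r (α + 1) + (2 * ub + 1)) (k + 1) A4 (by rw [e2]; exact A2)
    (by rw [hL.cF]; ring) (by rw [e3, hL.cF]; ring)
  rw [e1] at B1
  rw [e2] at B2
  rw [← B1]
  exact B2

theorem tb_sum : xor (tb F r 0) (tb F r 1) = tb F r 2 := by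
  have h1 : ((2 : Fin 3) + 1) = 0 := rfl
  have h2 : ((2 : Fin 3) + 2) = 1 := rfl
  have h3 : ((1 : Fin 3) + 1) = 2 := rfl
  have h4 : ((1 : Fin 3) + 2) = 0 := rfl
  have h5 : ((0 : Fin 3) + 1) = 1 := rfl
  have h6 : ((0 : Fin 3) + 2) = 2 := rfl
  unfold tb
  rw [h1, h2, h3, h4, h5, h6]
  cases (F 0 (r 0 + 1)).2 <;> cases (F 1 (r 1 + 1)).2 <;> cases (F 2 (r 2 + 1)).2 <;> rfl

/-- the next offset -/
def nr (F : Fin 3 → ℤ → Color) (r : Fin 3 → ℤ) : Fin 3 → ℤ :=
  ![(if tb F r 0 then 1 else 0), (if tb F r 1 then 1 else 0),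
    - (if tb F r 0 then 1 else 0) - (if tb F r 1 then 1 else 0)]

theorem nr_sum : nr F r 0 + nr F r 1 + nr F r 2 = 0 := by
  simp [nr]

theorem nr_par (α : Fin 3) : decide (nr F r α % 2 = 1) = tb F r α := by
  have h0 : decide (nr F r 0 % 2 = 1) = tb F r 0 := by
    have : nr F r 0 = if tb F r 0 then 1 else 0 := rfl
    rw [this]
    cases tb F r 0 <;> simp
  have h1 : decide (nr F r 1 % 2 = 1) = tb F r 1 := by
    have : nr F r 1 = if tb F r 1 then 1 else 0 := rfl
    rw [this]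
    cases tb F r 1 <;> simp
  have h2 : decide (nr F r 2 % 2 = 1) = tb F r 2 := by
    have : nr F r 2 = - (if tb F r 0 then 1 else 0) - (if tb F r 1 then 1 else 0) := rfl
    rw [this, ← tb_sum]
    cases tb F r 0 <;> cases tb F r 1 <;> simp
  fin_cases α
  · exact h0
  · exact h1
  · exact h2

theorem par_odd (α : Fin 3) (x : ℤ) :
    decide ((nr F r α + (2 * x + 1)) % 2 = 0) = tb F r α := by
  rw [← nr_par]
  congr 1
  apply propext
  constructor <;> intro h <;> omega

theorem level_renorm (hI : Imp F G) (hL : Level F G k r) :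
    Level (fun α x => F α (r α + 2 * x)) (fun α y => G α (r α + 4 * r (α + 1) + 2 * y))
      (k + 1) (nr F r) := by
  constructor
  · exact nr_sum
  · intro α x
    exact keyF hI hL α _ (par_odd α x)
  · intro α x
    have := altF hI hL α _ (par_odd α x)
    have e : nr F r α + (2 * (x + 1) + 1) = nr F r α + (2 * x + 1) + 2 := by ring
    simp only [e]
    exact this
  · intro α x
    apply keyG hI hL α
    rw [← nr_par]
    congr 1
    apply propext
    constructor <;> intro h <;> omega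

end Renorm

/-- No solution is periodic. -/
theorem aperiodic : ∀ (M : ℕ), 0 < M → ∀ (F G : Fin 3 → ℤ → Color) (k : ZMod 3) (r : Fin 3 → ℤ),
    Imp F G → Level F G k r → ¬ ∀ x, F 0 (x + M) = F 0 x := by
  intro M
  induction M using Nat.strong_induction_on with
  | _ M ih =>
    intro hM F G k r hI hL hper
    rcases Nat.even_or_odd' M with ⟨m, hm | hm⟩
    · have hm0 : 0 < m := by omega
      refine ih m (by omega) hm0 _ _ _ _ (imp_renorm hI hL.sum) (level_renorm hI hL) ?_
      intro x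
      have := hper (r 0 + 2 * x)
      rw [hm] at this
      have e : r 0 + 2 * (x + (m : ℤ)) = r 0 + 2 * x + ((2 * m : ℕ) : ℤ) := by push_cast; ring
      simp only [e]
      exact this
    · have h1 := oddbit hL 0 M
      have h2 := hper (r 0 + 1 + M)
      have h3 := hper (r 0 + 1)
      have e : r 0 + 1 + (M : ℤ) + M = r 0 + (2 * M + 1) := by ring
      rw [e, h3] at h2
      rw [h2] at h1
      have h4 : ((M : ℤ) % 2 = 1) := by omega
      simp [h4] at h1

end Pool.Agent.BallTile.Sys
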